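import Mathlib

/-!
# Equitable partitions for semialgebraic hypergraphs: basic definitions

Polynomials in finitely many real variables as functions, weighted degrees, cells of the complement
of the zero set, general position, and the levelled partitions produced by the algorithm.
-/

set_option autoImplicit false

namespace Pool.Agent.SAP

open MvPolynomial

/-! ### Polynomials as functions -/

section poly

variable {τ : Type} [Fintype τ]

/-- the derivative of a polynomial -/
noncomputable def dpoly (p : MvPolynomial τ ℝ) (z : τ → ℝ) : (τ → ℝ) →L[ℝ] ℝ :=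
  ∑ j, eval z (pderiv j p) • (ContinuousLinearMap.proj j : (τ → ℝ) →L[ℝ] ℝ)

theorem dpoly_apply (p : MvPolynomial τ ℝ) (z w : τ → ℝ) :
    dpoly p z w = ∑ j, eval z (pderiv j p) * w j := by
  simp [dpoly]

theorem hasStrictFDerivAt_eval (p : MvPolynomial τ ℝ) (z : τ → ℝ) :
    HasStrictFDerivAt (fun w : τ → ℝ => eval w p) (dpoly p z) z := by
  classical
  induction p using MvPolynomial.induction_on with
  | C a =>
    have e : (fun w : τ → ℝ => eval w (C a : MvPolynomial τ ℝ)) = fun _ => a := by
      funext w; simp
    rw [e]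
    refine (hasStrictFDerivAt_const a z).congr_fderiv ?_
    ext w
    rw [dpoly_apply]
    simp
  | add p q hp hq =>
    have e : (fun w : τ → ℝ => eval w (p + q)) = (fun w => eval w p) + (fun w => eval w q) := by
      funext w; simp
    rw [e]
    refine (hp.add hq).congr_fderiv ?_
    ext w
    rw [dpoly_apply, _root_.add_apply, dpoly_apply, dpoly_apply, ← Finset.sum_add_distrib]
    apply Finset.sum_congr rfl
    intro j _
    rw [map_add, map_add, add_mul]
  | mul_X p i hp =>
    have e : (fun w : τ → ℝ => eval w (p * X i)) = (fun w => eval w p) * (fun w => w i) := by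
      funext w; simp
    have h1 : HasStrictFDerivAt (fun w : τ → ℝ => w i)
        (ContinuousLinearMap.proj i : (τ → ℝ) →L[ℝ] ℝ) z :=
      (ContinuousLinearMap.proj i : (τ → ℝ) →L[ℝ] ℝ).hasStrictFDerivAt
    rw [e]
    refine (hp.mul h1).congr_fderiv ?_
    ext w
    rw [dpoly_apply, _root_.add_apply, _root_.smul_apply,
      _root_.smul_apply, dpoly_apply, ContinuousLinearMap.proj_apply]
    have e2 : ∀ j, eval z (pderiv j (p * X i)) * w j =
        eval z p * (if i = j then w j else 0) + z i * (eval z (pderiv j p) * w j) := by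
      intro j
      rw [pderiv_mul, pderiv_X]
      simp only [map_add, map_mul, eval_X, Pi.single_apply]
      split_ifs with h1
      · simp; ring
      · simp; ring
    rw [Finset.sum_congr rfl (fun j _ => e2 j), Finset.sum_add_distrib, ← Finset.mul_sum,
      ← Finset.mul_sum]
    simp [smul_eq_mul]

theorem contDiff_eval (p : MvPolynomial τ ℝ) : ContDiff ℝ ⊤ (fun w : τ → ℝ => eval w p) := by
  classical
  induction p using MvPolynomial.induction_on with
  | C a => simpa using contDiff_const
  | add p q hp hq => simpa using hp.add hq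
  | mul_X p i hp => simpa using hp.mul (contDiff_apply ℝ ℝ i)

theorem continuous_eval (p : MvPolynomial τ ℝ) : Continuous (fun w : τ → ℝ => eval w p) :=
  (contDiff_eval p).continuous

end poly

/-- every monomial of `p` has weighted degree at most `n` -/
def WLE {τ : Type} [Fintype τ] (w : τ → ℕ) (n : ℕ) (p : MvPolynomial τ ℝ) : Prop :=
  ∀ m ∈ p.support, ∑ i, w i * m i ≤ n

/-- the connected component of `x` in the complement of the zero set of `F` -/
def cell {d : ℕ} (F : MvPolynomial (Fin d) ℝ) (x : Fin d → ℝ) : Set (Fin d → ℝ) :=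
  connectedComponentIn {z | eval z F ≠ 0} x

/-- the point of the product space with the blocks `x i` -/
def unc {κ : Type} {d : ℕ} (x : κ → Fin d → ℝ) : κ × Fin d → ℝ := fun q => x q.1 q.2

/-- product of cells in the product space -/
def boxSet {κ : Type} {d : ℕ} (ω : κ → Set (Fin d → ℝ)) : Set (κ × Fin d → ℝ) :=
  {z | ∀ i, (fun c => z (i, c)) ∈ ω i}

/-- square of the product of the block polynomials -/
noncomputable def blockSq {κ : Type} [Fintype κ] {d : ℕ} (F : κ → MvPolynomial (Fin d) ℝ) :
    MvPolynomial (κ × Fin d) ℝ := (∏ i, MvPolynomial.rename (fun c => (i, c)) (F i)) ^ 2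

/-- General position: `N ^ d` of the points impose independent conditions on the polynomials of
degree less than `N` in each variable. -/
def GP {L : Type} {d : ℕ} (y : L → Fin d → ℝ) : Prop :=
  ∀ (N : ℕ) (φ : (Fin d → Fin N) → L), Function.Injective φ →
    (Matrix.of fun β β' : Fin d → Fin N => ∏ c, y (φ β) c ^ (β' c : ℕ)).det ≠ 0

/-- The minors of the Lagrange system: common zeros are critical points of `H - v` on `G = τ`. -/
noncomputable def minors {σ : Type} [DecidableEq σ] (H G : MvPolynomial σ ℝ) (v : σ → ℝ) (t : ℝ)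
    (i₀ : σ) : σ → MvPolynomial σ ℝ := fun i =>
  if i = i₀ then G - C t
  else (pderiv i₀ H - C (v i₀)) * pderiv i G - (pderiv i H - C (v i)) * pderiv i₀ G

open Classical in
/-- A levelled partition of the labels `L` into `T` parts of size `s` or `s + 1`. A part of level `j`
lies in one cell of `F j`, a polynomial of degree at most `K * M j`; the parts without level are few;
the numbers `M j` decrease geometrically. -/
structure Leveled {L : Type} [Fintype L] {d : ℕ} (y : L → Fin d → ℝ) (N T K : ℕ) where
  part : L → Fin T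
  s : ℕ
  s_pos : 1 ≤ s
  fib : ∀ t, s ≤ (Finset.univ.filter fun a => part a = t).card ∧
    (Finset.univ.filter fun a => part a = t).card ≤ s + 1
  J : ℕ
  M : Fin J → ℕ
  M_pos : ∀ j, 1 ≤ M j
  M_le : ∀ j, M j ≤ N
  F : Fin J → MvPolynomial (Fin d) ℝ
  deg : ∀ j, (F j).totalDegree ≤ K * M j
  lev : Fin T → Option (Fin J)
  none_card : (Finset.univ.filter fun a => lev (part a) = none).card * N ≤ K * Fintype.card L
  ne : ∀ j a, lev (part a) = some j → eval (y a) (F j) ≠ 0
  bdd : ∀ j a, lev (part a) = some j → Bornology.IsBounded (cell (F j) (y a))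
  same : ∀ j a b, part a = part b → lev (part a) = some j → y b ∈ cell (F j) (y a)
  few : ∀ j a, lev (part a) = some j → (Finset.univ.filter fun t : Fin T => lev t = some j ∧
    ∃ b, part b = t ∧ y b ∈ cell (F j) (y a)).card ≤ K
  sum : ∑ j, M j ^ (d - 1) ≤ K * N ^ (d - 1)

/-! ### The hypergraphs of the problem -/

/-- `E` is the edge set of a semialgebraic hypergraph of total degree at most `D` with vertex sets
`P i`, represented by polynomials `g j` and a Boolean function `Φ` of their signs. -/
def IsSemialgebraic {d k : ℕ} (P : Fin k → Finset (Fin d → ℝ)) (E : Set (Fin k → Fin d → ℝ))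
    (D : ℕ) : Prop :=
  ∃ (t : ℕ) (g : Fin t → MvPolynomial (Fin k × Fin d) ℝ) (Φ : (Fin t → SignType) → Prop),
    ∑ j, (g j).totalDegree ≤ D ∧
      ∀ x : Fin k → Fin d → ℝ, (∀ i, x i ∈ P i) →
        (x ∈ E ↔ Φ fun j => SignType.sign (eval (fun q => x q.1 q.2) (g j)))

/-- a tuple of parts is homogeneous -/
def IsHomogeneous {d k : ℕ} (E : Set (Fin k → Fin d → ℝ)) (π : Fin k → Finset (Fin d → ℝ)) :
    Prop :=
  (∀ x : Fin k → Fin d → ℝ, (∀ i, x i ∈ π i) → x ∈ E) ∨
    ∀ x : Fin k → Fin d → ℝ, (∀ i, x i ∈ π i) → x ∉ E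

open Classical in
/-- the partitions `Π i` of the sets `P i` form a homogeneous partition with error `ε` -/
def HomogeneousPartition {d k : ℕ} {P : Fin k → Finset (Fin d → ℝ)}
    (Q : ∀ i, Finpartition (P i)) (E : Set (Fin k → Fin d → ℝ)) (ε : ℝ) : Prop :=
  ∑ π ∈ (Fintype.piFinset fun i => (Q i).parts).filter (fun π => ¬ IsHomogeneous E π),
    ∏ i, (((π i).card : ℝ) / (P i).card) ≤ ε

end Pool.Agent.SAP
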