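import Mathlib
import Pool.Agent.SAP.Defs

/-!
# A weighted Bezout bound for nondegenerate real zeros

The zeros are first moved to zeros of the perturbed system `p i + t * X i ^ e i`; evaluation at the
moved zeros factors through the monomials below the exponents `e i`.
-/

set_option autoImplicit false

namespace Pool.Agent.SAP

open MvPolynomial

namespace BEZ

variable {σ : Type} [Fintype σ] [DecidableEq σ]

/-! ### Moving the zeros -/

/-- the derivative of the perturbed system at the parameter zero -/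
noncomputable def gder (e : σ → ℕ) (p : σ → MvPolynomial σ ℝ) (z : σ → ℝ) :
    (ℝ × (σ → ℝ)) →L[ℝ] (ℝ × (σ → ℝ)) :=
  (ContinuousLinearMap.fst ℝ ℝ (σ → ℝ)).prod
    (ContinuousLinearMap.pi fun i =>
      (dpoly (p i) z).comp (ContinuousLinearMap.snd ℝ ℝ (σ → ℝ)) +
        (z i ^ e i) • ContinuousLinearMap.fst ℝ ℝ (σ → ℝ))

omit [DecidableEq σ] in
theorem gder_apply (e : σ → ℕ) (p : σ → MvPolynomial σ ℝ) (z : σ → ℝ) (q : ℝ × (σ → ℝ)) :
    gder e p z q = (q.1, fun i => dpoly (p i) z q.2 + z i ^ e i * q.1) := by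
  simp only [gder, ContinuousLinearMap.prod_apply, ContinuousLinearMap.coe_fst']
  congr 1

omit [DecidableEq σ] in
theorem hasStrictFDerivAt_g (e : σ → ℕ) (p : σ → MvPolynomial σ ℝ) (z : σ → ℝ) :
    HasStrictFDerivAt (fun q : ℝ × (σ → ℝ) =>
      ((q.1, fun i => eval q.2 (p i) + q.1 * q.2 i ^ e i) : ℝ × (σ → ℝ))) (gder e p z) (0, z) := by
  have h1 : HasStrictFDerivAt (fun q : ℝ × (σ → ℝ) => q.1)
      (ContinuousLinearMap.fst ℝ ℝ (σ → ℝ)) (0, z) := hasStrictFDerivAt_fst
  have h2 : HasStrictFDerivAt (fun q : ℝ × (σ → ℝ) => q.2)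
      (ContinuousLinearMap.snd ℝ ℝ (σ → ℝ)) (0, z) := hasStrictFDerivAt_snd
  refine h1.prodMk (hasStrictFDerivAt_pi.2 fun i => ?_)
  have h3 : HasStrictFDerivAt (fun q : ℝ × (σ → ℝ) => eval q.2 (p i))
      ((dpoly (p i) z).comp (ContinuousLinearMap.snd ℝ ℝ (σ → ℝ))) (0, z) :=
    HasStrictFDerivAt.comp (x := ((0 : ℝ), z)) (hasStrictFDerivAt_eval (p i) z) h2
  have h4 : HasStrictFDerivAt (fun q : ℝ × (σ → ℝ) => eval q.2 (X i ^ e i : MvPolynomial σ ℝ))
      ((dpoly (X i ^ e i : MvPolynomial σ ℝ) z).comp (ContinuousLinearMap.snd ℝ ℝ (σ → ℝ)))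
        (0, z) :=
    HasStrictFDerivAt.comp (x := ((0 : ℝ), z))
      (hasStrictFDerivAt_eval (X i ^ e i : MvPolynomial σ ℝ) z) h2
  have h5 := h3.add (h1.mul h4)
  have e5 : (fun q : ℝ × (σ → ℝ) => eval q.2 (p i) + q.1 * q.2 i ^ e i) =
      (fun q : ℝ × (σ → ℝ) => eval q.2 (p i)) +
        (fun q : ℝ × (σ → ℝ) => q.1) * (fun q => eval q.2 (X i ^ e i : MvPolynomial σ ℝ)) := by
    funext q
    simp
  rw [e5]
  refine h5.congr_fderiv ?_
  ext q <;> simp

theorem gder_surj (e : σ → ℕ) (p : σ → MvPolynomial σ ℝ) (z : σ → ℝ)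
    (hJ : (Matrix.of fun i j => eval z (pderiv j (p i))).det ≠ 0) :
    LinearMap.range (gder e p z : (ℝ × (σ → ℝ)) →ₗ[ℝ] (ℝ × (σ → ℝ))) = ⊤ := by
  rw [LinearMap.range_eq_top, ← LinearMap.injective_iff_surjective, ← LinearMap.ker_eq_bot,
    LinearMap.ker_eq_bot']
  intro q hq
  have hq' : gder e p z q = 0 := hq
  rw [gder_apply] at hq'
  have h1 : q.1 = 0 := congrArg Prod.fst hq'
  have h2 : ∀ i, dpoly (p i) z q.2 = 0 := by
    intro i
    have h3 := congrFun (congrArg Prod.snd hq') i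
    simpa [h1] using h3
  have h4 : (Matrix.of fun i j => eval z (pderiv j (p i))).mulVec q.2 = 0 := by
    funext i
    have h5 := h2 i
    rw [dpoly_apply] at h5
    simpa [Matrix.mulVec, dotProduct] using h5
  have h6 : q.2 = 0 := by
    by_contra hne
    exact hJ (Matrix.exists_mulVec_eq_zero_iff.1 ⟨q.2, hne, h4⟩)
  exact Prod.ext h1 h6

theorem eventually_zero (e : σ → ℕ) (p : σ → MvPolynomial σ ℝ) (z : σ → ℝ)
    (hz : ∀ i, eval z (p i) = 0)
    (hJ : (Matrix.of fun i j => eval z (pderiv j (p i))).det ≠ 0) (U : Set (σ → ℝ))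
    (hU : U ∈ nhds z) :
    ∀ᶠ t in nhds (0 : ℝ), ∃ x ∈ U, ∀ i, eval x (p i) + t * x i ^ e i = 0 := by
  have h1 := (hasStrictFDerivAt_g e p z).map_nhds_eq_of_surj (gder_surj e p z hJ)
  have h2 : {q : ℝ × (σ → ℝ) | q.2 ∈ U} ∈ nhds ((0 : ℝ), z) :=
    continuousAt_snd hU
  have h3 := Filter.image_mem_map (m := fun q : ℝ × (σ → ℝ) =>
      ((q.1, fun i => eval q.2 (p i) + q.1 * q.2 i ^ e i) : ℝ × (σ → ℝ))) h2
  rw [h1] at h3
  have h4 : ((0 : ℝ), fun i => eval z (p i) + 0 * z i ^ e i) = ((0 : ℝ), (0 : σ → ℝ)) := by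
    congr 1
    funext i
    simp [hz i]
  have h5 : Filter.Tendsto (fun t : ℝ => (t, (0 : σ → ℝ))) (nhds 0)
      (nhds ((0 : ℝ), (0 : σ → ℝ))) :=
    (Continuous.prodMk_left (0 : σ → ℝ)).tendsto 0
  have h6 : nhds ((0 : ℝ), fun i => eval z (p i) + 0 * z i ^ e i) =
      nhds ((0 : ℝ), (0 : σ → ℝ)) := by rw [h4]
  have h7 := h5 (h6 ▸ h3)
  filter_upwards [h7] with t ht
  obtain ⟨q, hq, hq2⟩ := ht
  have e1 : q.1 = t := congrArg Prod.fst hq2
  refine ⟨q.2, hq, fun i => ?_⟩
  have e2 := congrFun (congrArg Prod.snd hq2) i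
  simpa [e1] using e2

theorem eventually_move (e : σ → ℕ) (p : σ → MvPolynomial σ ℝ) (Z : Finset (σ → ℝ))
    (hz : ∀ z ∈ Z, ∀ i, eval z (p i) = 0)
    (hJ : ∀ z ∈ Z, (Matrix.of fun i j => eval z (pderiv j (p i))).det ≠ 0) :
    ∀ᶠ t in nhds (0 : ℝ), ∃ Z' : Finset (σ → ℝ), Z'.card = Z.card ∧
      ∀ x ∈ Z', ∀ i, eval x (p i) + t * x i ^ e i = 0 := by
  classical
  obtain ⟨U, hU, hd⟩ := (Z.finite_toSet).t2_separation
  have h1 : ∀ z ∈ Z, ∀ᶠ t in nhds (0 : ℝ), ∃ x ∈ U z, ∀ i, eval x (p i) + t * x i ^ e i = 0 :=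
    fun z hzZ => eventually_zero e p z (hz z hzZ) (hJ z hzZ) (U z) ((hU z).2.mem_nhds (hU z).1)
  have h2 := (Filter.eventually_all_finset Z).2 h1
  filter_upwards [h2] with t ht
  choose! f hf using ht
  have hinj : Set.InjOn f (Z : Set (σ → ℝ)) := by
    intro a ha b hb hab
    by_contra hne
    have h3 := hd ha hb hne
    exact Set.disjoint_left.1 h3 (hf a ha).1 (hab ▸ (hf b hb).1)
  refine ⟨Z.image f, Finset.card_image_of_injOn hinj, ?_⟩
  intro x hx
  obtain ⟨z, hzZ, rfl⟩ := Finset.mem_image.1 hx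
  exact (hf z hzZ).2

/-! ### Weights -/

/-- the weight of a monomial -/
def wt (w : σ → ℕ) (m : σ →₀ ℕ) : ℕ := ∑ i, w i * m i

omit [DecidableEq σ] in
theorem wt_add (w : σ → ℕ) (m n : σ →₀ ℕ) : wt w (m + n) = wt w m + wt w n := by
  simp [wt, mul_add, Finset.sum_add_distrib]

omit [DecidableEq σ] in
theorem wt_single (w : σ → ℕ) (i : σ) (a : ℕ) : wt w (Finsupp.single i a) = w i * a := by
  rw [wt, Finset.sum_eq_single i]
  · simp
  · intro j _ hj
    rw [Finsupp.single_eq_of_ne hj]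
    simp
  · simp

theorem wle_mul (w : σ → ℕ) {a b : ℕ} {p q : MvPolynomial σ ℝ} (hp : WLE w a p)
    (hq : WLE w b q) : WLE w (a + b) (p * q) := by
  intro m hm
  have h1 := support_mul p q hm
  obtain ⟨m1, h2, m2, h3, rfl⟩ := Finset.mem_add.1 h1
  have h4 := wt_add w m1 m2
  have h5 := hp m1 h2
  have h6 := hq m2 h3
  simp only [wt] at h4
  omega

omit [DecidableEq σ] in
theorem wle_mono (w : σ → ℕ) {a b : ℕ} {p : MvPolynomial σ ℝ} (hp : WLE w a p) (h : a ≤ b) :
    WLE w b p := fun m hm => (hp m hm).trans h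

omit [DecidableEq σ] in
theorem wle_monomial (w : σ → ℕ) (m : σ →₀ ℕ) (a : ℝ) : WLE w (wt w m) (monomial m a) := by
  intro n hn
  have h1 := support_monomial_subset hn
  rw [Finset.mem_singleton] at h1
  rw [h1]
  exact le_rfl

omit [DecidableEq σ] in
theorem wle_C (w : σ → ℕ) (a : ℝ) : WLE w 0 (C a) := by
  have h1 := wle_monomial w 0 a
  have h2 : wt w 0 = 0 := by simp [wt]
  rw [h2] at h1
  exact h1

omit [DecidableEq σ] in
theorem wle_X (w : σ → ℕ) (i : σ) : WLE w (w i) (X i) := by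
  have h1 := wle_monomial w (Finsupp.single i 1) 1
  rw [wt_single, mul_one] at h1
  exact h1

theorem wle_add (w : σ → ℕ) {a : ℕ} {p q : MvPolynomial σ ℝ} (hp : WLE w a p)
    (hq : WLE w a q) : WLE w a (p + q) := by
  intro m hm
  rcases Finset.mem_union.1 (support_add hm) with h | h
  · exact hp m h
  · exact hq m h

theorem wle_prod {ι : Type*} (w : σ → ℕ) (c : ℕ) (s : Finset ι) (f : ι → MvPolynomial σ ℝ)
    (hf : ∀ i ∈ s, WLE w c (f i)) : WLE w (c * s.card) (∏ i ∈ s, f i) := by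
  classical
  induction s using Finset.induction_on with
  | empty =>
    simp only [Finset.prod_empty, Finset.card_empty, mul_zero]
    exact wle_C w 1
  | insert a s ha ih =>
    rw [Finset.prod_insert ha, Finset.card_insert_of_notMem ha]
    have h1 := wle_mul w (hf a (Finset.mem_insert_self a s))
      (ih fun i hi => hf i (Finset.mem_insert_of_mem hi))
    exact wle_mono w h1 (by ring_nf; exact le_rfl)

theorem finite_wt (w : σ → ℕ) (hw : ∀ i, 0 < w i) (M : ℕ) :
    {m : σ →₀ ℕ | wt w m ≤ M}.Finite := by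
  have h1 : {m : σ →₀ ℕ | wt w m ≤ M} ⊆ Set.Iic (Finsupp.equivFunOnFinite.symm fun _ => M) := by
    intro m hm i
    have h2 : w i * m i ≤ wt w m :=
      Finset.single_le_sum (f := fun i => w i * m i) (fun _ _ => Nat.zero_le _)
        (Finset.mem_univ i)
    have h3 : m i ≤ w i * m i := Nat.le_mul_of_pos_left _ (hw i)
    have h4 : wt w m ≤ M := hm
    simpa using (h3.trans h2).trans h4
  exact (Set.finite_Iic _).subset h1

/-- the polynomials of weight at most `M` -/
noncomputable abbrev V (w : σ → ℕ) (M : ℕ) : Submodule ℝ (MvPolynomial σ ℝ) :=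
  restrictSupport ℝ {m : σ →₀ ℕ | wt w m ≤ M}

omit [DecidableEq σ] in
theorem mem_V (w : σ → ℕ) (M : ℕ) (q : MvPolynomial σ ℝ) : q ∈ V w M ↔ WLE w M q := by
  rw [mem_restrictSupport_iff]
  exact Iff.rfl

theorem finite_V (w : σ → ℕ) (hw : ∀ i, 0 < w i) (M : ℕ) : Module.Finite ℝ (V w M) := by
  have h1 : Finite {m : σ →₀ ℕ | wt w m ≤ M} := (finite_wt w hw M).to_subtype
  exact Module.Finite.of_basis (basisRestrictSupport ℝ {m : σ →₀ ℕ | wt w m ≤ M})

/-! ### The reduction -/

open Classical in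
/-- the reduction of a monomial -/
noncomputable def redm (e : σ → ℕ) (p : σ → MvPolynomial σ ℝ) (m : σ →₀ ℕ) : MvPolynomial σ ℝ :=
  if h : ∃ i, e i ≤ m i then
    monomial (m - Finsupp.single h.choose (e h.choose)) 1 * p h.choose
  else 0

/-- the reduction map -/
noncomputable def red (e : σ → ℕ) (p : σ → MvPolynomial σ ℝ) :
    MvPolynomial σ ℝ →ₗ[ℝ] MvPolynomial σ ℝ :=
  (basisMonomials σ ℝ).constr ℝ (redm e p)

omit [DecidableEq σ] in
theorem red_monomial (e : σ → ℕ) (p : σ → MvPolynomial σ ℝ) (m : σ →₀ ℕ) (a : ℝ) :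
    red e p (monomial m a) = a • redm e p m := by
  have h1 : monomial m a = a • (basisMonomials σ ℝ) m := by
    rw [coe_basisMonomials, smul_monomial]
    simp
  rw [h1, map_smul, red, Module.Basis.constr_basis]

theorem wle_redm (w e : σ → ℕ) (p : σ → MvPolynomial σ ℝ) (hp : ∀ i, WLE w (w i * e i) (p i))
    (m : σ →₀ ℕ) : WLE w (wt w m) (redm e p m) := by
  rw [redm]
  split_ifs with h
  · have h1 := wle_mul w (wle_monomial w (m - Finsupp.single h.choose (e h.choose)) 1)
      (hp h.choose)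
    have h2 : m = (m - Finsupp.single h.choose (e h.choose)) +
        Finsupp.single h.choose (e h.choose) := by
      rw [tsub_add_cancel_of_le]
      rw [Finsupp.single_le_iff]
      exact h.choose_spec
    have h3 : wt w m = wt w (m - Finsupp.single h.choose (e h.choose)) +
        w h.choose * e h.choose := by
      conv_lhs => rw [h2]
      rw [wt_add, wt_single]
    rw [h3]
    exact h1
  · intro n hn
    simp at hn

theorem red_mem (w e : σ → ℕ) (p : σ → MvPolynomial σ ℝ) (hp : ∀ i, WLE w (w i * e i) (p i))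
    (M : ℕ) (q : MvPolynomial σ ℝ) (hq : q ∈ V w M) : red e p q ∈ V w M := by
  have h1 : red e p q = ∑ m ∈ q.support, (coeff m q) • redm e p m := by
    conv_lhs => rw [q.as_sum, map_sum]
    exact Finset.sum_congr rfl fun m _ => red_monomial e p m _
  rw [h1]
  refine Submodule.sum_mem _ fun m hm => Submodule.smul_mem _ _ ?_
  rw [mem_V]
  exact wle_mono w (wle_redm w e p hp m) ((mem_V w M q).1 hq m hm)

theorem exists_param (w e : σ → ℕ) (hw : ∀ i, 0 < w i) (p : σ → MvPolynomial σ ℝ)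
    (hp : ∀ i, WLE w (w i * e i) (p i)) (M : ℕ) {P : ℝ → Prop} (hP : ∀ᶠ t in nhds (0 : ℝ), P t) :
    ∃ t, P t ∧ ∀ q ∈ V w M, ∃ q' : MvPolynomial σ ℝ, t • q' + red e p q' = q := by
  have hfin := finite_V w hw M
  have hfd : FiniteDimensional ℝ (V w M) := hfin
  let R : Module.End ℝ (V w M) := (red e p).restrict (fun q hq => red_mem w e p hp M q hq)
  have h1 : {μ : ℝ | R.HasEigenvalue μ}.Finite := Module.End.finite_hasEigenvalue R
  have h2 : ((fun t : ℝ => -t) ⁻¹' {μ : ℝ | R.HasEigenvalue μ}).Finite :=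
    h1.preimage (neg_injective.injOn)
  have h3 : {t | P t}.Infinite := infinite_of_mem_nhds (0 : ℝ) hP
  obtain ⟨t, ht, ht2⟩ := h3.exists_notMem_finite h2
  refine ⟨t, ht, fun q hq => ?_⟩
  have hinj : Function.Injective (t • (LinearMap.id : Module.End ℝ (V w M)) + R) := by
    rw [← LinearMap.ker_eq_bot, LinearMap.ker_eq_bot']
    intro x hx
    by_contra hne
    apply ht2
    have h4 : R x = (-t) • x := by
      have h5 : t • x + R x = 0 := hx
      exact (eq_neg_of_add_eq_zero_right h5).trans (neg_smul t x).symm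
    exact Module.End.hasEigenvalue_of_hasEigenvector
      (show R.HasEigenvector (-t) x from ⟨Module.End.mem_eigenspace_iff.2 h4, hne⟩)
  have hsurj := LinearMap.injective_iff_surjective.1 hinj
  obtain ⟨y, hy⟩ := hsurj ⟨q, hq⟩
  refine ⟨y, ?_⟩
  have h6 := congrArg Subtype.val hy
  exact h6

/-! ### Evaluation -/

/-- evaluation of the combinations of the monomials in the box -/
noncomputable def boxEval (e : σ → ℕ) (Z : Finset (σ → ℝ)) :
    ((∀ i, Fin (e i)) → ℝ) →ₗ[ℝ] (Z → ℝ) where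
  toFun c z := ∑ b, c b * ∏ i, (z : σ → ℝ) i ^ (b i : ℕ)
  map_add' c d := by
    funext z
    simp [add_mul, Finset.sum_add_distrib]
  map_smul' a c := by
    funext z
    simp [Finset.mul_sum, mul_assoc]

theorem eval_red_mem (e : σ → ℕ) (p : σ → MvPolynomial σ ℝ) (t : ℝ) (Z : Finset (σ → ℝ))
    (hZ : ∀ x ∈ Z, ∀ i, eval x (p i) + t * x i ^ e i = 0) (q : MvPolynomial σ ℝ) :
    (fun z : Z => eval (z : σ → ℝ) (t • q + red e p q)) ∈ LinearMap.range (boxEval e Z) := by
  classical
  induction q using MvPolynomial.induction_on' with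
  | monomial m a =>
    by_cases h : ∃ i, e i ≤ m i
    · have h0 : (fun z : Z => eval (z : σ → ℝ) (t • monomial m a + red e p (monomial m a))) = 0 := by
        funext z
        rw [red_monomial, redm, dif_pos h]
        have h2 : m = (m - Finsupp.single h.choose (e h.choose)) +
            Finsupp.single h.choose (e h.choose) := by
          rw [tsub_add_cancel_of_le]
          rw [Finsupp.single_le_iff]
          exact h.choose_spec
        have h3 : (monomial m a : MvPolynomial σ ℝ) =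
            a • (monomial (m - Finsupp.single h.choose (e h.choose)) 1 *
              X h.choose ^ e h.choose) := by
          conv_lhs => rw [h2]
          rw [X_pow_eq_monomial, monomial_mul, smul_monomial]
          simp
        rw [h3]
        have h4 := hZ z z.2 h.choose
        simp only [smul_eval, map_add, map_mul, map_pow, eval_X, Pi.zero_apply]
        linear_combination (a * eval (z : σ → ℝ)
          (monomial (m - Finsupp.single h.choose (e h.choose)) (1 : ℝ))) * h4
      rw [h0]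
      exact Submodule.zero_mem _
    · have h' : ∀ i, m i < e i := by
        intro i
        by_contra hc
        exact h ⟨i, not_lt.1 hc⟩
      refine ⟨Pi.single (fun i => (⟨m i, h' i⟩ : Fin (e i))) (t * a), ?_⟩
      funext z
      rw [red_monomial, redm, dif_neg h]
      simp only [boxEval, LinearMap.coe_mk, AddHom.coe_mk]
      rw [Finset.sum_eq_single (fun i => (⟨m i, h' i⟩ : Fin (e i)))]
      · rw [Pi.single_eq_same, smul_zero, add_zero, smul_eval, eval_monomial,
          Finsupp.prod_fintype _ _ (fun i => by simp)]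
        ring
      · intro b _ hb
        rw [Pi.single_eq_of_ne hb, zero_mul]
      · intro hb
        exact absurd (Finset.mem_univ _) hb
  | add q r hq hr =>
    have h1 := Submodule.add_mem _ hq hr
    have h2 : (fun z : Z => eval (z : σ → ℝ) (t • (q + r) + red e p (q + r))) =
        (fun z : Z => eval (z : σ → ℝ) (t • q + red e p q)) +
          (fun z : Z => eval (z : σ → ℝ) (t • r + red e p r)) := by
      funext z
      simp only [Pi.add_apply, map_add, smul_add]
      ring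
    rw [h2]
    exact h1

theorem lagrange (w : σ → ℕ) (Z : Finset (σ → ℝ)) (z : σ → ℝ) :
    ∃ q ∈ V w ((∑ i, w i) * Z.card), eval z q = 1 ∧ ∀ z' ∈ Z, z' ≠ z → eval z' q = 0 := by
  classical
  have h1 : ∀ z' : σ → ℝ, z' ≠ z → ∃ r : MvPolynomial σ ℝ, WLE w (∑ i, w i) r ∧ eval z r = 1 ∧
      eval z' r = 0 := by
    intro z' hne
    have h2 : ∃ i, z i - z' i ≠ 0 := by
      by_contra hc
      push Not at hc
      exact hne (funext fun i => (sub_eq_zero.1 (hc i)).symm)
    obtain ⟨i, hi⟩ := h2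
    refine ⟨C ((z i - z' i)⁻¹) * (X i + C (-z' i)), ?_, ?_, ?_⟩
    · have h3 := wle_mul w (wle_C w ((z i - z' i)⁻¹))
        (wle_add w (wle_X w i) (wle_mono w (wle_C w (-z' i)) (Nat.zero_le _)))
      refine wle_mono w h3 ?_
      rw [zero_add]
      exact Finset.single_le_sum (f := w) (fun _ _ => Nat.zero_le _) (Finset.mem_univ _)
    · simp only [map_mul, map_add, eval_C, eval_X]
      rw [← sub_eq_add_neg]
      exact inv_mul_cancel₀ hi
    · simp
  choose! f hf using h1
  refine ⟨∏ z' ∈ Z.erase z, f z', ?_, ?_, ?_⟩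
  · rw [mem_V]
    have h2 := wle_prod w (∑ i, w i) (Z.erase z) f
      (fun z' hz' => (hf z' (Finset.ne_of_mem_erase hz')).1)
    exact wle_mono w h2 (Nat.mul_le_mul_left _ (Finset.card_le_card (Finset.erase_subset _ _)))
  · rw [eval_prod]
    apply Finset.prod_eq_one
    intro z' hz'
    exact (hf z' (Finset.ne_of_mem_erase hz')).2.1
  · intro z' hz' hne
    rw [eval_prod]
    exact Finset.prod_eq_zero (Finset.mem_erase.2 ⟨hne, hz'⟩) (hf z' hne).2.2

theorem card_le (w e : σ → ℕ) (p : σ → MvPolynomial σ ℝ) (t : ℝ)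
    (Z : Finset (σ → ℝ)) (hZ : ∀ x ∈ Z, ∀ i, eval x (p i) + t * x i ^ e i = 0)
    (hs : ∀ q ∈ V w ((∑ i, w i) * Z.card), ∃ q' : MvPolynomial σ ℝ, t • q' + red e p q' = q) :
    Z.card ≤ ∏ i, e i := by
  classical
  have hsurj : Function.Surjective (boxEval e Z) := by
    rw [← LinearMap.range_eq_top, eq_top_iff]
    intro g _
    have h1 : g = ∑ z : Z, g z • (Pi.single z (1 : ℝ) : Z → ℝ) := by
      funext y
      simp [Finset.sum_apply, Pi.single_apply]
    rw [h1]
    refine Submodule.sum_mem _ fun z _ => Submodule.smul_mem _ _ ?_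
    obtain ⟨q, hq, hq1, hq2⟩ := lagrange w Z z
    obtain ⟨q', hq'⟩ := hs q hq
    have h2 := eval_red_mem e p t Z hZ q'
    rw [hq'] at h2
    have h3 : (fun y : Z => eval (y : σ → ℝ) q) = (Pi.single z (1 : ℝ) : Z → ℝ) := by
      funext y
      by_cases hy : y = z
      · subst hy
        rw [Pi.single_eq_same]
        exact hq1
      · rw [Pi.single_eq_of_ne hy]
        exact hq2 y y.2 fun h => hy (Subtype.ext h)
    rw [h3] at h2
    exact h2
  have h4 := LinearMap.finrank_le_finrank_of_surjective hsurj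
  rw [Module.finrank_fintype_fun_eq_card, Module.finrank_fintype_fun_eq_card,
    Fintype.card_coe, Fintype.card_pi] at h4
  simpa using h4

end BEZ

/-- **Weighted Bezout bound.** The number of nondegenerate common real zeros of `p i`, where `p i`
has weighted degree at most `w i * e i`, is at most the product of the `e i`. -/
theorem bezout {σ : Type} [Fintype σ] [DecidableEq σ] (w e : σ → ℕ) (hw : ∀ i, 0 < w i)
    (he : ∀ i, 0 < e i) (p : σ → MvPolynomial σ ℝ) (hp : ∀ i, WLE w (w i * e i) (p i))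
    (Z : Finset (σ → ℝ)) (hz : ∀ z ∈ Z, ∀ i, eval z (p i) = 0)
    (hJ : ∀ z ∈ Z, (Matrix.of fun i j => eval z (pderiv j (p i))).det ≠ 0) :
    Z.card ≤ ∏ i, e i := by
  obtain ⟨t, ⟨Z', hc, hZ'⟩, hs⟩ := BEZ.exists_param w e hw p hp ((∑ i, w i) * Z.card)
    (BEZ.eventually_move e p Z hz hJ)
  rw [← hc] at hs ⊢
  exact BEZ.card_le w e p t Z' hZ' hs

end Pool.Agent.SAP
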