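import Pool.Agent.SAP.Defs

/-!
# Cells: components of the complement of a zero set
-/

set_option autoImplicit false

namespace Pool.Agent.SAP

open MvPolynomial Filter Topology

section cell
variable {d : ℕ} {F f g : MvPolynomial (Fin d) ℝ} {x y : Fin d → ℝ}

theorem mem_cell (h : eval x F ≠ 0) : x ∈ cell F x := mem_connectedComponentIn h

theorem cell_subset : cell F x ⊆ {z | eval z F ≠ 0} := connectedComponentIn_subset _ _

theorem Cell.isOpen_ne (F : MvPolynomial (Fin d) ℝ) : IsOpen {z | eval z F ≠ 0} :=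
  isOpen_ne_fun (continuous_eval F) continuous_const

theorem isOpen_cell : IsOpen (cell F x) := (Cell.isOpen_ne F).connectedComponentIn

theorem isPreconnected_cell : IsPreconnected (cell F x) := isPreconnected_connectedComponentIn

theorem cell_eq_of_mem (h : y ∈ cell F x) : cell F y = cell F x :=
  (connectedComponentIn_eq h).symm

theorem Cell.mem_of_closure {z : Fin d → ℝ} (h : z ∈ closure (cell F x)) (hz : eval z F ≠ 0) :
    z ∈ cell F x := by
  obtain ⟨u, hu1, hu2⟩ := mem_closure_iff.1 h (cell F z) isOpen_cell (mem_cell hz)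
  rw [← cell_eq_of_mem hu2, cell_eq_of_mem hu1]
  exact mem_cell hz

theorem frontier_cell {z : Fin d → ℝ} (h : z ∈ frontier (cell F x)) : eval z F = 0 := by
  by_contra hz
  rw [isOpen_cell.frontier_eq] at h
  exact h.2 (Cell.mem_of_closure h.1 hz)

theorem Cell.center_mem (h : y ∈ cell F x) : x ∈ cell F x :=
  mem_connectedComponentIn (connectedComponentIn_nonempty_iff.1 ⟨y, h⟩)

theorem Cell.sign_const {u : MvPolynomial (Fin d) ℝ} (hu : ∀ z ∈ cell F x, eval z u ≠ 0)
    (h : y ∈ cell F x) : 0 < eval x u * eval y u := by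
  have hx := Cell.center_mem h
  by_contra hcon
  have h1 : eval x u * eval y u < 0 :=
    lt_of_le_of_ne (not_lt.1 hcon) (mul_ne_zero (hu x hx) (hu y h))
  have hc : ContinuousOn (fun w : Fin d → ℝ => eval w u) (cell F x) :=
    (continuous_eval u).continuousOn
  rcases mul_neg_iff.1 h1 with ⟨ha, hb⟩ | ⟨ha, hb⟩
  · obtain ⟨z, hz, hz0⟩ := isPreconnected_cell.intermediate_value h hx hc
      (show (0 : ℝ) ∈ Set.Icc _ _ from ⟨hb.le, ha.le⟩)
    exact hu z hz hz0
  · obtain ⟨z, hz, hz0⟩ := isPreconnected_cell.intermediate_value hx h hc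
      (show (0 : ℝ) ∈ Set.Icc _ _ from ⟨ha.le, hb.le⟩)
    exact hu z hz hz0

/-- factors have constant sign on cells -/
theorem sign_cell {ι : Type} {s : Finset ι} {f : ι → MvPolynomial (Fin d) ℝ} {i : ι} (hi : i ∈ s)
    (h : y ∈ cell (∏ i ∈ s, f i) x) : 0 < eval x (f i) * eval y (f i) := by
  apply Cell.sign_const _ h
  intro z hz h0
  apply cell_subset hz
  rw [map_prod]
  exact Finset.prod_eq_zero hi h0

theorem cell_mul_subset : cell (f * g) x ⊆ cell f x := by
  apply connectedComponentIn_mono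
  intro z hz h0
  apply hz
  rw [map_mul, h0, zero_mul]

/-- the ball factor makes the cells bounded -/
theorem bounded_cell_ball {R : ℝ} (hx : ∑ c, x c ^ 2 < R ^ 2) :
    Bornology.IsBounded (cell (f * (C (R ^ 2) - ∑ c, X c ^ 2)) x) := by
  rw [isBounded_iff_forall_norm_le]
  refine ⟨|R|, fun z hz => ?_⟩
  have h1 : 0 < eval x (C (R ^ 2) - ∑ c, X c ^ 2 : MvPolynomial (Fin d) ℝ) *
      eval z (C (R ^ 2) - ∑ c, X c ^ 2 : MvPolynomial (Fin d) ℝ) := by
    apply Cell.sign_const _ hz
    intro u hu h0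
    apply cell_subset hu
    rw [map_mul, h0, mul_zero]
  have e : ∀ u : Fin d → ℝ, eval u (C (R ^ 2) - ∑ c, X c ^ 2 : MvPolynomial (Fin d) ℝ) =
      R ^ 2 - ∑ c, u c ^ 2 := by
    intro u
    simp
  rw [e, e] at h1
  have h2 : 0 < R ^ 2 - ∑ c, z c ^ 2 := (pos_iff_pos_of_mul_pos h1).1 (sub_pos.2 hx)
  rw [pi_norm_le_iff_of_nonneg (abs_nonneg R)]
  intro c
  rw [Real.norm_eq_abs]
  apply sq_le_sq.1
  have h3 : z c ^ 2 ≤ ∑ c, z c ^ 2 :=
    Finset.single_le_sum (f := fun c => z c ^ 2) (fun i _ => sq_nonneg (z i)) (Finset.mem_univ c)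
  linarith

theorem Cell.eval_blockSq {κ : Type} [Fintype κ] {d : ℕ} (F : κ → MvPolynomial (Fin d) ℝ)
    (z : κ × Fin d → ℝ) : eval z (blockSq F) = (∏ i, eval (fun c => z (i, c)) (F i)) ^ 2 := by
  unfold blockSq
  rw [map_pow, map_prod]
  congr 1
  apply Finset.prod_congr rfl
  intro i _
  rw [eval_rename]
  rfl

theorem box_facts {κ : Type} [Fintype κ] {d : ℕ} (F : κ → MvPolynomial (Fin d) ℝ)
    (x : κ → Fin d → ℝ) (hb : ∀ i, Bornology.IsBounded (cell (F i) (x i))) :
    IsOpen (boxSet fun i => cell (F i) (x i)) ∧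
    IsPreconnected (boxSet fun i => cell (F i) (x i)) ∧
    Bornology.IsBounded (boxSet fun i => cell (F i) (x i)) ∧
    (∀ z ∈ boxSet (fun i => cell (F i) (x i)), 0 < eval z (blockSq F)) ∧
    (∀ z ∈ frontier (boxSet fun i => cell (F i) (x i)), eval z (blockSq F) = 0) := by
  have hproj : ∀ i : κ, Continuous fun z : κ × Fin d → ℝ => fun c => z (i, c) := by
    intro i
    fun_prop
  have hopen : IsOpen (boxSet fun i => cell (F i) (x i)) := by
    have e : boxSet (fun i => cell (F i) (x i)) =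
        ⋂ i, (fun z : κ × Fin d → ℝ => fun c => z (i, c)) ⁻¹' cell (F i) (x i) := by
      ext z
      simp [boxSet]
    rw [e]
    exact isOpen_iInter_of_finite fun i => isOpen_cell.preimage (hproj i)
  refine ⟨hopen, ?_, ?_, ?_, ?_⟩
  · have e : boxSet (fun i => cell (F i) (x i)) =
        (fun y : κ → Fin d → ℝ => unc y) '' Set.pi Set.univ (fun i => cell (F i) (x i)) := by
      ext z
      constructor
      · intro hz
        exact ⟨fun i c => z (i, c), fun i _ => hz i, rfl⟩
      · rintro ⟨y, hy, rfl⟩ i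
        exact hy i (Set.mem_univ i)
    rw [e]
    apply (isPreconnected_univ_pi fun i => isPreconnected_cell).image
    apply Continuous.continuousOn
    unfold unc
    fun_prop
  · have h1 : ∀ i, ∃ C, ∀ v ∈ cell (F i) (x i), ‖v‖ ≤ C := fun i =>
      isBounded_iff_forall_norm_le.1 (hb i)
    choose C hC using h1
    rw [isBounded_iff_forall_norm_le]
    refine ⟨∑ i, |C i|, fun z hz => ?_⟩
    rw [pi_norm_le_iff_of_nonneg (Finset.sum_nonneg fun i _ => abs_nonneg _)]
    rintro ⟨i, c⟩
    have h2 := hC i _ (hz i)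
    have h3 : ‖z (i, c)‖ ≤ ‖fun c => z (i, c)‖ := norm_le_pi_norm (fun c => z (i, c)) c
    have h4 : |C i| ≤ ∑ i, |C i| :=
      Finset.single_le_sum (f := fun i => |C i|) (fun i _ => abs_nonneg _) (Finset.mem_univ i)
    exact h3.trans (h2.trans ((le_abs_self _).trans h4))
  · intro z hz
    rw [Cell.eval_blockSq]
    have h1 : ∏ i, eval (fun c => z (i, c)) (F i) ≠ 0 :=
      Finset.prod_ne_zero_iff.2 fun i _ => cell_subset (hz i)
    positivity
  · intro z hz
    rw [hopen.frontier_eq] at hz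
    by_contra hne
    rw [Cell.eval_blockSq] at hne
    have h1 : ∏ i, eval (fun c => z (i, c)) (F i) ≠ 0 := fun h => hne (by rw [h]; ring)
    rw [Finset.prod_ne_zero_iff] at h1
    apply hz.2
    intro i
    apply Cell.mem_of_closure _ (h1 i (Finset.mem_univ i))
    have h2 := map_mem_closure (hproj i) hz.1
      (t := cell (F i) (x i)) (fun u hu => hu i)
    exact h2

end cell

end Pool.Agent.SAP
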