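import Pool.Agent.SAP.Defs

/-! Nondegenerate critical points in bounded domains. -/

set_option autoImplicit false

namespace Pool.Agent.SAP

open MvPolynomial Filter Topology MeasureTheory

set_option linter.unusedSectionVars false

namespace CRIT0

section general

variable {E : Type} [NormedAddCommGroup E] [NormedSpace ℝ E] [FiniteDimensional ℝ E]
  [MeasurableSpace E] [BorelSpace E]

/-- Sard's theorem: almost every value is regular -/
theorem ae_regular (μ : Measure E) [μ.IsAddHaarMeasure] (f : E → E) (f' : E → E →L[ℝ] E)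
    (hf : ∀ x, HasStrictFDerivAt f (f' x) x) :
    ∀ᵐ v ∂μ, ∀ x, f x = v → (f' x).det ≠ 0 := by
  have h := addHaar_image_eq_zero_of_det_fderivWithin_eq_zero μ (s := {x | (f' x).det = 0})
    (fun x _ => (hf x).hasFDerivAt.hasFDerivWithinAt) (fun x hx => hx)
  refine measure_mono_null ?_ h
  intro v hv
  simp only [Set.mem_compl_iff, Set.mem_ofPred_eq, not_forall, not_not] at hv
  obtain ⟨x, hx, hx'⟩ := hv
  exact ⟨x, hx', hx⟩

theorem exists_of_ae {μ : Measure E} [μ.IsAddHaarMeasure] {P Q : E → Prop}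
    (hP : ∀ᵐ v ∂μ, P v) (hQ : ∀ᶠ v in 𝓝 0, Q v) : ∃ v, P v ∧ Q v := by
  have h1 : Dense {v | P v} := Measure.dense_of_ae hP
  obtain ⟨v, hv, hv'⟩ := h1.inter_nhds_nonempty hQ
  exact ⟨v, hv, hv'⟩

end general

section grad

variable {σ : Type} [Fintype σ] [DecidableEq σ]

/-- derivative of the gradient -/
noncomputable def hess (H : MvPolynomial σ ℝ) (z : σ → ℝ) : (σ → ℝ) →L[ℝ] (σ → ℝ) :=
  ContinuousLinearMap.pi fun i => dpoly (pderiv i H) z

theorem hess_apply (H : MvPolynomial σ ℝ) (z w : σ → ℝ) (i : σ) :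
    hess H z w i = ∑ j, eval z (pderiv j (pderiv i H)) * w j := by
  simp [hess, dpoly_apply]

theorem hasStrictFDerivAt_grad (H : MvPolynomial σ ℝ) (z : σ → ℝ) :
    HasStrictFDerivAt (fun w i => eval w (pderiv i H)) (hess H z) z := by
  rw [hasStrictFDerivAt_pi']
  intro i
  exact hasStrictFDerivAt_eval (pderiv i H) z

theorem det_hess (H : MvPolynomial σ ℝ) (z : σ → ℝ) (v : σ → ℝ) :
    (Matrix.of fun i j => eval z (pderiv j (pderiv i H - C (v i)))).det = (hess H z).det := by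
  have h : ((hess H z : (σ → ℝ) →L[ℝ] (σ → ℝ)) : (σ → ℝ) →ₗ[ℝ] (σ → ℝ)) =
      Matrix.toLin' (Matrix.of fun i j => eval z (pderiv j (pderiv i H - C (v i)))) := by
    ext w i
    simp [hess_apply, Matrix.mulVec, dotProduct]
  rw [ContinuousLinearMap.det, h, LinearMap.det_toLin']

/-- uniform smallness of linear forms on bounded sets -/
theorem eventually_small {ι : Type} [Finite ι] (S : ι → Set (σ → ℝ))
    (hS : ∀ a, Bornology.IsBounded (S a)) (c : ι → ℝ) (hc : ∀ a, 0 < c a) :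
    ∀ᶠ v : σ → ℝ in 𝓝 0, ∀ a, ∀ x ∈ S a, |∑ i, v i * x i| < c a := by
  rw [eventually_all]
  intro a
  obtain ⟨R, hR⟩ := (hS a).exists_norm_le
  have h1 : Tendsto (fun v : σ → ℝ => (∑ i, |v i|) * (|R| + 1)) (𝓝 0) (𝓝 0) := by
    have : Continuous (fun v : σ → ℝ => (∑ i, |v i|) * (|R| + 1)) := by fun_prop
    have h := this.tendsto 0
    simpa using h
  filter_upwards [h1.eventually (gt_mem_nhds (hc a))] with v hv x hx
  refine lt_of_le_of_lt ?_ hv
  calc |∑ i, v i * x i| ≤ ∑ i, |v i * x i| := Finset.abs_sum_le_sum_abs _ _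
    _ ≤ ∑ i, |v i| * (|R| + 1) := by
        apply Finset.sum_le_sum
        intro i _
        rw [abs_mul]
        apply mul_le_mul_of_nonneg_left _ (abs_nonneg _)
        have h2 : ‖x i‖ ≤ ‖x‖ := norm_le_pi_norm x i
        rw [Real.norm_eq_abs] at h2
        have h3 := hR x hx
        have h4 := le_abs_self R
        linarith
    _ = (∑ i, |v i|) * (|R| + 1) := by rw [Finset.sum_mul]

end grad

end CRIT0

open CRIT0

theorem crit0 {σ ι : Type} [Fintype σ] [DecidableEq σ] [Finite ι] (H : MvPolynomial σ ℝ)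
    (Ω : ι → Set (σ → ℝ)) (hne : ∀ a, (Ω a).Nonempty) (ho : ∀ a, IsOpen (Ω a))
    (hb : ∀ a, Bornology.IsBounded (Ω a)) (hpos : ∀ a, ∀ x ∈ Ω a, 0 < eval x H)
    (hfr : ∀ a, ∀ x ∈ frontier (Ω a), eval x H = 0) :
    ∃ v : σ → ℝ, ∀ a, ∃ z ∈ Ω a, (∀ i, eval z (pderiv i H) = v i) ∧
      (Matrix.of fun i j => eval z (pderiv j (pderiv i H - C (v i)))).det ≠ 0 := by
  choose x₀ hx₀ using hne
  have hsm := eventually_small (fun a => closure (Ω a)) (fun a => (hb a).closure)
    (fun a => eval (x₀ a) H / 2) (fun a => half_pos (hpos a _ (hx₀ a)))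
  have hreg := ae_regular (volume : Measure (σ → ℝ)) _ _ (hasStrictFDerivAt_grad H)
  obtain ⟨v, hv, hv'⟩ := exists_of_ae hreg hsm
  refine ⟨v, fun a => ?_⟩
  have hK : IsCompact (closure (Ω a)) := Metric.isCompact_of_isClosed_isBounded isClosed_closure
    (hb a).closure
  have hcont : Continuous fun x : σ → ℝ => eval x H - ∑ i, v i * x i :=
    (continuous_eval H).sub (by fun_prop)
  obtain ⟨z, hz, hmax⟩ := hK.exists_isMaxOn ⟨_, subset_closure (hx₀ a)⟩ hcont.continuousOn
  have hzΩ : z ∈ Ω a := by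
    by_contra hcon
    have h1 : z ∈ frontier (Ω a) := by
      rw [(ho a).frontier_eq]
      exact ⟨hz, hcon⟩
    have h2 := hmax (subset_closure (hx₀ a))
    simp only [Set.mem_ofPred_eq, hfr a z h1] at h2
    have h3 := abs_lt.1 (hv' a z hz)
    have h4 := abs_lt.1 (hv' a _ (subset_closure (hx₀ a)))
    linarith [h3.1, h4.2]
  refine ⟨z, hzΩ, ?_⟩
  have hgrad : ∀ i, eval z (pderiv i H) = v i := by
    have hloc : IsLocalMax (fun x : σ → ℝ => eval x H - ∑ i, v i * x i) z := by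
      filter_upwards [(ho a).mem_nhds hzΩ] with x hx
      exact hmax (subset_closure hx)
    have hd : HasFDerivAt (fun x : σ → ℝ => eval x H - ∑ i, v i * x i)
        (dpoly H z - ∑ i, v i • (ContinuousLinearMap.proj i : (σ → ℝ) →L[ℝ] ℝ)) z := by
      refine (hasStrictFDerivAt_eval H z).hasFDerivAt.sub ?_
      refine HasFDerivAt.fun_sum fun i _ => ?_
      exact ((ContinuousLinearMap.proj i : (σ → ℝ) →L[ℝ] ℝ).hasFDerivAt).const_mul (v i)
    have h0 := hloc.hasFDerivAt_eq_zero hd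
    intro i
    have h1 := congrArg (fun A : (σ → ℝ) →L[ℝ] ℝ => A (Pi.single i 1)) h0
    simp [dpoly_apply, Pi.single_apply] at h1
    linarith
  refine ⟨hgrad, ?_⟩
  rw [det_hess]
  exact hv z (funext hgrad)

end Pool.Agent.SAP
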