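import Pool.Agent.SAP.Defs

/-!
# Weighted degrees
-/

set_option autoImplicit false

namespace Pool.Agent.SAP

open MvPolynomial

section wdeg

variable {τ : Type} [Fintype τ] {w : τ → ℕ} {n m : ℕ} {p q : MvPolynomial τ ℝ}

theorem WLE.mono (hp : WLE w n p) (h : n ≤ m) : WLE w m p := fun a ha => (hp a ha).trans h

theorem WLE.add (hp : WLE w n p) (hq : WLE w n q) : WLE w n (p + q) := by
  classical
  intro a ha
  rcases Finset.mem_union.mp (support_add ha) with h | h
  · exact hp a h
  · exact hq a h

theorem WLE.neg (hp : WLE w n p) : WLE w n (-p) := by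
  intro a ha
  rw [support_neg] at ha
  exact hp a ha

theorem WLE.sub (hp : WLE w n p) (hq : WLE w n q) : WLE w n (p - q) := by
  rw [sub_eq_add_neg]
  exact hp.add hq.neg

theorem WLE.mul (hp : WLE w n p) (hq : WLE w m q) : WLE w (n + m) (p * q) := by
  classical
  intro a ha
  obtain ⟨b, hb, c, hc, rfl⟩ := Finset.mem_add.mp (support_mul p q ha)
  have h1 := hp b hb
  have h2 := hq c hc
  have h3 : ∑ i, w i * (b + c) i = ∑ i, w i * b i + ∑ i, w i * c i := by
    rw [← Finset.sum_add_distrib]
    refine Finset.sum_congr rfl (fun i _ => ?_)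
    rw [Finsupp.add_apply, mul_add]
  omega

theorem WLE.const (c : ℝ) : WLE w n (C c) := by
  classical
  intro a ha
  rw [mem_support_iff, coeff_C] at ha
  have h1 : (0 : τ →₀ ℕ) = a := by
    by_contra h
    rw [if_neg h] at ha
    exact ha rfl
  rw [← h1]
  simp

theorem WLE.var_pow (i : τ) (e : ℕ) : WLE w (w i * e) (X i ^ e) := by
  classical
  intro a ha
  rw [support_X_pow, Finset.mem_singleton] at ha
  rw [ha]
  rw [Finset.sum_eq_single i]
  · rw [Finsupp.single_eq_same]
  · intro j _ hj
    rw [Finsupp.single_eq_of_ne hj, mul_zero]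
  · intro h
    exact absurd (Finset.mem_univ i) h

theorem WLE.var (i : τ) : WLE w (w i) (X i) := by
  have h := WLE.var_pow (w := w) i 1
  rwa [pow_one, mul_one] at h

theorem WLE.sum {ι : Type} {s : Finset ι} {f : ι → MvPolynomial τ ℝ}
    (hf : ∀ i ∈ s, WLE w n (f i)) : WLE w n (∑ i ∈ s, f i) := by
  classical
  induction s using Finset.induction_on with
  | empty =>
    intro a ha
    simp at ha
  | insert i s his ih =>
    rw [Finset.sum_insert his]
    exact (hf i (Finset.mem_insert_self i s)).add
      (ih fun j hj => hf j (Finset.mem_insert_of_mem hj))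

/-- a derivative does not increase the weighted degree -/
theorem WLE.pderiv (hp : WLE w n p) (i : τ) : WLE w n (MvPolynomial.pderiv i p) := by
  classical
  rw [p.as_sum, map_sum]
  refine WLE.sum fun a ha => ?_
  rw [pderiv_monomial]
  intro b hb
  have h1 : b = a - Finsupp.single i 1 := by
    have h2 := support_monomial_subset hb
    exact Finset.mem_singleton.mp h2
  rw [h1]
  refine le_trans (Finset.sum_le_sum fun j _ => ?_) (hp a ha)
  exact Nat.mul_le_mul_left _ (by rw [Finsupp.tsub_apply]; exact Nat.sub_le _ _)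

theorem WLE.of_totalDegree {D W : ℕ} (hp : p.totalDegree ≤ D) (hw : ∀ i, w i ≤ W) :
    WLE w (D * W) p := by
  intro a ha
  have h1 : ∑ i, a i ≤ D := by
    refine le_trans ?_ hp
    have h2 := le_totalDegree ha
    rwa [Finsupp.sum_fintype _ _ (fun _ => rfl)] at h2
  calc ∑ i, w i * a i ≤ ∑ i, W * a i :=
        Finset.sum_le_sum fun i _ => Nat.mul_le_mul_right _ (hw i)
    _ = (∑ i, a i) * W := by rw [← Finset.mul_sum, mul_comm]
    _ ≤ D * W := Nat.mul_le_mul_right _ h1

theorem WLE.one_iff : WLE (fun _ : τ => 1) n p ↔ p.totalDegree ≤ n := by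
  constructor
  · intro h
    rw [totalDegree, Finset.sup_le_iff]
    intro a ha
    have h1 := h a ha
    rw [Finsupp.sum_fintype _ _ (fun _ => rfl)]
    simpa using h1
  · intro h
    have h1 := WLE.of_totalDegree (w := fun _ : τ => 1) (W := 1) h (fun _ => le_refl _)
    rwa [mul_one] at h1

/-- a polynomial in one block of variables -/
theorem WLE.rename_block {κ : Type} [Fintype κ] {d b : ℕ} {w : κ × Fin d → ℕ} {i : κ}
    {f : MvPolynomial (Fin d) ℝ} (hf : f.totalDegree ≤ b) {u : ℕ} (hw : ∀ c, w (i, c) ≤ u) :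
    WLE w (b * u) (MvPolynomial.rename (fun c => (i, c)) f) := by
  classical
  intro a ha
  obtain ⟨a', ha', rfl⟩ : ∃ a', a' ∈ f.support ∧
      Finsupp.mapDomain (fun c : Fin d => (i, c)) a' = a := by
    have h := support_rename_of_injective (p := f) (f := fun c : Fin d => (i, c))
      (fun x y h => (Prod.mk.inj h).2)
    rw [h] at ha
    obtain ⟨a', h1, h2⟩ := Finset.mem_image.mp ha
    exact ⟨a', h1, h2⟩
  have hinj : Function.Injective (fun c : Fin d => (i, c)) := fun x y h => (Prod.mk.inj h).2
  have h1 : ∑ q, w q * (Finsupp.mapDomain (fun c : Fin d => (i, c)) a') q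
      = ∑ c, w (i, c) * a' c := by
    symm
    rw [← Finset.sum_subset (Finset.subset_univ (Finset.univ.image (fun c : Fin d => (i, c))))]
    · rw [Finset.sum_image (fun x _ y _ h => hinj h)]
      refine Finset.sum_congr rfl (fun c _ => ?_)
      rw [Finsupp.mapDomain_apply hinj]
    · intro q _ hq
      rw [Finsupp.mapDomain_of_notMem_range, mul_zero]
      rintro ⟨c, rfl⟩
      exact hq (Finset.mem_image_of_mem _ (Finset.mem_univ c))
  rw [h1]
  exact WLE.of_totalDegree (w := fun c => w (i, c)) hf hw a' ha'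

end wdeg

end Pool.Agent.SAP
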