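import Pool.Agent.SAP.BEZ
import Pool.Agent.SAP.CRIT0
import Pool.Agent.SAP.WDEG
import Pool.Agent.SAP.CELL

/-!
# The number of cells

A polynomial of degree at most `b` has at most `(2 b) ^ d` bounded cells: in each of them the square
of the polynomial, minus a generic linear form, has a nondegenerate critical point.
-/

set_option autoImplicit false

namespace Pool.Agent.SAP

open MvPolynomial

theorem cells_card {d : ℕ} (F : MvPolynomial (Fin d) ℝ) {b : ℕ} (hF : F.totalDegree ≤ b)
    (hb : 1 ≤ b) {L : Type} [Finite L] (y : L → Fin d → ℝ) (hy : ∀ a, eval (y a) F ≠ 0)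
    (hbd : ∀ a, Bornology.IsBounded (cell F (y a))) :
    (Set.range fun a => cell F (y a)).ncard ≤ (2 * b) ^ d := by
  classical
  set S : Set (Set (Fin d → ℝ)) := Set.range fun a => cell F (y a) with hS
  have hfin : S.Finite := Set.finite_range _
  have : Finite S := hfin.to_subtype
  have : Fintype S := Fintype.ofFinite S
  have hrep : ∀ ω : S, ∃ a, cell F (y a) = ω.1 := fun ω => ω.2
  choose a ha using hrep
  obtain ⟨v, hv⟩ := crit0 (F ^ 2) (fun ω : S => ω.1)
    (fun ω => ⟨y (a ω), by rw [← ha ω]; exact mem_cell (hy _)⟩)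
    (fun ω => by show IsOpen ω.1; rw [← ha ω]; exact isOpen_cell)
    (fun ω => by show Bornology.IsBounded ω.1; rw [← ha ω]; exact hbd _)
    (fun ω x hx => by
      have hx' : x ∈ cell F (y (a ω)) := by rw [ha ω]; exact hx
      have h1 : eval x F ≠ 0 := cell_subset hx'
      rw [map_pow]
      positivity)
    (fun ω x hx => by
      have hx' : x ∈ frontier (cell F (y (a ω))) := by rw [ha ω]; exact hx
      rw [map_pow, frontier_cell hx']
      norm_num)
  choose z hz hz1 hz2 using hv
  have hinj : Function.Injective z := by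
    intro ω ω' h
    have h1 : z ω ∈ cell F (y (a ω)) := by rw [ha ω]; exact hz ω
    have h2 : z ω ∈ cell F (y (a ω')) := by rw [ha ω', h]; exact hz ω'
    have h3 := (cell_eq_of_mem h1).symm.trans (cell_eq_of_mem h2)
    apply Subtype.ext
    rw [← ha ω, ← ha ω', h3]
  have hdeg : WLE (fun _ : Fin d => 1) (2 * b) (F ^ 2) := by
    rw [WLE.one_iff]
    exact (totalDegree_pow F 2).trans (Nat.mul_le_mul_left 2 hF)
  have hbez := bezout (fun _ : Fin d => 1) (fun _ => 2 * b) (fun _ => one_pos)
    (fun _ => by omega) (fun i => pderiv i (F ^ 2) - C (v i))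
    (fun i => by
      rw [one_mul]
      exact (hdeg.pderiv i).sub (WLE.const _))
    (Finset.univ.image z)
    (fun x hx i => by
      obtain ⟨ω, -, rfl⟩ := Finset.mem_image.1 hx
      rw [map_sub, eval_C, hz1 ω i, sub_self])
    (fun x hx => by
      obtain ⟨ω, -, rfl⟩ := Finset.mem_image.1 hx
      exact hz2 ω)
  rw [Finset.card_image_of_injective _ hinj, Finset.prod_const, Finset.card_univ,
    Finset.card_univ, Fintype.card_fin] at hbez
  rwa [← Nat.card_coe_set_eq, Nat.card_eq_fintype_card]

end Pool.Agent.SAP
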