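import Pool.Agent.SAP.CRIT0

/-! Nondegenerate critical points on level sets. -/

set_option autoImplicit false

namespace Pool.Agent.SAP

open MvPolynomial Filter Topology MeasureTheory

set_option linter.unusedSectionVars false

namespace CRIT1

open CRIT0

theorem eq_zero_of_det_ne {E : Type} [NormedAddCommGroup E] [NormedSpace ℝ E]
    [FiniteDimensional ℝ E] {A : E →L[ℝ] E} (h : A.det ≠ 0) {x : E} (hx : A x = 0) : x = 0 := by
  have h1 : IsUnit (LinearMap.det (A : E →ₗ[ℝ] E)) := isUnit_iff_ne_zero.2 h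
  have h2 : IsUnit (A : E →ₗ[ℝ] E) := (LinearMap.isUnit_iff_isUnit_det _).2 h1
  have h3 := (LinearMap.isUnit_iff_ker_eq_bot _).1 h2
  have h4 : x ∈ LinearMap.ker (A : E →ₗ[ℝ] E) := hx
  rw [h3] at h4
  exact h4

section grad

variable {σ : Type} [Fintype σ] [DecidableEq σ]

/-- nondegenerate critical points are countably many -/
theorem countable_crit (G : MvPolynomial σ ℝ)
    (h : ∀ z : σ → ℝ, (∀ i, eval z (pderiv i G) = 0) → (hess G z).det ≠ 0) :
    {z : σ → ℝ | ∀ i, eval z (pderiv i G) = 0}.Countable := by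
  set S := {z : σ → ℝ | ∀ i, eval z (pderiv i G) = 0} with hS
  have hd : DiscreteTopology S := by
    rw [discreteTopology_subtype_iff]
    intro z hz
    have hdet := h z hz
    have hinj : Function.Injective (hess G z) := by
      intro x y hxy
      have : hess G z (x - y) = 0 := by rw [map_sub, hxy, sub_self]
      exact sub_eq_zero.1 (eq_zero_of_det_ne hdet this)
    have hder := (hasStrictFDerivAt_grad G z).hasFDerivAt
    have hev : ∀ᶠ w in 𝓝[≠] z, (fun i => eval w (pderiv i G)) ≠ (0 : σ → ℝ) := by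
      have hanti : ∃ C, AntilipschitzWith C (hess G z) := by
        have := LinearMap.exists_antilipschitzWith (hess G z : (σ → ℝ) →ₗ[ℝ] (σ → ℝ))
          (LinearMap.ker_eq_bot.2 hinj)
        obtain ⟨K, _, hK⟩ := this
        exact ⟨K, hK⟩
      obtain ⟨C, hC⟩ := hanti
      exact hder.eventually_ne ⟨C, hC⟩
    rw [← disjoint_iff, Filter.disjoint_principal_right]
    filter_upwards [hev] with w hw hwS
    exact hw (funext hwS)
  have : Countable S := countable_of_Lindelof_of_discrete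
  exact Set.countable_coe_iff.1 this

/-- the Lagrange map -/
noncomputable def psi (H G : MvPolynomial σ ℝ) (q : ℝ × (σ → ℝ)) : ℝ × (σ → ℝ) :=
  (eval q.2 G, fun i => eval q.2 (pderiv i H) - q.1 * eval q.2 (pderiv i G))

/-- its derivative -/
noncomputable def dpsi (H G : MvPolynomial σ ℝ) (q : ℝ × (σ → ℝ)) :
    (ℝ × (σ → ℝ)) →L[ℝ] (ℝ × (σ → ℝ)) :=
  ((dpoly G q.2).comp (ContinuousLinearMap.snd ℝ ℝ (σ → ℝ))).prod
    (ContinuousLinearMap.pi fun i =>
      (dpoly (pderiv i H) q.2).comp (ContinuousLinearMap.snd ℝ ℝ (σ → ℝ)) -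
        (q.1 • (dpoly (pderiv i G) q.2).comp (ContinuousLinearMap.snd ℝ ℝ (σ → ℝ)) +
          eval q.2 (pderiv i G) • ContinuousLinearMap.fst ℝ ℝ (σ → ℝ)))

theorem hasStrictFDerivAt_psi (H G : MvPolynomial σ ℝ) (q : ℝ × (σ → ℝ)) :
    HasStrictFDerivAt (psi H G) (dpsi H G q) q := by
  have h2 : ∀ p : MvPolynomial σ ℝ, HasStrictFDerivAt (fun q : ℝ × (σ → ℝ) => eval q.2 p)
      ((dpoly p q.2).comp (ContinuousLinearMap.snd ℝ ℝ (σ → ℝ))) q := fun p =>
    HasStrictFDerivAt.comp q (hasStrictFDerivAt_eval p q.2) hasStrictFDerivAt_snd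
  refine HasStrictFDerivAt.prodMk (h2 G) ?_
  rw [hasStrictFDerivAt_pi']
  intro i
  refine (h2 (pderiv i H)).sub ?_
  exact hasStrictFDerivAt_fst.mul (h2 (pderiv i G))

theorem dpsi_eq_zero {H G : MvPolynomial σ ℝ} {mu r : ℝ} {z x : σ → ℝ}
    (h1 : ∀ i, ∑ j, (eval z (pderiv j (pderiv i H)) - mu * eval z (pderiv j (pderiv i G))) * x j =
            r * eval z (pderiv i G)) (h2 : ∑ j, eval z (pderiv j G) * x j = 0) :
    dpsi H G (mu, z) (r, x) = 0 := by
  refine Prod.ext ?_ (funext fun i => ?_)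
  · simpa [dpsi, dpoly_apply] using h2
  · have h3 := h1 i
    simp only [sub_mul, Finset.sum_sub_distrib, mul_assoc, ← Finset.mul_sum] at h3
    simp only [dpsi, ContinuousLinearMap.prod_apply, ContinuousLinearMap.coe_pi',
      ContinuousLinearMap.comp_apply, ContinuousLinearMap.coe_snd', _root_.sub_apply,
      _root_.add_apply, _root_.smul_apply, smul_eq_mul,
      ContinuousLinearMap.coe_fst', dpoly_apply, Prod.snd_zero, Pi.zero_apply]
    linarith

end grad

end CRIT1

open CRIT0 CRIT1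

theorem crit1 {σ ι : Type} [Fintype σ] [DecidableEq σ] [Finite ι] (H g : MvPolynomial σ ℝ)
    (Ω : ι → Set (σ → ℝ)) (ho : ∀ a, IsOpen (Ω a)) (hc : ∀ a, IsPreconnected (Ω a))
    (hb : ∀ a, Bornology.IsBounded (Ω a)) (hpos : ∀ a, ∀ x ∈ Ω a, 0 < eval x H)
    (hfr : ∀ a, ∀ x ∈ frontier (Ω a), eval x H = 0)
    (hg : ∀ a, ∃ x ∈ Ω a, ∃ x' ∈ Ω a, eval x g < 0 ∧ 0 < eval x' g) :
    ∃ (u v : σ → ℝ) (t : ℝ) (G : MvPolynomial σ ℝ), G = g - ∑ i, C (u i) * X i ∧
      ∀ a, ∃ z ∈ Ω a, ∃ mu : ℝ, eval z G = t ∧ (∃ i, eval z (pderiv i G) ≠ 0) ∧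
        (∀ i, eval z (pderiv i H) - v i = mu * eval z (pderiv i G)) ∧
        ∀ (x : σ → ℝ) (r : ℝ),
          (∀ i, ∑ j, (eval z (pderiv j (pderiv i H)) - mu * eval z (pderiv j (pderiv i G))) * x j =
            r * eval z (pderiv i G)) → ∑ j, eval z (pderiv j G) * x j = 0 → x = 0 := by
  choose x₁ hx₁ x₂ hx₂ hneg hpos' using hg
  -- the perturbation `u`
  have hreg := ae_regular (volume : Measure (σ → ℝ)) _ _ (hasStrictFDerivAt_grad g)
  have hs1 := eventually_small (fun a => ({x₁ a} : Set (σ → ℝ)))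
    (fun a => Bornology.isBounded_singleton) (fun a => - eval (x₁ a) g)
    (fun a => by have := hneg a; linarith)
  have hs2 := eventually_small (fun a => ({x₂ a} : Set (σ → ℝ)))
    (fun a => Bornology.isBounded_singleton) (fun a => eval (x₂ a) g) (fun a => hpos' a)
  obtain ⟨u, hu, hu1, hu2⟩ := exists_of_ae hreg (hs1.and hs2)
  set G : MvPolynomial σ ℝ := g - ∑ i, C (u i) * X i with hG
  have hGe : ∀ x, eval x G = eval x g - ∑ i, u i * x i := by
    intro x
    simp [hG]
  have hGd : ∀ i, pderiv i G = pderiv i g - C (u i) := by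
    intro i
    simp [hG, pderiv_X, Pi.single_apply, mul_ite]
  have hGn : ∀ a, eval (x₁ a) G < 0 := by
    intro a
    have := abs_lt.1 (hu1 a _ rfl)
    rw [hGe]
    linarith [this.1]
  have hGp : ∀ a, 0 < eval (x₂ a) G := by
    intro a
    have := abs_lt.1 (hu2 a _ rfl)
    rw [hGe]
    linarith [this.2]
  -- critical values of `G`
  have hcrit : {z : σ → ℝ | ∀ i, eval z (pderiv i G) = 0}.Countable := by
    apply countable_crit
    intro z hz
    have h1 : ∀ i, eval z (pderiv i g) = u i := by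
      intro i
      have := hz i
      rw [hGd] at this
      simp at this
      linarith
    have h2 := hu z (funext h1)
    have h3 : hess G z = hess g z := by
      ext w i
      simp [hess_apply, hGd]
    rw [h3]
    exact h2
  have hval : ∀ᵐ t : ℝ, ∀ z : σ → ℝ, eval z G = t → ∃ i, eval z (pderiv i G) ≠ 0 := by
    have h1 := (hcrit.image (fun z => eval z G)).ae_notMem (volume : Measure ℝ)
    filter_upwards [h1] with t ht z hz
    by_contra hcon
    push Not at hcon
    exact ht ⟨z, hcon, hz⟩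
  -- regular values of the Lagrange map
  have hreg2 := ae_regular ((volume : Measure ℝ).prod (volume : Measure (σ → ℝ))) _ _
    (hasStrictFDerivAt_psi H G)
  have hreg3 := Measure.ae_ae_of_ae_prod hreg2
  have ht0 : ∀ᶠ t : ℝ in 𝓝 0, ∀ a, eval (x₁ a) G < t ∧ t < eval (x₂ a) G := by
    rw [eventually_all]
    intro a
    exact (lt_mem_nhds (hGn a)).and (gt_mem_nhds (hGp a))
  obtain ⟨t, ⟨ht1, ht2⟩, ht3⟩ := exists_of_ae (hval.and hreg3) ht0
  -- points of the level set
  have hx0 : ∀ a, ∃ x ∈ Ω a, eval x G = t := by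
    intro a
    have h1 := (hc a).intermediate_value (hx₁ a) (hx₂ a) (continuous_eval G).continuousOn
    obtain ⟨x, hx, hx'⟩ := h1 ⟨(ht3 a).1.le, (ht3 a).2.le⟩
    exact ⟨x, hx, hx'⟩
  choose x₀ hx₀ hGx₀ using hx0
  have hsm := eventually_small (fun a => closure (Ω a)) (fun a => (hb a).closure)
    (fun a => eval (x₀ a) H / 2) (fun a => half_pos (hpos a _ (hx₀ a)))
  obtain ⟨v, hv, hv'⟩ := exists_of_ae ht2 hsm
  refine ⟨u, v, t, G, hG, fun a => ?_⟩
  have hK : IsCompact (closure (Ω a) ∩ {x | eval x G = t}) := by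
    refine (Metric.isCompact_of_isClosed_isBounded isClosed_closure (hb a).closure).inter_right ?_
    exact isClosed_eq (continuous_eval G) continuous_const
  have hcont : Continuous fun x : σ → ℝ => eval x H - ∑ i, v i * x i :=
    (continuous_eval H).sub (by fun_prop)
  obtain ⟨z, ⟨hz, hzt⟩, hmax⟩ := hK.exists_isMaxOn ⟨_, subset_closure (hx₀ a), hGx₀ a⟩
    hcont.continuousOn
  have hzt' : eval z G = t := hzt
  have hzΩ : z ∈ Ω a := by
    by_contra hcon
    have h1 : z ∈ frontier (Ω a) := by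
      rw [(ho a).frontier_eq]
      exact ⟨hz, hcon⟩
    have h2 := hmax ⟨subset_closure (hx₀ a), hGx₀ a⟩
    simp only [Set.mem_ofPred_eq, hfr a z h1] at h2
    have h3 := abs_lt.1 (hv' a z hz)
    have h4 := abs_lt.1 (hv' a _ (subset_closure (hx₀ a)))
    linarith [h3.1, h4.2]
  have hgne := ht1 z hzt'
  -- Lagrange multipliers
  have hextr : IsLocalExtrOn (fun x : σ → ℝ => eval x H - ∑ i, v i * x i)
      {x | eval x G = eval z G} z := by
    right
    have h1 : Ω a ∈ 𝓝[{x | eval x G = eval z G}] z := mem_nhdsWithin_of_mem_nhds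
      ((ho a).mem_nhds hzΩ)
    filter_upwards [h1, self_mem_nhdsWithin] with x hx hx'
    refine hmax ⟨subset_closure hx, ?_⟩
    exact Eq.trans hx' hzt'
  have hd : HasStrictFDerivAt (fun x : σ → ℝ => eval x H - ∑ i, v i * x i)
      (dpoly H z - ∑ i, v i • (ContinuousLinearMap.proj i : (σ → ℝ) →L[ℝ] ℝ)) z := by
    refine (hasStrictFDerivAt_eval H z).sub ?_
    refine HasStrictFDerivAt.fun_sum fun i _ => ?_
    exact ((ContinuousLinearMap.proj i : (σ → ℝ) →L[ℝ] ℝ).hasStrictFDerivAt).const_mul (v i)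
  obtain ⟨a', b', hab, hab'⟩ := hextr.exists_multipliers_of_hasStrictFDerivAt_1d
    (hasStrictFDerivAt_eval G z) hd
  have hcoef : ∀ i, a' * eval z (pderiv i G) + b' * (eval z (pderiv i H) - v i) = 0 := by
    intro i
    have h1 := congrArg (fun A : (σ → ℝ) →L[ℝ] ℝ => A (Pi.single i 1)) hab'
    simpa [dpoly_apply, Pi.single_apply] using h1
  have hb' : b' ≠ 0 := by
    intro h0
    obtain ⟨i, hi⟩ := hgne
    have h1 := hcoef i
    rw [h0, zero_mul, add_zero] at h1
    have h2 : a' = 0 := (mul_eq_zero.1 h1).resolve_right hi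
    exact hab (by rw [h0, h2]; rfl)
  have hlag : ∀ i, eval z (pderiv i H) - v i = (-(a' / b')) * eval z (pderiv i G) := by
    intro i
    have h1 := hcoef i
    field_simp
    linarith
  refine ⟨z, hzΩ, -(a' / b'), hzt', hgne, hlag, ?_⟩
  intro x r h1 h2
  have h3 : psi H G (-(a' / b'), z) = (t, v) := by
    refine Prod.ext hzt' (funext fun i => ?_)
    have := hlag i
    simp only [psi]
    linarith
  have h4 := eq_zero_of_det_ne (hv _ h3) (dpsi_eq_zero h1 h2)
  exact (Prod.ext_iff.1 h4).2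

end Pool.Agent.SAP
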