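import Pool.Agent.SAP.Defs

/-!
# Elimination of the multiplier

Critical points of `H - v` on `G = t` are zeros of the minors of the Lagrange system, and the
Jacobian matrix of these minors is invertible at a nondegenerate critical point.
-/

set_option autoImplicit false

namespace Pool.Agent.SAP

open MvPolynomial

theorem piv_zero {σ : Type} [Fintype σ] [DecidableEq σ] {H G : MvPolynomial σ ℝ} {v : σ → ℝ}
    {t mu : ℝ} {z : σ → ℝ} (h1 : eval z G = t)
    (h2 : ∀ i, eval z (pderiv i H) - v i = mu * eval z (pderiv i G)) (i₀ : σ) :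
    ∀ i, eval z (minors H G v t i₀ i) = 0 := by
  intro i
  unfold minors
  split_ifs with h
  · simp [h1]
  · simp only [map_sub, map_mul, eval_C, h2]
    ring

theorem piv_jac {σ : Type} [Fintype σ] [DecidableEq σ] {H G : MvPolynomial σ ℝ} {v : σ → ℝ}
    {t mu : ℝ} {z : σ → ℝ} {i₀ : σ} (h0 : eval z (pderiv i₀ G) ≠ 0)
    (h2 : ∀ i, eval z (pderiv i H) - v i = mu * eval z (pderiv i G))
    (h3 : ∀ (x : σ → ℝ) (r : ℝ),
      (∀ i, ∑ j, (eval z (pderiv j (pderiv i H)) - mu * eval z (pderiv j (pderiv i G))) * x j =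
        r * eval z (pderiv i G)) → ∑ j, eval z (pderiv j G) * x j = 0 → x = 0) :
    (Matrix.of fun i j => eval z (pderiv j (minors H G v t i₀ i))).det ≠ 0 := by
  intro hdet
  obtain ⟨x, hx, hJ⟩ := Matrix.exists_mulVec_eq_zero_iff.2 hdet
  apply hx
  have hrow : ∀ i, ∑ j, eval z (pderiv j (minors H G v t i₀ i)) * x j = 0 := by
    intro i
    have := congrFun hJ i
    simpa [Matrix.mulVec, dotProduct] using this
  set w : σ → ℝ := fun i =>
    ∑ j, (eval z (pderiv j (pderiv i H)) - mu * eval z (pderiv j (pderiv i G))) * x j with hw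
  have hw0 : ∀ i, i ≠ i₀ → eval z (pderiv i G) * w i₀ = eval z (pderiv i₀ G) * w i := by
    intro i hi
    have h4 := hrow i
    have e : ∀ j, eval z (pderiv j (minors H G v t i₀ i)) * x j =
        eval z (pderiv i G) * ((eval z (pderiv j (pderiv i₀ H)) -
          mu * eval z (pderiv j (pderiv i₀ G))) * x j) -
        eval z (pderiv i₀ G) * ((eval z (pderiv j (pderiv i H)) -
          mu * eval z (pderiv j (pderiv i G))) * x j) := by
      intro j
      unfold minors
      rw [if_neg hi]
      simp only [map_sub, pderiv_mul, pderiv_C, sub_zero, map_add, map_mul, eval_C]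
      have a1 := h2 i
      have a2 := h2 i₀
      rw [a1, a2]
      ring
    rw [Finset.sum_congr rfl (fun j _ => e j), Finset.sum_sub_distrib, ← Finset.mul_sum,
      ← Finset.mul_sum] at h4
    exact sub_eq_zero.1 h4
  apply h3 x (w i₀ / eval z (pderiv i₀ G))
  · intro i
    by_cases hi : i = i₀
    · subst hi
      rw [div_mul_cancel₀ _ h0]
    · have h5 := hw0 i hi
      change w i = _
      rw [div_mul_eq_mul_div, eq_div_iff h0]
      linarith
  · have h6 := hrow i₀
    have e : ∀ j, eval z (pderiv j (minors H G v t i₀ i₀)) = eval z (pderiv j G) := by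
      intro j
      unfold minors
      rw [if_pos rfl]
      simp
    rw [Finset.sum_congr rfl (fun j _ => by rw [e j])] at h6
    exact h6

end Pool.Agent.SAP
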