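import Pool.Agent.SAP.BEZ
import Pool.Agent.SAP.CRIT1
import Pool.Agent.SAP.PIV
import Pool.Agent.SAP.WDEG
import Pool.Agent.SAP.CELL

/-!
# The number of product cells on which a polynomial changes sign

On each of them the square of the product of the block polynomials, minus a generic linear form, has
a nondegenerate critical point on a generic level set of the polynomial. The Lagrange system, after
elimination of the multiplier, is bounded by the weighted Bezout inequality.
-/

set_option autoImplicit false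

namespace Pool.Agent.SAP

open MvPolynomial

namespace COUNT1

section weights

variable {τ : Type} [Fintype τ] {w : τ → ℕ}

theorem wle_prod {ι : Type} (s : Finset ι) (n : ι → ℕ) (f : ι → MvPolynomial τ ℝ)
    (hf : ∀ i ∈ s, WLE w (n i) (f i)) : WLE w (∑ i ∈ s, n i) (∏ i ∈ s, f i) := by
  classical
  induction s using Finset.induction_on with
  | empty =>
    rw [Finset.sum_empty, Finset.prod_empty]
    have h := WLE.const (w := w) (n := 0) (τ := τ) 1
    rwa [C_1] at h
  | insert a s ha ih =>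
    rw [Finset.sum_insert ha, Finset.prod_insert ha]
    exact (hf a (Finset.mem_insert_self a s)).mul
      (ih fun i hi => hf i (Finset.mem_insert_of_mem hi))

end weights

/-- The weights: the product of the other degrees. -/
noncomputable def wt {κ : Type} [Fintype κ] {d : ℕ} (b : κ → ℕ) : κ × Fin d → ℕ := fun q => by
  classical
  exact ∏ l ∈ Finset.univ.erase q.1, b l

section wt

variable {κ : Type} [Fintype κ] {d : ℕ} (b : κ → ℕ)

theorem mul_wt (q : κ × Fin d) : b q.1 * wt b q = ∏ l, b l := by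
  classical
  unfold wt
  exact Finset.mul_prod_erase _ _ (Finset.mem_univ _)

theorem wt_pos (hb : ∀ i, 0 < b i) (q : κ × Fin d) : 0 < wt b q := by
  classical
  unfold wt
  exact Finset.prod_pos fun i _ => hb i

/-- weighted degree of the square of the product of the blocks -/
theorem wle_blockSq (F : κ → MvPolynomial (Fin d) ℝ) (hF : ∀ i, (F i).totalDegree ≤ b i) :
    WLE (wt b) (2 * (Fintype.card κ * ∏ l, b l)) (blockSq F) := by
  classical
  have h1 : ∀ i ∈ Finset.univ, WLE (wt b) ((fun _ : κ => ∏ l, b l) i)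
      (MvPolynomial.rename (fun c => (i, c)) (F i)) := by
    intro i _
    have h2 : WLE (wt b) (b i * ∏ l ∈ Finset.univ.erase i, b l)
        (MvPolynomial.rename (fun c => (i, c)) (F i)) := by
      apply WLE.rename_block (hF i)
      intro c
      unfold wt
      exact le_of_eq (by congr)
    have h3 : b i * ∏ l ∈ Finset.univ.erase i, b l = ∏ l, b l :=
      Finset.mul_prod_erase _ _ (Finset.mem_univ _)
    rwa [h3] at h2
  have h4 := wle_prod Finset.univ (fun _ : κ => ∏ l, b l)
    (fun i => MvPolynomial.rename (fun c => (i, c)) (F i)) h1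
  rw [Finset.sum_const, smul_eq_mul, Finset.card_univ] at h4
  unfold blockSq
  rw [pow_two, two_mul]
  exact h4.mul h4

end wt

/-- The count of the zeros with a given pivot. -/
theorem pivot_card {κ : Type} [Fintype κ] [DecidableEq κ] {d : ℕ}
    (F : κ → MvPolynomial (Fin d) ℝ) (b : κ → ℕ) (hF : ∀ i, (F i).totalDegree ≤ b i)
    (G : MvPolynomial (κ × Fin d) ℝ) (D : ℕ) (hD : 1 ≤ D) (hdeg : G.totalDegree ≤ D)
    (hDb : ∀ i, D ≤ b i) (v : κ × Fin d → ℝ) (t : ℝ) (i₀ : κ × Fin d)
    (Z : Finset (κ × Fin d → ℝ))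
    (hZ : ∀ z ∈ Z, ∃ mu : ℝ, eval z G = t ∧ eval z (pderiv i₀ G) ≠ 0 ∧
      (∀ i, eval z (pderiv i (blockSq F)) - v i = mu * eval z (pderiv i G)) ∧
        ∀ (x : κ × Fin d → ℝ) (r : ℝ),
          (∀ i, ∑ j, (eval z (pderiv j (pderiv i (blockSq F))) -
            mu * eval z (pderiv j (pderiv i G))) * x j =
            r * eval z (pderiv i G)) → ∑ j, eval z (pderiv j G) * x j = 0 → x = 0) :
    (Z.card : ℝ) ≤ 2 * (3 * Fintype.card κ : ℕ) ^ (Fintype.card κ * d) * D *
      (∏ i, (b i : ℝ) ^ d) * ∑ i, 1 / (b i : ℝ) := by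
  classical
  have hb : ∀ i, 0 < b i := fun i => lt_of_lt_of_le hD (hDb i)
  have : Nonempty κ := ⟨i₀.1⟩
  obtain ⟨m, hm⟩ := Finite.exists_min b
  set k := Fintype.card κ with hk
  have hk1 : 1 ≤ k := Fintype.card_pos
  set E := ∏ l, b l with hE
  set W := ∏ l ∈ Finset.univ.erase m, b l with hW
  have hWE : b m * W = E := Finset.mul_prod_erase _ _ (Finset.mem_univ _)
  have hwW : ∀ q : κ × Fin d, wt b q ≤ W := by
    intro q
    have h1 := mul_wt b q
    rw [← hE, ← hWE] at h1
    have h2 : b q.1 * wt b q ≤ b q.1 * W := by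
      rw [h1]
      exact Nat.mul_le_mul_right _ (hm _)
    exact Nat.le_of_mul_le_mul_left h2 (hb _)
  have hDW : D * W ≤ E := by
    rw [← hWE]
    exact Nat.mul_le_mul_right _ (hDb _)
  -- the exponents
  set e : κ × Fin d → ℕ := fun q => if q = i₀ then (D * b i₀.1) / b m + 1 else 3 * k * b q.1
    with he
  have he0 : ∀ q, 0 < e q := by
    intro q
    simp only [he]
    split_ifs
    · exact Nat.succ_pos _
    · have := hb q.1
      positivity
  have hH := wle_blockSq (d := d) b F hF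
  rw [← hk, ← hE] at hH
  have hG : WLE (wt b) (D * W) G := WLE.of_totalDegree hdeg hwW
  have hWLE : ∀ i, WLE (wt b) (wt b i * e i) (minors (blockSq F) G v t i₀ i) := by
    intro i
    unfold minors
    by_cases hi : i = i₀
    · rw [if_pos hi]
      have h1 : D * W ≤ wt b i * e i := by
        have h2 : D * b i₀.1 ≤ b m * (D * b i₀.1 / b m + 1) := by
          have := Nat.lt_mul_div_succ (D * b i₀.1) (hb m)
          exact this.le
        have h3 : b m * (D * W) ≤ b m * (wt b i * e i) := by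
          have h4 : b m * (D * W) = D * E := by rw [← hWE]; ring
          have h5 : D * E = (D * b i₀.1) * wt b i₀ := by
            rw [hE, ← mul_wt b i₀]; ring
          have h6 : e i = D * b i₀.1 / b m + 1 := by simp only [he]; rw [if_pos hi]
          rw [h4, h5, h6, hi]
          calc D * b i₀.1 * wt b i₀ ≤ b m * (D * b i₀.1 / b m + 1) * wt b i₀ :=
                Nat.mul_le_mul_right _ h2
            _ = b m * (wt b i₀ * (D * b i₀.1 / b m + 1)) := by ring
        exact Nat.le_of_mul_le_mul_left h3 (hb _)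
      exact (hG.sub (WLE.const t)).mono h1
    · rw [if_neg hi]
      have h1 : 2 * (k * E) + D * W ≤ wt b i * e i := by
        have h2 : wt b i * e i = 3 * k * E := by
          simp only [he]
          rw [if_neg hi, hE, ← mul_wt b i]
          ring
        rw [h2]
        have h3 : E ≤ k * E := Nat.le_mul_of_pos_left _ hk1
        calc 2 * (k * E) + D * W ≤ 2 * (k * E) + k * E := by omega
          _ = 3 * k * E := by ring
      have h4 : WLE (wt b) (2 * (k * E) + D * W)
          ((pderiv i₀ (blockSq F) - C (v i₀)) * pderiv i G) :=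
        ((hH.pderiv i₀).sub (WLE.const _)).mul (hG.pderiv i)
      have h5 : WLE (wt b) (2 * (k * E) + D * W)
          ((pderiv i (blockSq F) - C (v i)) * pderiv i₀ G) :=
        ((hH.pderiv i).sub (WLE.const _)).mul (hG.pderiv i₀)
      exact (h4.sub h5).mono h1
  have hbez := bezout (wt b) e (wt_pos b hb) he0 (minors (blockSq F) G v t i₀) hWLE Z
    (fun z hz i => by
      obtain ⟨mu, h1, h2, h3, h4⟩ := hZ z hz
      exact piv_zero h1 h3 i₀ i)
    (fun z hz => by
      obtain ⟨mu, h1, h2, h3, h4⟩ := hZ z hz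
      exact piv_jac h2 h3 h4)
  -- real estimates
  have hbm : (0 : ℝ) < b m := by exact_mod_cast hb m
  have hk1' : (1 : ℝ) ≤ k := by exact_mod_cast hk1
  have hD1 : (1 : ℝ) ≤ D := by exact_mod_cast hD
  have hcast : (Z.card : ℝ) ≤ ∏ i, (e i : ℝ) := by exact_mod_cast hbez
  have hei : ∀ i, (e i : ℝ) ≤ (if i = i₀ then 2 * D / (b m : ℝ) else 1) * (3 * k * b i.1) := by
    intro i
    simp only [he]
    by_cases hi : i = i₀
    · rw [if_pos hi, if_pos hi]
      push_cast
      have h1 : ((D * b i₀.1 / b m : ℕ) : ℝ) ≤ (D * b i₀.1 : ℝ) / b m := by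
        have := Nat.cast_div_le (α := ℝ) (m := D * b i₀.1) (n := b m)
        push_cast at this
        exact this
      have hbi : (b m : ℝ) ≤ b i₀.1 := by exact_mod_cast hm _
      have h2 : (1 : ℝ) ≤ (D * b i₀.1 : ℝ) / b m := by
        rw [le_div_iff₀ hbm, one_mul]
        nlinarith
      have h3 : ((D * b i₀.1 / b m : ℕ) : ℝ) + 1 ≤ 2 * ((D * b i₀.1 : ℝ) / b m) := by linarith
      refine h3.trans ?_
      rw [hi]
      have h4 : 2 * ((D * b i₀.1 : ℝ) / b m) = 2 * D / (b m : ℝ) * b i₀.1 := by ring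
      rw [h4]
      have h5 : (b i₀.1 : ℝ) ≤ 3 * k * b i₀.1 := by
        have : (0 : ℝ) ≤ b i₀.1 := by positivity
        nlinarith
      exact mul_le_mul_of_nonneg_left h5 (by positivity)
    · rw [if_neg hi, if_neg hi]
      push_cast
      rw [one_mul]
  have hprod : ∏ i, (e i : ℝ) ≤ 2 * D / (b m : ℝ) * ((3 * k) ^ (k * d) * ∏ l, (b l : ℝ) ^ d) := by
    refine (Finset.prod_le_prod (fun i _ => by positivity) (fun i _ => hei i)).trans ?_
    rw [Finset.prod_mul_distrib]
    have h1 : ∏ i, (if i = i₀ then 2 * D / (b m : ℝ) else 1) = 2 * D / (b m : ℝ) := by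
      rw [Finset.prod_ite_eq' Finset.univ i₀]
      simp
    have h2 : ∏ i : κ × Fin d, (3 * k * b i.1 : ℝ) = (3 * k) ^ (k * d) * ∏ l, (b l : ℝ) ^ d := by
      rw [Finset.prod_mul_distrib, Finset.prod_const, Finset.card_univ, Fintype.card_prod,
        Fintype.card_fin, ← hk, Fintype.prod_prod_type]
      congr 1
      apply Finset.prod_congr rfl
      intro l _
      show ∏ _y : Fin d, (b l : ℝ) = (b l : ℝ) ^ d
      rw [Finset.prod_const, Finset.card_univ, Fintype.card_fin]
    rw [h1, h2]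
  have hinv : 1 / (b m : ℝ) ≤ ∑ i, 1 / (b i : ℝ) :=
    Finset.single_le_sum (f := fun i => 1 / (b i : ℝ)) (fun i _ => by positivity)
      (Finset.mem_univ m)
  calc (Z.card : ℝ) ≤ ∏ i, (e i : ℝ) := hcast
    _ ≤ 2 * D / (b m : ℝ) * ((3 * k) ^ (k * d) * ∏ l, (b l : ℝ) ^ d) := hprod
    _ = 2 * (3 * k) ^ (k * d) * D * (∏ l, (b l : ℝ) ^ d) * (1 / (b m : ℝ)) := by ring
    _ ≤ 2 * (3 * k) ^ (k * d) * D * (∏ l, (b l : ℝ) ^ d) * ∑ i, 1 / (b i : ℝ) :=
        mul_le_mul_of_nonneg_left hinv (by positivity)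
    _ = _ := by push_cast; ring

end COUNT1

open COUNT1 in
theorem cross_card {κ : Type} [Fintype κ] [Nonempty κ] {d : ℕ} (hd : 1 ≤ d)
    (F : κ → MvPolynomial (Fin d) ℝ) (b : κ → ℕ) (hF : ∀ i, (F i).totalDegree ≤ b i)
    (L : κ → Type) [∀ i, Finite (L i)] (y : ∀ i, L i → Fin d → ℝ)
    (hy : ∀ i a, eval (y i a) (F i) ≠ 0)
    (hbd : ∀ i a, Bornology.IsBounded (cell (F i) (y i a)))
    (h : MvPolynomial (κ × Fin d) ℝ) (D : ℕ) (hD : 1 ≤ D) (hdeg : h.totalDegree ≤ D)
    (hDb : ∀ i, D ≤ b i) :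
    ({ω : κ → Set (Fin d → ℝ) | (∀ i, ω i ∈ Set.range fun a => cell (F i) (y i a)) ∧
        ∃ x x' : κ → Fin d → ℝ, (∀ i, x i ∈ ω i) ∧ (∀ i, x' i ∈ ω i) ∧
          eval (unc x) h < 0 ∧ 0 < eval (unc x') h}.ncard : ℝ) ≤
      2 * (Fintype.card κ * d : ℕ) * (3 * Fintype.card κ : ℕ) ^ (Fintype.card κ * d) * D *
        (∏ i, (b i : ℝ) ^ d) * ∑ i, 1 / (b i : ℝ) := by
  classical
  set S : Set (κ → Set (Fin d → ℝ)) :=
    {ω : κ → Set (Fin d → ℝ) | (∀ i, ω i ∈ Set.range fun a => cell (F i) (y i a)) ∧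
        ∃ x x' : κ → Fin d → ℝ, (∀ i, x i ∈ ω i) ∧ (∀ i, x' i ∈ ω i) ∧
          eval (unc x) h < 0 ∧ 0 < eval (unc x') h} with hS
  have hfin : S.Finite := by
    have h1 : (Set.univ.pi fun i => Set.range fun a => cell (F i) (y i a)).Finite :=
      Set.Finite.pi (fun i => Set.finite_range _)
    refine h1.subset ?_
    intro ω hω i _
    exact hω.1 i
  have : Finite S := hfin.to_subtype
  have : Fintype S := Fintype.ofFinite S
  have hrep : ∀ ω : S, ∀ i, ∃ a, cell (F i) (y i a) = ω.1 i := fun ω => ω.2.1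
  choose a ha using hrep
  have hbox : ∀ ω : S, (boxSet fun i => cell (F i) (y i (a ω i))) = boxSet ω.1 := by
    intro ω
    congr 1
    funext i
    exact ha ω i
  have hfacts := fun ω : S => box_facts F (fun i => y i (a ω i)) (fun i => hbd i _)
  simp only [hbox] at hfacts
  obtain ⟨u, v, t, G, hG, hcrit⟩ := crit1 (blockSq F) h (fun ω : S => boxSet ω.1)
    (fun ω => (hfacts ω).1) (fun ω => (hfacts ω).2.1) (fun ω => (hfacts ω).2.2.1)
    (fun ω => (hfacts ω).2.2.2.1) (fun ω => (hfacts ω).2.2.2.2)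
    (fun ω => by
      obtain ⟨x, x', h1, h2, h3, h4⟩ := ω.2.2
      exact ⟨unc x, h1, unc x', h2, h3, h4⟩)
  choose z hz mu hz1 hz2 hz3 hz4 using hcrit
  choose p hp using hz2
  have hinj : Function.Injective z := by
    intro ω ω' he
    apply Subtype.ext
    funext i
    have h1 : (fun c => z ω (i, c)) ∈ cell (F i) (y i (a ω i)) := by
      rw [ha ω]; exact hz ω i
    have h2 : (fun c => z ω (i, c)) ∈ cell (F i) (y i (a ω' i)) := by
      rw [ha ω', he]; exact hz ω' i
    rw [← ha ω i, ← ha ω' i, ← cell_eq_of_mem h1, ← cell_eq_of_mem h2]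
  have hGdeg : G.totalDegree ≤ D := by
    rw [hG]
    refine (totalDegree_sub _ _).trans (max_le hdeg ?_)
    refine totalDegree_finsetSum_le (fun i _ => ?_)
    refine (totalDegree_mul _ _).trans ?_
    rw [totalDegree_C, totalDegree_X, zero_add]
    exact hD
  have hpiv : ∀ i₀ : κ × Fin d, (((Finset.univ.filter fun ω : S => p ω = i₀).image z).card : ℝ) ≤
      2 * (3 * Fintype.card κ : ℕ) ^ (Fintype.card κ * d) * D *
      (∏ i, (b i : ℝ) ^ d) * ∑ i, 1 / (b i : ℝ) := by
    intro i₀
    apply pivot_card F b hF G D hD hGdeg hDb v t i₀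
    intro x hx
    obtain ⟨ω, hω, rfl⟩ := Finset.mem_image.1 hx
    rw [Finset.mem_filter] at hω
    refine ⟨mu ω, hz1 ω, ?_, hz3 ω, hz4 ω⟩
    rw [← hω.2]
    exact hp ω
  have hcard : S.ncard = ∑ i₀ : κ × Fin d, (Finset.univ.filter fun ω : S => p ω = i₀).card := by
    rw [← Nat.card_coe_set_eq, Nat.card_eq_fintype_card, ← Finset.card_univ]
    exact Finset.card_eq_sum_card_fiberwise (fun x _ => Finset.mem_coe.2 (Finset.mem_univ _))
  rw [hcard]
  push_cast
  calc ∑ i₀ : κ × Fin d, ((Finset.univ.filter fun ω : S => p ω = i₀).card : ℝ)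
      ≤ ∑ i₀ : κ × Fin d, (2 * (3 * Fintype.card κ : ℕ) ^ (Fintype.card κ * d) * D *
      (∏ i, (b i : ℝ) ^ d) * ∑ i, 1 / (b i : ℝ)) := by
        apply Finset.sum_le_sum
        intro i₀ _
        have h1 := hpiv i₀
        rwa [Finset.card_image_of_injective _ hinj] at h1
    _ = _ := by
        rw [Finset.sum_const, Finset.card_univ, Fintype.card_prod, Fintype.card_fin, nsmul_eq_mul]
        push_cast
        ring

end Pool.Agent.SAP
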