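import Pool.Agent.SAP.Defs

set_option autoImplicit false

namespace Pool.Agent.SAP

namespace CUT

/-- adding one part -/
theorem combine {L B : Type} [DecidableEq L] [DecidableEq B] (cls : L → B) (s : ℕ)
    (A Z Y : Finset L) (hZ : Z ⊆ A) (β : B) (hcls : ∀ a ∈ Z, cls a = β) (n₁ n₀ : ℕ) (part : L → ℕ)
    (hY : Y ⊆ A \ Z) (h1 : ∀ a ∈ Y, part a < n₁ + n₀)
    (h2 : ∀ t, t < n₁ + n₀ → (Y.filter fun a => part a = t).card = if t < n₁ then s + 1 else s)
    (h3 : ∀ a ∈ Y, ∀ b ∈ Y, part a = part b → cls a = cls b)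
    (h4 : ∀ β : B, (((A \ Z) \ Y).filter fun a => cls a = β).card ≤ s)
    (m₁ m₀ b₁ b₀ : ℕ) (hm : m₁ + m₀ = n₁ + n₀ + 1) (hz : Z.card = if 0 < m₁ then s + 1 else s)
    (ht : ∀ t, t < n₁ + n₀ → (t + 1 < m₁ ↔ t < n₁)) (hb₁ : m₁ ≤ b₁) (hb₀ : m₀ ≤ b₀) :
    ∃ (Y : Finset L) (n₁ n₀ : ℕ) (part : L → ℕ), Y ⊆ A ∧ n₁ ≤ b₁ ∧ n₀ ≤ b₀ ∧
      (∀ a ∈ Y, part a < n₁ + n₀) ∧
      (∀ t, t < n₁ + n₀ → (Y.filter fun a => part a = t).card = if t < n₁ then s + 1 else s) ∧
      (∀ a ∈ Y, ∀ b ∈ Y, part a = part b → cls a = cls b) ∧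
      (∀ β : B, ((A \ Y).filter fun a => cls a = β).card ≤ s) := by
  have hdis : ∀ a ∈ Y, a ∉ Z := fun a ha => (Finset.mem_sdiff.mp (hY ha)).2
  refine ⟨Z ∪ Y, m₁, m₀, fun a => if a ∈ Z then 0 else part a + 1, ?_, hb₁, hb₀, ?_, ?_, ?_, ?_⟩
  · exact Finset.union_subset hZ (hY.trans Finset.sdiff_subset)
  · intro a ha
    dsimp only
    split_ifs with h
    · omega
    · have h5 : a ∈ Y := (Finset.mem_union.mp ha).resolve_left h
      have := h1 a h5
      omega
  · intro t htt
    rcases Nat.eq_zero_or_pos t with h0 | h0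
    · subst h0
      have h5 : ((Z ∪ Y).filter fun a => (if a ∈ Z then 0 else part a + 1) = 0) = Z := by
        ext a
        simp only [Finset.mem_filter, Finset.mem_union]
        constructor
        · rintro ⟨_, h⟩
          by_contra h6
          rw [if_neg h6] at h
          omega
        · intro h
          exact ⟨Or.inl h, by rw [if_pos h]⟩
      rw [h5, hz]
    · obtain ⟨r, rfl⟩ : ∃ r, t = r + 1 := ⟨t - 1, by omega⟩
      have h5 : ((Z ∪ Y).filter fun a => (if a ∈ Z then 0 else part a + 1) = r + 1)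
          = Y.filter fun a => part a = r := by
        ext a
        simp only [Finset.mem_filter, Finset.mem_union]
        constructor
        · rintro ⟨h6, h7⟩
          by_cases h8 : a ∈ Z
          · rw [if_pos h8] at h7
            omega
          · rw [if_neg h8] at h7
            exact ⟨h6.resolve_left h8, by omega⟩
        · rintro ⟨h6, h7⟩
          refine ⟨Or.inr h6, ?_⟩
          rw [if_neg (hdis a h6), h7]
      rw [h5, h2 r (by omega)]
      have h6 := ht r (by omega)
      by_cases h7 : r < n₁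
      · rw [if_pos h7, if_pos (h6.mpr h7)]
      · rw [if_neg h7, if_neg (fun h => h7 (h6.mp h))]
  · intro a ha b hb hab
    dsimp only at hab
    by_cases haZ : a ∈ Z
    · by_cases hbZ : b ∈ Z
      · rw [hcls a haZ, hcls b hbZ]
      · rw [if_pos haZ, if_neg hbZ] at hab
        omega
    · by_cases hbZ : b ∈ Z
      · rw [if_pos hbZ, if_neg haZ] at hab
        omega
      · rw [if_neg haZ, if_neg hbZ] at hab
        exact h3 a ((Finset.mem_union.mp ha).resolve_left haZ) b
          ((Finset.mem_union.mp hb).resolve_left hbZ) (by omega)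
  · intro γ
    have h5 : A \ (Z ∪ Y) = (A \ Z) \ Y := by
      ext a
      simp only [Finset.mem_sdiff, Finset.mem_union]
      tauto
    rw [h5]
    exact h4 γ

end CUT

/-- `cls` is the map to the cells; the labels of `A` (subset of `X`) are in usable cells. -/
theorem exists_cut {L B : Type} [DecidableEq L] [DecidableEq B] (cls : L → B) (s : ℕ)
    (hs : 1 ≤ s) (X A : Finset L) (hA : A ⊆ X) (b₁ b₀ : ℕ) (hX : X.card = b₁ * (s + 1) + b₀ * s) :
    ∃ (Y : Finset L) (n₁ n₀ : ℕ) (part : L → ℕ), Y ⊆ A ∧ n₁ ≤ b₁ ∧ n₀ ≤ b₀ ∧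
      (∀ a ∈ Y, part a < n₁ + n₀) ∧
      (∀ t, t < n₁ + n₀ → (Y.filter fun a => part a = t).card = if t < n₁ then s + 1 else s) ∧
      (∀ a ∈ Y, ∀ b ∈ Y, part a = part b → cls a = cls b) ∧
      (∀ β : B, ((A \ Y).filter fun a => cls a = β).card ≤ s) := by
  induction hn : X.card using Nat.strong_induction_on generalizing X A b₁ b₀ with
  | _ n ih =>
  by_cases h : ∀ β : B, (A.filter fun a => cls a = β).card ≤ s
  · exact ⟨∅, 0, 0, fun _ => 0, by simp, by simp, by simp, by simp, by simp, by simp,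
      by simpa using h⟩
  · push Not at h
    obtain ⟨β, hβ⟩ := h
    have hle : (A.filter fun a => cls a = β).card ≤ X.card :=
      Finset.card_le_card ((Finset.filter_subset _ _).trans hA)
    rcases Nat.eq_zero_or_pos b₁ with hb | hb
    · -- only small parts
      subst hb
      have hb0 : 0 < b₀ := by
        rcases Nat.eq_zero_or_pos b₀ with h0 | h0
        · subst h0
          rw [Nat.zero_mul, Nat.zero_mul] at hX
          omega
        · exact h0
      obtain ⟨c, rfl⟩ : ∃ c, b₀ = c + 1 := ⟨b₀ - 1, by omega⟩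
      obtain ⟨Z, hZ1, hZ2⟩ := Finset.exists_subset_card_eq (s := A.filter fun a => cls a = β)
        (n := s) (by omega)
      have hZA : Z ⊆ A := hZ1.trans (Finset.filter_subset _ _)
      have hc : (X \ Z).card = 0 * (s + 1) + c * s := by
        rw [Finset.card_sdiff_of_subset (hZA.trans hA), hX, hZ2]
        have : (c + 1) * s = c * s + s := by ring
        omega
      have hlt : (X \ Z).card < n := by
        rw [← hn, Finset.card_sdiff_of_subset (hZA.trans hA), hZ2]
        omega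
      obtain ⟨Y, n₁, n₀, part, hY, hn1, hn0, h1, h2, h3, h4⟩ := ih _ hlt (X \ Z) (A \ Z)
        (Finset.sdiff_subset_sdiff hA (le_refl _)) 0 c hc rfl
      have hn1' : n₁ = 0 := by omega
      subst hn1'
      exact CUT.combine cls s A Z Y hZA β (fun a ha => (Finset.mem_filter.mp (hZ1 ha)).2) 0 n₀ part
        hY h1 h2 h3 h4 0 (n₀ + 1) 0 (c + 1) (by omega) (by simpa using hZ2)
        (fun t _ => by simp) (le_refl _) (by omega)
    · obtain ⟨c, rfl⟩ : ∃ c, b₁ = c + 1 := ⟨b₁ - 1, by omega⟩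
      obtain ⟨Z, hZ1, hZ2⟩ := Finset.exists_subset_card_eq (s := A.filter fun a => cls a = β)
        (n := s + 1) (by omega)
      have hZA : Z ⊆ A := hZ1.trans (Finset.filter_subset _ _)
      have hc : (X \ Z).card = c * (s + 1) + b₀ * s := by
        rw [Finset.card_sdiff_of_subset (hZA.trans hA), hX, hZ2]
        have : (c + 1) * (s + 1) = c * (s + 1) + (s + 1) := by ring
        omega
      have hlt : (X \ Z).card < n := by
        rw [← hn, Finset.card_sdiff_of_subset (hZA.trans hA), hZ2]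
        omega
      obtain ⟨Y, n₁, n₀, part, hY, hn1, hn0, h1, h2, h3, h4⟩ := ih _ hlt (X \ Z) (A \ Z)
        (Finset.sdiff_subset_sdiff hA (le_refl _)) c b₀ hc rfl
      exact CUT.combine cls s A Z Y hZA β (fun a ha => (Finset.mem_filter.mp (hZ1 ha)).2) n₁ n₀ part
        hY h1 h2 h3 h4 (n₁ + 1) n₀ (c + 1) b₀ (by omega) (by simpa using hZ2)
        (fun t _ => by omega) (by omega) hn0

end Pool.Agent.SAP
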