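import Pool.Agent.SAP.Defs

/-!
# Radial isotropic position

Vectors `v a` any `card ι` of which are linearly independent can be brought by a linear map in a
position in which the normalised Gram matrix has constant row sums of squares (Barthe, Forster).
The map is found by minimising `det (∑ t a v a (v a)ᵀ) ^ n / (∏ t a) ^ M` over the weights `t`.
-/

set_option autoImplicit false

namespace Pool.Agent.SAP

open Matrix

namespace FOR

section basic

variable {ι L : Type} [Fintype ι]

/-- the weighted sum of the rank one matrices of the vectors in `A` -/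
noncomputable def part (v : L → ι → ℝ) (t : L → ℝ) (A : Finset L) : Matrix ι ι ℝ :=
  ∑ a ∈ A, t a • vecMulVec (v a) (v a)

theorem posSemidef_one (x : ι → ℝ) {c : ℝ} (hc : 0 ≤ c) :
    (c • vecMulVec x x).PosSemidef := by
  have h := posSemidef_vecMulVec_self_star x
  rw [star_trivial] at h
  exact h.smul hc

variable [DecidableEq ι]

theorem det_rank_one {S : Matrix ι ι ℝ} (hS : IsUnit S.det) (c : ℝ) (x : ι → ℝ) :
    (S + c • vecMulVec x x).det = S.det * (1 + c * (x ⬝ᵥ S⁻¹ *ᵥ x)) := by
  have h := det_add_replicateCol_mul_replicateRow (ι := Unit) hS (c • x) x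
  have e : replicateCol Unit (c • x) * replicateRow Unit x = c • vecMulVec x x := by
    ext i j
    simp [Matrix.mul_apply, vecMulVec_apply, mul_assoc]
  rw [e] at h
  rw [h]
  congr 1
  rw [det_unique, Matrix.add_apply, Matrix.one_apply_eq]
  congr 1
  rw [Matrix.mul_assoc, ← replicateCol_mulVec, replicateRow_mul_replicateCol_apply, mulVec_smul,
    dotProduct_smul, smul_eq_mul]

omit [DecidableEq ι] in
theorem posDef_rank_one {S : Matrix ι ι ℝ} (hS : S.PosDef) {c : ℝ} (hc : 0 ≤ c) (x : ι → ℝ) :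
    (S + c • vecMulVec x x).PosDef := hS.add_posSemidef (posSemidef_one x hc)

theorem det_rank_one_le {S : Matrix ι ι ℝ} (hS : S.PosDef) {c : ℝ} (hc : 0 ≤ c) (x : ι → ℝ) :
    S.det ≤ (S + c • vecMulVec x x).det := by
  rw [det_rank_one hS.det_pos.ne'.isUnit]
  have h1 : 0 ≤ x ⬝ᵥ S⁻¹ *ᵥ x := by
    have := hS.inv.posSemidef.dotProduct_mulVec_nonneg x
    rwa [star_trivial] at this
  have h2 := hS.det_pos
  have h3 : 0 ≤ S.det * (c * (x ⬝ᵥ S⁻¹ *ᵥ x)) := by positivity
  linarith

theorem det_part_le (v : L → ι → ℝ) (t : L → ℝ) (ht : ∀ a, 0 < t a) {S : Matrix ι ι ℝ}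
    (hS : S.PosDef) (A : Finset L) : (S + part v t A).PosDef ∧ S.det ≤ (S + part v t A).det := by
  classical
  induction A using Finset.induction_on with
  | empty => simp [part, hS]
  | insert a A ha ih =>
    have e : S + part v t (insert a A) = (S + part v t A) + t a • vecMulVec (v a) (v a) := by
      rw [part, Finset.sum_insert ha, part]; abel
    rw [e]
    exact ⟨posDef_rank_one ih.1 (ht a).le _, ih.2.trans (det_rank_one_le ih.1 (ht a).le _)⟩

theorem part_inj [DecidableEq L] (v : L → ι → ℝ) (t : L → ℝ) {φ : ι → L}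
    (hφ : Function.Injective φ) :
    part v t (Finset.univ.image φ) = (Matrix.of fun i j => v (φ i) j)ᵀ *
      diagonal (fun i => t (φ i)) * (Matrix.of fun i j => v (φ i) j) := by
  rw [part, Finset.sum_image (fun a _ b _ h => hφ h)]
  ext j k
  rw [Matrix.sum_apply, Matrix.mul_assoc, Matrix.mul_apply]
  refine Finset.sum_congr rfl fun i _ => ?_
  rw [Matrix.diagonal_mul]
  simp only [Matrix.smul_apply, vecMulVec_apply, transpose_apply, of_apply, smul_eq_mul]
  ring

theorem det_inj [DecidableEq L] (v : L → ι → ℝ) (t : L → ℝ) {φ : ι → L}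
    (hφ : Function.Injective φ) :
    (part v t (Finset.univ.image φ)).det =
      (Matrix.of fun i j => v (φ i) j).det ^ 2 * ∏ i, t (φ i) := by
  rw [part_inj v t hφ, det_mul, det_mul, det_transpose, det_diagonal]
  ring

omit [DecidableEq ι] in
theorem posSemidef_part (v : L → ι → ℝ) (t : L → ℝ) (ht : ∀ a, 0 < t a) (A : Finset L) :
    (part v t A).PosSemidef := by
  classical
  induction A using Finset.induction_on with
  | empty => simpa [part] using PosSemidef.zero
  | insert a A ha ih =>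
    rw [part, Finset.sum_insert ha]
    exact (posSemidef_one _ (ht a).le).add ih

theorem posDef_inj [DecidableEq L] (v : L → ι → ℝ) (t : L → ℝ) (ht : ∀ a, 0 < t a) {φ : ι → L}
    (hφ : Function.Injective φ) (hd : (Matrix.of fun i j => v (φ i) j).det ≠ 0) :
    (part v t (Finset.univ.image φ)).PosDef := by
  rw [(posSemidef_part v t ht _).posDef_iff_det_ne_zero, det_inj v t hφ]
  have : 0 < ∏ i, t (φ i) := Finset.prod_pos fun i _ => ht _
  positivity

end basic

section tot

variable {ι L : Type} [Fintype ι] [DecidableEq ι] [Fintype L]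

/-- the full weighted sum -/
noncomputable def tot (v : L → ι → ℝ) (t : L → ℝ) : Matrix ι ι ℝ := part v t Finset.univ

theorem tot_posDef (v : L → ι → ℝ) (t : L → ℝ) (ht : ∀ a, 0 < t a) {φ : ι → L}
    (hφ : Function.Injective φ) (hd : (Matrix.of fun i j => v (φ i) j).det ≠ 0) :
    (tot v t).PosDef ∧
      (Matrix.of fun i j => v (φ i) j).det ^ 2 * ∏ i, t (φ i) ≤ (tot v t).det := by
  classical
  have e : tot v t = part v t (Finset.univ.image φ) + part v t (Finset.univ.image φ)ᶜ := by
    rw [tot, part, part, part, Finset.sum_add_sum_compl]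
  rw [e, ← det_inj v t hφ]
  exact det_part_le v t ht (posDef_inj v t ht hφ hd) _

/-- the function to be minimised -/
noncomputable def fn (v : L → ι → ℝ) (t : L → ℝ) : ℝ :=
  (tot v t).det ^ Fintype.card L / (∏ a, t a) ^ Fintype.card ι

theorem fn_smul (v : L → ι → ℝ) (t : L → ℝ) {c : ℝ} (hc : 0 < c) :
    fn v (fun a => c * t a) = fn v t := by
  have e : tot v (fun a => c * t a) = c • tot v t := by
    rw [tot, tot, part, part, Finset.smul_sum]
    refine Finset.sum_congr rfl fun a _ => ?_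
    rw [smul_smul]
  rw [fn, fn, e, det_smul, Finset.prod_mul_distrib, Finset.prod_const, Finset.card_univ, mul_pow,
    mul_pow, ← pow_mul, ← pow_mul, mul_comm (Fintype.card L) (Fintype.card ι)]
  rw [mul_div_mul_left]
  positivity

theorem continuous_det_tot (v : L → ι → ℝ) : Continuous fun t : L → ℝ => (tot v t).det := by
  refine Continuous.matrix_det ?_
  unfold tot part
  refine continuous_finsetSum _ fun a _ => ?_
  exact (continuous_apply a).smul continuous_const

theorem exists_top (t : L → ℝ) (hc : Fintype.card ι ≤ Fintype.card L) :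
    ∃ φ : ι → L, Function.Injective φ ∧ ∀ i, ∀ a, a ∉ Set.range φ → t a ≤ t (φ i) := by
  classical
  have : Nonempty (ι ↪ L) := Function.Embedding.nonempty_of_card_le hc
  obtain ⟨φ, hφ⟩ := Finite.exists_max (fun φ : ι ↪ L => ∑ i, t (φ i))
  refine ⟨φ, φ.injective, fun i a ha => ?_⟩
  by_contra hlt
  push Not at hlt
  have hinj : Function.Injective (Function.update (φ : ι → L) i a) := by
    intro x y hxy
    by_cases hx : x = i
    · by_cases hy : y = i
      · rw [hx, hy]
      · rw [hx, Function.update_self, Function.update_of_ne hy] at hxy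
        exact absurd ⟨y, hxy.symm⟩ ha
    · by_cases hy : y = i
      · rw [hy, Function.update_self, Function.update_of_ne hx] at hxy
        exact absurd ⟨x, hxy⟩ ha
      · rw [Function.update_of_ne hx, Function.update_of_ne hy] at hxy
        exact φ.injective hxy
  have h := hφ ⟨_, hinj⟩
  have h2 : ∑ i, t (φ i) < ∑ j, t ((⟨_, hinj⟩ : ι ↪ L) j) := by
    apply Finset.sum_lt_sum
    · intro j _
      show t (φ j) ≤ t (Function.update (φ : ι → L) i a j)
      by_cases hj : j = i
      · rw [hj, Function.update_self]; exact hlt.le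
      · rw [Function.update_of_ne hj]
    · refine ⟨i, Finset.mem_univ _, ?_⟩
      show t (φ i) < t (Function.update (φ : ι → L) i a i)
      rw [Function.update_self]; exact hlt
  exact absurd h (not_le.mpr h2)

theorem arith {δ P Q : ℝ} (hδ : 0 < δ) (hP : 1 ≤ P) (hQ : 0 < Q) (hQ1 : Q ≤ 1) {M n : ℕ}
    (hM : 1 ≤ M) (hn : M < n) : δ ^ n * P ≤ (δ * P) ^ n / (P * Q) ^ M ∧
      δ ^ n / Q ≤ (δ * P) ^ n / (P * Q) ^ M := by
  obtain ⟨k, rfl⟩ : ∃ k, n = M + (k + 1) := ⟨n - M - 1, by omega⟩
  obtain ⟨m, rfl⟩ : ∃ m, M = m + 1 := ⟨M - 1, by omega⟩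
  have hP0 : 0 < P := by linarith
  have e : (δ * P) ^ (m + 1 + (k + 1)) / (P * Q) ^ (m + 1) =
      δ ^ (m + 1 + (k + 1)) * (P ^ (k + 1) / Q ^ (m + 1)) := by
    rw [mul_pow, mul_pow, pow_add P (m + 1) (k + 1)]
    field_simp
  have h1 : 1 ≤ P ^ k := one_le_pow₀ hP
  have h2 : Q ^ m ≤ 1 := pow_le_one₀ hQ.le hQ1
  have h3 : Q ^ (m + 1) ≤ 1 := pow_le_one₀ hQ.le hQ1
  have h4 : 0 < Q ^ m := by positivity
  have h5 : P ≤ P ^ (k + 1) := by
    rw [pow_succ]; nlinarith
  rw [e]
  constructor
  · apply mul_le_mul_of_nonneg_left _ (by positivity)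
    rw [le_div_iff₀ (by positivity)]
    nlinarith
  · rw [div_eq_mul_one_div]
    apply mul_le_mul_of_nonneg_left _ (by positivity)
    rw [div_le_div_iff₀ hQ (by positivity), pow_succ Q m]
    nlinarith

/-- `fn` is large outside of a compact set of weights, up to scaling -/
theorem coercive [Nonempty ι] (v : L → ι → ℝ)
    (hv : ∀ φ : ι → L, Function.Injective φ → (Matrix.of fun i j => v (φ i) j).det ≠ 0)
    (hc : Fintype.card ι < Fintype.card L) (B : ℝ) :
    ∃ R : ℝ, 1 ≤ R ∧ ∀ t : L → ℝ, (∀ a, 0 < t a) → fn v t ≤ B →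
      ∃ c : ℝ, 0 < c ∧ ∀ a, c * t a ∈ Set.Icc (1 / R) R := by
  classical
  have : Nonempty (ι ↪ L) := Function.Embedding.nonempty_of_card_le hc.le
  obtain ⟨φ₀, hφ₀⟩ := Finite.exists_min
    (fun φ : ι ↪ L => (Matrix.of fun i j => v (φ i) j).det ^ 2)
  set δ : ℝ := (Matrix.of fun i j => v (φ₀ i) j).det ^ 2 with hδdef
  have hδ : 0 < δ := by
    have := hv φ₀ φ₀.injective
    positivity
  refine ⟨max 1 (B / δ ^ Fintype.card L), le_max_left _ _, fun t ht hB => ?_⟩
  set R : ℝ := max 1 (B / δ ^ Fintype.card L) with hR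
  obtain ⟨φ, hφ, htop⟩ := exists_top t hc.le
  obtain ⟨i₀, hi₀⟩ := Finite.exists_min (fun i => t (φ i))
  set c : ℝ := 1 / t (φ i₀) with hcdef
  have hc0 : 0 < c := by have := ht (φ i₀); positivity
  refine ⟨c, hc0, ?_⟩
  set t' : L → ℝ := fun a => c * t a with ht'
  have ht'0 : ∀ a, 0 < t' a := fun a => mul_pos hc0 (ht a)
  have hone : ∀ i, 1 ≤ t' (φ i) := by
    intro i
    have h1 : c * t (φ i₀) = 1 := by rw [hcdef]; field_simp [(ht (φ i₀)).ne']
    rw [← h1]
    exact mul_le_mul_of_nonneg_left (hi₀ i) hc0.le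
  have hle : ∀ a, a ∉ Set.range φ → t' a ≤ 1 := by
    intro a ha
    have h1 : c * t (φ i₀) = 1 := by rw [hcdef]; field_simp [(ht (φ i₀)).ne']
    rw [← h1]
    exact mul_le_mul_of_nonneg_left (htop i₀ a ha) hc0.le
  have hB' : fn v t' ≤ B := by rw [ht', fn_smul v t hc0]; exact hB
  set P : ℝ := ∏ i, t' (φ i) with hP
  set Q : ℝ := ∏ a ∈ (Finset.univ.image φ)ᶜ, t' a with hQ
  have hP1 : 1 ≤ P := by
    have := Finset.prod_le_prod (s := Finset.univ) (f := fun _ : ι => (1 : ℝ))
      (g := fun i => t' (φ i)) (fun _ _ => zero_le_one) (fun i _ => hone i)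
    simpa using this
  have hmem : ∀ a ∈ (Finset.univ.image φ)ᶜ, a ∉ Set.range φ := by
    intro a ha
    rw [Finset.mem_compl, Finset.mem_image] at ha
    rintro ⟨i, hi⟩
    exact ha ⟨i, Finset.mem_univ _, hi⟩
  have hQ0 : 0 < Q := Finset.prod_pos fun a _ => ht'0 a
  have hQ1 : Q ≤ 1 := Finset.prod_le_one (fun a _ => (ht'0 a).le) (fun a ha => hle a (hmem a ha))
  have hprod : ∏ a, t' a = P * Q := by
    rw [hP, hQ, ← Finset.prod_mul_prod_compl (Finset.univ.image φ),
      Finset.prod_image (fun a _ b _ h => hφ h)]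
  obtain ⟨hpd, hdet⟩ := tot_posDef v t' ht'0 hφ (hv φ hφ)
  have hδP : δ * P ≤ (tot v t').det :=
    (mul_le_mul_of_nonneg_right (hφ₀ ⟨φ, hφ⟩) (by linarith)).trans hdet
  have hfn : (δ * P) ^ Fintype.card L / (P * Q) ^ Fintype.card ι ≤ B := by
    refine le_trans ?_ hB'
    rw [fn, hprod]
    apply div_le_div_of_nonneg_right _ (by positivity)
    exact pow_le_pow_left₀ (by positivity) hδP _
  obtain ⟨ha1, ha2⟩ := arith hδ hP1 hQ0 hQ1 (M := Fintype.card ι) (n := Fintype.card L)
    Fintype.card_pos hc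
  have hδn : 0 < δ ^ Fintype.card L := by positivity
  have hPR : P ≤ R := by
    refine le_trans ?_ (le_max_right _ _)
    rw [le_div_iff₀ hδn, mul_comm]
    exact ha1.trans hfn
  have hQR : 1 / R ≤ Q := by
    have h1 : 1 / Q ≤ R := by
      refine le_trans ?_ (le_max_right _ _)
      rw [le_div_iff₀ hδn, mul_comm, mul_one_div]
      exact ha2.trans hfn
    rw [div_le_iff₀ (by linarith [le_max_left 1 (B / δ ^ Fintype.card L)])]
    rw [div_le_iff₀ hQ0] at h1
    linarith
  have hR1 : 1 ≤ R := le_max_left _ _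
  have hR2 : 1 / R ≤ 1 := by rw [div_le_iff₀ (by linarith)]; linarith
  intro a
  show t' a ∈ _
  by_cases ha : a ∈ Set.range φ
  · obtain ⟨i, rfl⟩ := ha
    refine ⟨hR2.trans (hone i), le_trans ?_ hPR⟩
    rw [hP, ← Finset.mul_prod_erase Finset.univ _ (Finset.mem_univ i)]
    have : 1 ≤ ∏ j ∈ Finset.univ.erase i, t' (φ j) := by
      have := Finset.prod_le_prod (s := Finset.univ.erase i) (f := fun _ : ι => (1 : ℝ))
        (g := fun i => t' (φ i)) (fun _ _ => zero_le_one) (fun i _ => hone i)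
      simpa using this
    nlinarith [hone i]
  · refine ⟨hQR.trans ?_, (hle a ha).trans hR1⟩
    have hac : a ∈ (Finset.univ.image φ)ᶜ := by
      rw [Finset.mem_compl, Finset.mem_image]
      rintro ⟨i, _, hi⟩
      exact ha ⟨i, hi⟩
    rw [hQ, ← Finset.mul_prod_erase _ _ hac]
    have : ∏ j ∈ (Finset.univ.image φ)ᶜ.erase a, t' j ≤ 1 :=
      Finset.prod_le_one (fun b _ => (ht'0 b).le)
        (fun b hb => hle b (hmem b (Finset.mem_of_mem_erase hb)))
    nlinarith [ht'0 a]

theorem exists_min [Nonempty ι] (v : L → ι → ℝ)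
    (hv : ∀ φ : ι → L, Function.Injective φ → (Matrix.of fun i j => v (φ i) j).det ≠ 0)
    (hc : Fintype.card ι ≤ Fintype.card L) :
    ∃ t : L → ℝ, (∀ a, 0 < t a) ∧ ∀ t' : L → ℝ, (∀ a, 0 < t' a) → fn v t ≤ fn v t' := by
  classical
  rcases hc.lt_or_eq with hlt | heq
  · obtain ⟨R, hR, hco⟩ := coercive v hv hlt (fn v fun _ => 1)
    have hR0 : 0 < R := by linarith
    have hR2 : 1 / R ≤ 1 := by rw [div_le_iff₀ hR0]; linarith
    have hpos : ∀ t ∈ Set.pi Set.univ (fun _ : L => Set.Icc (1 / R) R), ∀ a, 0 < t a := by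
      intro t ht a
      exact lt_of_lt_of_le (by positivity) (ht a (Set.mem_univ _)).1
    have hK : IsCompact (Set.pi Set.univ (fun _ : L => Set.Icc (1 / R) R)) :=
      isCompact_univ_pi fun _ => isCompact_Icc
    have hne : (Set.pi Set.univ (fun _ : L => Set.Icc (1 / R) R)).Nonempty :=
      ⟨fun _ => 1, fun _ _ => ⟨hR2, hR⟩⟩
    have hcont : ContinuousOn (fn v) (Set.pi Set.univ (fun _ : L => Set.Icc (1 / R) R)) := by
      unfold fn
      apply ContinuousOn.div
      · exact ((continuous_det_tot v).pow _).continuousOn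
      · exact ((continuous_finsetProd _ fun a _ => continuous_apply a).pow _).continuousOn
      · intro t ht
        have : 0 < ∏ a, t a := Finset.prod_pos fun a _ => hpos t ht a
        positivity
    obtain ⟨t, htK, htmin⟩ := hK.exists_isMinOn hne hcont
    refine ⟨t, hpos t htK, fun t' ht' => ?_⟩
    by_cases hB : fn v t' ≤ fn v fun _ => 1
    · obtain ⟨c, hc0, hcm⟩ := hco t' ht' hB
      rw [← fn_smul v t' hc0]
      exact htmin (fun a _ => hcm a)
    · push Not at hB
      have h1 : fn v t ≤ fn v fun _ => 1 := htmin (fun _ _ => ⟨hR2, hR⟩)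
      linarith
  · obtain ⟨φ⟩ : Nonempty (ι ≃ L) := ⟨Fintype.equivOfCardEq heq⟩
    have hval : ∀ t : L → ℝ, (∀ a, 0 < t a) → fn v t =
        ((Matrix.of fun i j => v (φ i) j).det ^ 2) ^ Fintype.card L := by
      intro t ht
      have himg : Finset.univ.image φ = (Finset.univ : Finset L) := by
        ext a
        simp only [Finset.mem_image, Finset.mem_univ, true_and, iff_true]
        exact ⟨φ.symm a, φ.apply_symm_apply a⟩
      have h1 := det_inj v t φ.injective
      rw [himg] at h1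
      have h2 : ∏ i, t (φ i) = ∏ a, t a := Equiv.prod_comp φ t
      have h3 : 0 < ∏ a, t a := Finset.prod_pos fun a _ => ht a
      rw [fn, tot, h1, h2, mul_pow, heq]
      field_simp
    refine ⟨fun _ => 1, fun _ => one_pos, fun t' ht' => ?_⟩
    rw [hval _ fun _ => one_pos, hval t' ht']

/-- the derivative of the function at a minimum -/
theorem critical {q s : ℝ} {n M : ℕ} (hs : 0 < s)
    (h : ∀ x : ℝ, 0 < s + x → (1 + x / s) ^ M ≤ (1 + x * q) ^ n) :
    n * q = M / s := by
  have hd : HasDerivAt (fun x : ℝ => (1 + x * q) ^ n - (1 + x / s) ^ M) (n * q - M / s) 0 := by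
    have h1 : HasDerivAt (fun x : ℝ => 1 + x * q) q 0 := by
      simpa using ((hasDerivAt_id (0 : ℝ)).mul_const q).const_add 1
    have h2 : HasDerivAt (fun x : ℝ => 1 + x / s) (1 / s) 0 := by
      simpa using ((hasDerivAt_id (0 : ℝ)).div_const s).const_add 1
    have h3 := (h1.pow n).sub (h2.pow M)
    refine h3.congr_deriv ?_
    simp
    ring
  have hmin : IsLocalMin (fun x : ℝ => (1 + x * q) ^ n - (1 + x / s) ^ M) 0 := by
    have hev : ∀ᶠ x : ℝ in nhds 0, 0 < s + x := by
      have : Continuous fun x : ℝ => s + x := by fun_prop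
      exact this.continuousAt.eventually_mem (Ioi_mem_nhds (by simpa using hs))
    filter_upwards [hev] with x hx
    have := h x hx
    simp
    linarith
  have := hmin.hasDerivAt_eq_zero hd
  linarith

omit [Fintype ι] [DecidableEq ι] in
theorem tot_update [DecidableEq L] (v : L → ι → ℝ) (t : L → ℝ) (a : L) (x : ℝ) :
    tot v (Function.update t a (t a + x)) = tot v t + x • vecMulVec (v a) (v a) := by
  rw [tot, tot, part, part, ← Finset.add_sum_erase _ _ (Finset.mem_univ a),
    ← Finset.add_sum_erase _ (fun b => t b • vecMulVec (v b) (v b)) (Finset.mem_univ a),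
    Function.update_self, add_smul]
  have : ∑ b ∈ Finset.univ.erase a, Function.update t a (t a + x) b • vecMulVec (v b) (v b) =
      ∑ b ∈ Finset.univ.erase a, t b • vecMulVec (v b) (v b) := by
    refine Finset.sum_congr rfl fun b hb => ?_
    rw [Function.update_of_ne (Finset.ne_of_mem_erase hb)]
  rw [this]
  abel

theorem prod_update [DecidableEq L] (t : L → ℝ) (a : L) (x : ℝ) (h : t a ≠ 0) :
    ∏ b, Function.update t a (t a + x) b = (∏ b, t b) * (1 + x / t a) := by
  rw [← Finset.mul_prod_erase _ _ (Finset.mem_univ a),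
    ← Finset.mul_prod_erase _ (fun b => t b) (Finset.mem_univ a), Function.update_self]
  have : ∏ b ∈ Finset.univ.erase a, Function.update t a (t a + x) b =
      ∏ b ∈ Finset.univ.erase a, t b := by
    refine Finset.prod_congr rfl fun b hb => ?_
    rw [Function.update_of_ne (Finset.ne_of_mem_erase hb)]
  rw [this]
  field_simp

theorem exists_weights [Nonempty ι] (v : L → ι → ℝ)
    (hv : ∀ φ : ι → L, Function.Injective φ → (Matrix.of fun i j => v (φ i) j).det ≠ 0)
    (hc : Fintype.card ι ≤ Fintype.card L) :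
    ∃ t : L → ℝ, (∀ a, 0 < t a) ∧ (tot v t).PosDef ∧
      ∀ a, Fintype.card L * (v a ⬝ᵥ (tot v t)⁻¹ *ᵥ v a) = Fintype.card ι / t a := by
  classical
  obtain ⟨t, ht, hmin⟩ := exists_min v hv hc
  have : Nonempty (ι ↪ L) := Function.Embedding.nonempty_of_card_le hc
  obtain ⟨φ⟩ := this
  have hpd := (tot_posDef v t ht φ.injective (hv φ φ.injective)).1
  refine ⟨t, ht, hpd, fun a => ?_⟩
  apply critical (ht a)
  intro x hx
  have hpos : ∀ b, 0 < Function.update t a (t a + x) b := by
    intro b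
    by_cases hb : b = a
    · rw [hb, Function.update_self]; exact hx
    · rw [Function.update_of_ne hb]; exact ht b
  have h1 := hmin _ hpos
  have hdet := hpd.det_pos
  have hprod : 0 < ∏ b, t b := Finset.prod_pos fun b _ => ht b
  have hx2 : 0 < 1 + x / t a := by
    have : 1 + x / t a = (t a + x) / t a := by field_simp [(ht a).ne']
    rw [this]
    exact div_pos hx (ht a)
  rw [fn, fn, tot_update, prod_update t a x (ht a).ne', det_rank_one hdet.ne'.isUnit, mul_pow,
    mul_pow, div_le_div_iff₀ (by positivity) (by positivity)] at h1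
  have h2 : (tot v t).det ^ Fintype.card L * (∏ b, t b) ^ Fintype.card ι *
      (1 + x / t a) ^ Fintype.card ι ≤ (tot v t).det ^ Fintype.card L *
      (∏ b, t b) ^ Fintype.card ι *
      (1 + x * (v a ⬝ᵥ (tot v t)⁻¹ *ᵥ v a)) ^ Fintype.card L := by
    calc _ = (tot v t).det ^ Fintype.card L * ((∏ b, t b) ^ Fintype.card ι *
        (1 + x / t a) ^ Fintype.card ι) := by ring
      _ ≤ _ := h1
      _ = _ := by ring
  exact le_of_mul_le_mul_left h2 (by positivity)

end tot

end FOR

open FOR in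
theorem exists_isotropic {ι L : Type} [Fintype ι] [DecidableEq ι] [Nonempty ι] [Fintype L]
    (v : L → ι → ℝ)
    (hv : ∀ φ : ι → L, Function.Injective φ → (Matrix.of fun i j => v (φ i) j).det ≠ 0)
    (hc : Fintype.card ι ≤ Fintype.card L) :
    ∃ B : Matrix ι ι ℝ, (∀ a, B.mulVec (v a) ≠ 0) ∧ ∀ a, ∑ b,
      (B.mulVec (v a) ⬝ᵥ B.mulVec (v b)) ^ 2 /
        ((B.mulVec (v a) ⬝ᵥ B.mulVec (v a)) * (B.mulVec (v b) ⬝ᵥ B.mulVec (v b))) =
      Fintype.card L / Fintype.card ι := by
  classical
  obtain ⟨t, ht, hpd, hcrit⟩ := exists_weights v hv hc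
  obtain ⟨B, hB⟩ : ∃ B : Matrix ι ι ℝ, (tot v t)⁻¹ = Bᵀ * B := by
    open scoped MatrixOrder in
    obtain ⟨B, hB⟩ := CStarAlgebra.nonneg_iff_eq_star_mul_self.mp hpd.inv.posSemidef.nonneg
    refine ⟨B, hB.trans ?_⟩
    rw [star_eq_conjTranspose, conjTranspose_eq_transpose_of_trivial]
  have hdot : ∀ x y : ι → ℝ, B.mulVec x ⬝ᵥ B.mulVec y = x ⬝ᵥ (tot v t)⁻¹ *ᵥ y := by
    intro x y
    rw [hB, ← mulVec_mulVec, dotProduct_mulVec x, vecMul_transpose]
  have hn : 0 < (Fintype.card L : ℝ) := by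
    have : 0 < Fintype.card L := lt_of_lt_of_le Fintype.card_pos hc
    exact_mod_cast this
  have hM : 0 < (Fintype.card ι : ℝ) := by exact_mod_cast Fintype.card_pos
  have hq : ∀ a, B.mulVec (v a) ⬝ᵥ B.mulVec (v a) =
      Fintype.card ι / (Fintype.card L * t a) := by
    intro a
    rw [hdot]
    have h1 := hcrit a
    have h2 := ht a
    field_simp at h1 ⊢
    linarith
  have hqpos : ∀ a, 0 < B.mulVec (v a) ⬝ᵥ B.mulVec (v a) := by
    intro a
    rw [hq]
    have := ht a
    positivity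
  refine ⟨B, fun a h0 => ?_, fun a => ?_⟩
  · have := hqpos a
    rw [h0, zero_dotProduct] at this
    exact lt_irrefl _ this
  · have hsum : ∑ b, t b * (B.mulVec (v a) ⬝ᵥ B.mulVec (v b)) ^ 2 =
        B.mulVec (v a) ⬝ᵥ B.mulVec (v a) := by
      have hS : (tot v t)⁻¹ * tot v t * (tot v t)⁻¹ = (tot v t)⁻¹ := by
        rw [Matrix.nonsing_inv_mul _ hpd.det_pos.ne'.isUnit, Matrix.one_mul]
      have hsym : (tot v t)⁻¹ᵀ = (tot v t)⁻¹ := by
        rw [hB, transpose_mul, transpose_transpose]
      rw [hdot (v a) (v a)]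
      conv_rhs => rw [← hS, ← mulVec_mulVec, ← mulVec_mulVec, dotProduct_mulVec]
      have h1 : v a ᵥ* (tot v t)⁻¹ = (tot v t)⁻¹ *ᵥ v a := by
        conv_lhs => rw [← hsym]
        rw [vecMul_transpose]
      rw [h1]
      set y := (tot v t)⁻¹ *ᵥ v a with hy
      have h2 : ∀ b, B.mulVec (v a) ⬝ᵥ B.mulVec (v b) = y ⬝ᵥ v b := by
        intro b
        rw [hdot, dotProduct_mulVec, h1]
      have h3 : tot v t *ᵥ y = ∑ b, (t b * (y ⬝ᵥ v b)) • v b := by
        rw [tot, part, sum_mulVec]
        refine Finset.sum_congr rfl fun b _ => ?_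
        rw [smul_mulVec, vecMulVec_mulVec, op_smul_eq_smul, smul_smul, dotProduct_comm]
      rw [h3, dotProduct_sum]
      refine Finset.sum_congr rfl fun b _ => ?_
      rw [dotProduct_smul, h2, smul_eq_mul]
      ring
    have hterm : ∀ b, (B.mulVec (v a) ⬝ᵥ B.mulVec (v b)) ^ 2 /
        ((B.mulVec (v a) ⬝ᵥ B.mulVec (v a)) * (B.mulVec (v b) ⬝ᵥ B.mulVec (v b))) =
        (Fintype.card L / (Fintype.card ι * (B.mulVec (v a) ⬝ᵥ B.mulVec (v a)))) *
          (t b * (B.mulVec (v a) ⬝ᵥ B.mulVec (v b)) ^ 2) := by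
      intro b
      rw [hq b]
      have h1 := hqpos a
      have h2 := ht b
      field_simp
    rw [Finset.sum_congr rfl fun b _ => hterm b, ← Finset.mul_sum, hsum]
    have h1 := hqpos a
    field_simp

end Pool.Agent.SAP
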