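import Pool.Agent.SAP.CELL
import Pool.Agent.SAP.COUNT0
import Pool.Agent.SAP.COUNT1

/-!
# FRAC: the fraction of tuples in products of parts on which a polynomial changes sign
-/

set_option autoImplicit false

namespace Pool.Agent.SAP

open MvPolynomial

theorem cross_card' {κ : Type} [Fintype κ] [Nonempty κ] {d : ℕ} (hd : 1 ≤ d)
    (F : κ → MvPolynomial (Fin d) ℝ) (b : κ → ℕ) (hb : ∀ i, 1 ≤ b i)
    (hF : ∀ i, (F i).totalDegree ≤ b i)
    (L : κ → Type) [∀ i, Finite (L i)] (y : ∀ i, L i → Fin d → ℝ)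
    (hy : ∀ i a, eval (y i a) (F i) ≠ 0)
    (hbd : ∀ i a, Bornology.IsBounded (cell (F i) (y i a)))
    (h : MvPolynomial (κ × Fin d) ℝ) (D : ℕ) (hD : 1 ≤ D) (hdeg : h.totalDegree ≤ D) :
    ({ω : κ → Set (Fin d → ℝ) | (∀ i, ω i ∈ Set.range fun a => cell (F i) (y i a)) ∧
        ∃ x x' : κ → Fin d → ℝ, (∀ i, x i ∈ ω i) ∧ (∀ i, x' i ∈ ω i) ∧
          eval (unc x) h < 0 ∧ 0 < eval (unc x') h}.ncard : ℝ) ≤
      2 * (Fintype.card κ * d : ℕ) * (3 * Fintype.card κ : ℕ) ^ (Fintype.card κ * d) * D *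
        (∏ i, (b i : ℝ) ^ d) * ∑ i, 1 / (b i : ℝ) := by
  classical
  by_cases hDb : ∀ i, D ≤ b i
  · exact cross_card hd F b hF L y hy hbd h D hD hdeg hDb
  · push Not at hDb
    obtain ⟨i0, hi0⟩ := hDb
    have hk : 1 ≤ Fintype.card κ := Fintype.card_pos
    have hfr : ∀ i, (Set.range fun a => cell (F i) (y i a)).Finite := fun i => Set.finite_range _
    have hsub : {ω : κ → Set (Fin d → ℝ) | (∀ i, ω i ∈ Set.range fun a => cell (F i) (y i a)) ∧
        ∃ x x' : κ → Fin d → ℝ, (∀ i, x i ∈ ω i) ∧ (∀ i, x' i ∈ ω i) ∧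
          eval (unc x) h < 0 ∧ 0 < eval (unc x') h} ⊆
        ((Fintype.piFinset fun i => (hfr i).toFinset : Finset (κ → Set (Fin d → ℝ))) :
          Set (κ → Set (Fin d → ℝ))) := by
      intro ω hω
      rw [Finset.mem_coe, Fintype.mem_piFinset]
      intro i
      rw [Set.Finite.mem_toFinset]
      exact hω.1 i
    have h1 : {ω : κ → Set (Fin d → ℝ) | (∀ i, ω i ∈ Set.range fun a => cell (F i) (y i a)) ∧
        ∃ x x' : κ → Fin d → ℝ, (∀ i, x i ∈ ω i) ∧ (∀ i, x' i ∈ ω i) ∧
          eval (unc x) h < 0 ∧ 0 < eval (unc x') h}.ncard ≤ ∏ i, (2 * b i) ^ d := by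
      refine (Set.ncard_le_ncard hsub (Finset.finite_toSet _)).trans ?_
      rw [Set.ncard_coe_finset, Fintype.card_piFinset]
      refine Finset.prod_le_prod' (fun i _ => ?_)
      rw [← Set.ncard_eq_toFinset_card _ (hfr i)]
      exact cells_card (F i) (hF i) (hb i) (y i) (hy i) (hbd i)
    have h2 : (∏ i, (2 * b i) ^ d : ℕ) = 2 ^ (Fintype.card κ * d) * ∏ i, b i ^ d := by
      simp only [mul_pow]
      rw [Finset.prod_mul_distrib, Finset.prod_const, Finset.card_univ, ← pow_mul]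
      ring
    have hbpos : ∀ i, (0 : ℝ) < b i := fun i => by exact_mod_cast hb i
    have h3 : (1 : ℝ) ≤ D * ∑ i, 1 / (b i : ℝ) := by
      have h4 : 1 / (b i0 : ℝ) ≤ ∑ i, 1 / (b i : ℝ) :=
        Finset.single_le_sum (f := fun i => 1 / (b i : ℝ))
          (fun i _ => (one_div_pos.2 (hbpos i)).le) (Finset.mem_univ i0)
      have h5 : (b i0 : ℝ) ≤ D := by exact_mod_cast hi0.le
      have h6 : (1 : ℝ) ≤ D * (1 / (b i0 : ℝ)) := by
        rw [mul_one_div, one_le_div (hbpos i0)]
        exact h5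
      exact h6.trans (mul_le_mul_of_nonneg_left h4 (Nat.cast_nonneg D))
    have h7 : (2 : ℝ) ^ (Fintype.card κ * d) ≤
        2 * (Fintype.card κ * d : ℕ) * (3 * Fintype.card κ : ℕ) ^ (Fintype.card κ * d) := by
      have e1 : 1 ≤ Fintype.card κ * d := Nat.mul_pos hk hd
      have e2 : 2 ^ (Fintype.card κ * d) ≤
          2 * (Fintype.card κ * d) * (3 * Fintype.card κ) ^ (Fintype.card κ * d) := by
        calc 2 ^ (Fintype.card κ * d) ≤ (3 * Fintype.card κ) ^ (Fintype.card κ * d) :=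
              Nat.pow_le_pow_left (by omega) _
          _ = 1 * (3 * Fintype.card κ) ^ (Fintype.card κ * d) := (one_mul _).symm
          _ ≤ _ := Nat.mul_le_mul_right _ (by omega)
      exact_mod_cast e2
    have h8 : (0 : ℝ) ≤ ∏ i, (b i : ℝ) ^ d := Finset.prod_nonneg (fun i _ => by positivity)
    have h9 : (({ω : κ → Set (Fin d → ℝ) | (∀ i, ω i ∈ Set.range fun a => cell (F i) (y i a)) ∧
        ∃ x x' : κ → Fin d → ℝ, (∀ i, x i ∈ ω i) ∧ (∀ i, x' i ∈ ω i) ∧
          eval (unc x) h < 0 ∧ 0 < eval (unc x') h}.ncard : ℕ) : ℝ) ≤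
        2 ^ (Fintype.card κ * d) * ∏ i, (b i : ℝ) ^ d := by
      have := h1.trans (le_of_eq h2)
      exact_mod_cast this
    refine h9.trans ?_
    have hA : (0 : ℝ) ≤ 2 * (Fintype.card κ * d : ℕ) *
        (3 * Fintype.card κ : ℕ) ^ (Fintype.card κ * d) := by positivity
    calc (2 : ℝ) ^ (Fintype.card κ * d) * ∏ i, (b i : ℝ) ^ d
        ≤ (2 * (Fintype.card κ * d : ℕ) * (3 * Fintype.card κ : ℕ) ^ (Fintype.card κ * d)) *
          ∏ i, (b i : ℝ) ^ d := mul_le_mul_of_nonneg_right h7 h8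
      _ = ((2 * (Fintype.card κ * d : ℕ) * (3 * Fintype.card κ : ℕ) ^ (Fintype.card κ * d)) *
          ∏ i, (b i : ℝ) ^ d) * 1 := (mul_one _).symm
      _ ≤ ((2 * (Fintype.card κ * d : ℕ) * (3 * Fintype.card κ : ℕ) ^ (Fintype.card κ * d)) *
          ∏ i, (b i : ℝ) ^ d) * (D * ∑ i, 1 / (b i : ℝ)) :=
          mul_le_mul_of_nonneg_left h3 (mul_nonneg hA h8)
      _ = _ := by ring

namespace Frac

section levels
variable {L : Type} [Fintype L] {d : ℕ} {y : L → Fin d → ℝ} {N T K : ℕ}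

open Classical in
theorem fib_le (P : Leveled y N T K) (t : Fin T) :
    (Finset.univ.filter fun a => P.part a = t).card ≤ 2 * P.s := by
  have h1 := (P.fib t).2
  have h2 := P.s_pos
  have h3 : (Finset.univ.filter fun a => P.part a = t).card ≤ P.s + 1 := by
    convert h1
  omega

theorem s_mul_le (P : Leveled y N T K) : P.s * T ≤ Fintype.card L := by
  classical
  have h1 : Fintype.card L = ∑ t : Fin T, (Finset.univ.filter fun a => P.part a = t).card := by
    rw [← Finset.card_univ]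
    exact Finset.card_eq_sum_card_fiberwise (fun a _ => Finset.mem_univ (P.part a))
  have h2 : ∑ _t : Fin T, P.s ≤ ∑ t : Fin T, (Finset.univ.filter fun a => P.part a = t).card :=
    Finset.sum_le_sum (fun t _ => by
      have h := (P.fib t).1
      convert h)
  rw [h1]
  refine le_trans (le_of_eq ?_) h2
  rw [Finset.sum_const, Finset.card_univ, Fintype.card_fin, smul_eq_mul, mul_comm]

open Classical in
theorem cls_card (P : Leveled y N T K) (j : Fin P.J) (ω : Set (Fin d → ℝ)) :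
    (Finset.univ.filter fun a => P.lev (P.part a) = some j ∧ cell (P.F j) (y a) = ω).card ≤
      K * (2 * P.s) := by
  by_cases hne : (Finset.univ.filter fun a => P.lev (P.part a) = some j ∧
      cell (P.F j) (y a) = ω).Nonempty
  · obtain ⟨x0, hx0⟩ := hne
    rw [Finset.mem_filter] at hx0
    obtain ⟨_, h1, h2⟩ := hx0
    have hfew := P.few j x0 h1
    set Ts : Finset (Fin T) := Finset.univ.filter fun t : Fin T => P.lev t = some j ∧
      ∃ b, P.part b = t ∧ y b ∈ cell (P.F j) (y x0) with hTs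
    have hTs' : Ts.card ≤ K := by
      convert hfew
    have hsub : (Finset.univ.filter fun a => P.lev (P.part a) = some j ∧
        cell (P.F j) (y a) = ω) ⊆ Ts.biUnion (fun t => Finset.univ.filter fun a => P.part a = t) := by
      intro x hx
      rw [Finset.mem_filter] at hx
      rw [Finset.mem_biUnion]
      refine ⟨P.part x, ?_, by simp⟩
      rw [hTs, Finset.mem_filter]
      refine ⟨Finset.mem_univ _, hx.2.1, x, rfl, ?_⟩
      rw [h2, ← hx.2.2]
      exact mem_cell (P.ne j x hx.2.1)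
    refine (Finset.card_le_card hsub).trans ?_
    refine Finset.card_biUnion_le.trans ?_
    refine (Finset.sum_le_card_nsmul _ _ (2 * P.s) (fun t _ => fib_le P t)).trans ?_
    rw [smul_eq_mul]
    exact Nat.mul_le_mul_right _ hTs'
  · rw [Finset.not_nonempty_iff_eq_empty] at hne
    rw [hne]
    simp

end levels

/-- the combinatorial sum over the levels -/
theorem sum_levels {k d K N : ℕ} (hd : 1 ≤ d) (hN : 1 ≤ N) (J : Fin k → ℕ)
    (M : ∀ i, Fin (J i) → ℕ) (hM1 : ∀ i j, 1 ≤ M i j) (hMN : ∀ i j, M i j ≤ N)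
    (hs : ∀ i, ∑ j, M i j ^ (d - 1) ≤ K * N ^ (d - 1)) :
    ∑ j : ∀ i, Fin (J i), (∏ i, ((M i (j i) : ℝ) / N) ^ d) * ∑ l, 1 / (M l (j l) : ℝ) ≤
      k * (K : ℝ) ^ k / N := by
  classical
  have hNr : (0 : ℝ) < N := by exact_mod_cast hN
  have hMr : ∀ i j, (0 : ℝ) < M i j := fun i j => by exact_mod_cast hM1 i j
  obtain ⟨e, rfl⟩ : ∃ e, d = e + 1 := ⟨d - 1, by omega⟩
  simp only [Nat.add_sub_cancel] at hs
  have hsr : ∀ i, ∑ j, (M i j : ℝ) ^ e ≤ K * (N : ℝ) ^ e := fun i => by exact_mod_cast hs i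
  have h1 : ∀ l : Fin k, ∑ j : ∀ i, Fin (J i), (∏ i, ((M i (j i) : ℝ) / N) ^ (e + 1)) *
      (1 / (M l (j l) : ℝ)) ≤ (K : ℝ) ^ k / N := by
    intro l
    have h2 : ∀ j : ∀ i, Fin (J i), (∏ i, ((M i (j i) : ℝ) / N) ^ (e + 1)) *
        (1 / (M l (j l) : ℝ)) = ∏ i, ((((M i (j i) : ℝ) / N) ^ (e + 1)) *
          (if i = l then 1 / (M i (j i) : ℝ) else 1)) := by
      intro j
      rw [Finset.prod_mul_distrib]
      congr 1
      rw [Finset.prod_ite_eq' Finset.univ l (fun i => 1 / (M i (j i) : ℝ))]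
      simp
    simp only [h2]
    have h3 := Finset.prod_univ_sum (fun i : Fin k => (Finset.univ : Finset (Fin (J i))))
      (fun i x => (((M i x : ℝ) / N) ^ (e + 1)) * (if i = l then 1 / (M i x : ℝ) else 1))
    rw [Fintype.piFinset_univ] at h3
    rw [← h3]
    have h4 : ∀ i : Fin k, ∑ x : Fin (J i), (((M i x : ℝ) / N) ^ (e + 1)) *
        (if i = l then 1 / (M i x : ℝ) else 1) ≤ K * (if i = l then 1 / (N : ℝ) else 1) := by
      intro i
      by_cases hi : i = l
      · rw [Finset.sum_congr rfl (fun x _ => by rw [if_pos hi]), if_pos hi]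
        have h5 : ∀ x : Fin (J i), ((M i x : ℝ) / N) ^ (e + 1) * (1 / (M i x : ℝ)) =
            (1 / (N : ℝ) ^ (e + 1)) * (M i x : ℝ) ^ e := fun x => by
          have := hMr i x
          rw [div_pow, pow_succ (M i x : ℝ) e]
          field_simp
        rw [Finset.sum_congr rfl (fun x _ => h5 x), ← Finset.mul_sum]
        refine (mul_le_mul_of_nonneg_left (hsr i) (by positivity)).trans (le_of_eq ?_)
        field_simp
        ring
      · rw [Finset.sum_congr rfl (fun x _ => by rw [if_neg hi, mul_one]), if_neg hi, mul_one]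
        have h5 : ∀ x : Fin (J i), ((M i x : ℝ) / N) ^ (e + 1) ≤
            (1 / (N : ℝ) ^ e) * (M i x : ℝ) ^ e := fun x => by
          have h6 : (M i x : ℝ) / N ≤ 1 := (div_le_one hNr).2 (by exact_mod_cast hMN i x)
          have h7 : 0 ≤ (M i x : ℝ) / N := by positivity
          calc ((M i x : ℝ) / N) ^ (e + 1) = ((M i x : ℝ) / N) ^ e * ((M i x : ℝ) / N) := pow_succ _ _
            _ ≤ ((M i x : ℝ) / N) ^ e * 1 := mul_le_mul_of_nonneg_left h6 (by positivity)
            _ = _ := by rw [mul_one, div_pow]; ring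
        refine (Finset.sum_le_sum (fun x _ => h5 x)).trans ?_
        rw [← Finset.mul_sum]
        refine (mul_le_mul_of_nonneg_left (hsr i) (by positivity)).trans (le_of_eq ?_)
        field_simp
    refine (Finset.prod_le_prod (fun i _ => Finset.sum_nonneg (fun x _ => ?_))
      (fun i _ => h4 i)).trans (le_of_eq ?_)
    · have := hMr i x
      positivity
    · rw [Finset.prod_mul_distrib, Finset.prod_const, Finset.card_univ, Fintype.card_fin,
        Finset.prod_ite_eq' Finset.univ l (fun _ => 1 / (N : ℝ))]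
      simp
      ring
  have h5 : ∑ j : ∀ i, Fin (J i), (∏ i, ((M i (j i) : ℝ) / N) ^ (e + 1)) *
      ∑ l, 1 / (M l (j l) : ℝ) = ∑ l, ∑ j : ∀ i, Fin (J i),
        (∏ i, ((M i (j i) : ℝ) / N) ^ (e + 1)) * (1 / (M l (j l) : ℝ)) := by
    rw [Finset.sum_comm]
    refine Finset.sum_congr rfl (fun j _ => ?_)
    rw [Finset.mul_sum]
  rw [h5]
  refine (Finset.sum_le_sum (fun l _ => h1 l)).trans (le_of_eq ?_)
  rw [Finset.sum_const, Finset.card_univ, Fintype.card_fin, nsmul_eq_mul]
  ring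

/-! ### one tuple of levels -/

section one
variable {k d K T₀ N : ℕ} {L : Fin k → Type} [∀ i, Fintype (L i)] {y : ∀ i, L i → Fin d → ℝ}

/-- the crossing condition for a tuple of labels -/
def Crossing (P : ∀ i, Leveled (y i) N (T₀ * N ^ d) K) (h : MvPolynomial (Fin k × Fin d) ℝ)
    (a : ∀ i, L i) : Prop :=
  ∃ b c : ∀ i, L i, (∀ i, (P i).part (b i) = (P i).part (a i)) ∧
    (∀ i, (P i).part (c i) = (P i).part (a i)) ∧
    eval (unc fun i => y i (b i)) h < 0 ∧ 0 < eval (unc fun i => y i (c i)) h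

open Classical in
theorem level_card (hd : 1 ≤ d) (hk : 1 ≤ k) (hK : 1 ≤ K)
    (P : ∀ i, Leveled (y i) N (T₀ * N ^ d) K) (h : MvPolynomial (Fin k × Fin d) ℝ)
    (hD : 1 ≤ h.totalDegree) (j : ∀ i, Fin (P i).J) :
    ((Finset.univ.filter fun a : ∀ i, L i =>
      (∀ i, (P i).lev ((P i).part (a i)) = some (j i)) ∧ Crossing P h a).card : ℝ) ≤
      (∏ i, ((K * (2 * (P i).s) : ℕ) : ℝ)) * (2 * (k * d : ℕ) * (3 * k : ℕ) ^ (k * d) *
        h.totalDegree * (∏ i, ((K * (P i).M (j i) : ℕ) : ℝ) ^ d) *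
        ∑ i, 1 / ((K * (P i).M (j i) : ℕ) : ℝ)) := by
  have : Nonempty (Fin k) := ⟨⟨0, hk⟩⟩
  have hcc := cross_card' (κ := Fin k) hd (fun i => (P i).F (j i))
    (fun i => K * (P i).M (j i)) (fun i => Nat.mul_pos hK ((P i).M_pos (j i)))
    (fun i => (P i).deg (j i)) (fun i => {x : L i // (P i).lev ((P i).part x) = some (j i)})
    (fun i a => y i a.1) (fun i a => (P i).ne (j i) a.1 a.2) (fun i a => (P i).bdd (j i) a.1 a.2)
    h h.totalDegree hD le_rfl
  rw [Fintype.card_fin] at hcc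
  set S : Set (Fin k → Set (Fin d → ℝ)) := {ω : Fin k → Set (Fin d → ℝ) |
    (∀ i, ω i ∈ Set.range fun a : {x : L i // (P i).lev ((P i).part x) = some (j i)} =>
      cell ((P i).F (j i)) (y i a.1)) ∧
        ∃ x x' : Fin k → Fin d → ℝ, (∀ i, x i ∈ ω i) ∧ (∀ i, x' i ∈ ω i) ∧
          eval (unc x) h < 0 ∧ 0 < eval (unc x') h} with hS
  have hSfin : S.Finite := by
    refine Set.Finite.subset (Set.Finite.pi (fun i => Set.finite_range
      (fun a : {x : L i // (P i).lev ((P i).part x) = some (j i)} =>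
        cell ((P i).F (j i)) (y i a.1)))) (fun ω hω => ?_)
    intro i _
    exact hω.1 i
  have hmap : ∀ a ∈ (Finset.univ.filter fun a : ∀ i, L i =>
      (∀ i, (P i).lev ((P i).part (a i)) = some (j i)) ∧ Crossing P h a),
      (fun i => cell ((P i).F (j i)) (y i (a i))) ∈ hSfin.toFinset := by
    intro a ha
    rw [Finset.mem_filter] at ha
    obtain ⟨_, h1, b, c, hb, hc, h2, h3⟩ := ha
    rw [Set.Finite.mem_toFinset]
    refine ⟨fun i => ⟨⟨a i, h1 i⟩, rfl⟩, fun i => y i (b i), fun i => y i (c i),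
      fun i => ?_, fun i => ?_, h2, h3⟩
    · exact (P i).same (j i) (a i) (b i) (hb i).symm (h1 i)
    · exact (P i).same (j i) (a i) (c i) (hc i).symm (h1 i)
  have hfib : ∀ ω ∈ hSfin.toFinset, ((Finset.univ.filter fun a : ∀ i, L i =>
      (∀ i, (P i).lev ((P i).part (a i)) = some (j i)) ∧ Crossing P h a).filter
        (fun a => (fun i => cell ((P i).F (j i)) (y i (a i))) = ω)).card ≤
      ∏ i, (K * (2 * (P i).s)) := by
    intro ω _
    have hsub : ((Finset.univ.filter fun a : ∀ i, L i =>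
      (∀ i, (P i).lev ((P i).part (a i)) = some (j i)) ∧ Crossing P h a).filter
        (fun a => (fun i => cell ((P i).F (j i)) (y i (a i))) = ω)) ⊆
        Fintype.piFinset (fun i => Finset.univ.filter fun x => (P i).lev ((P i).part x) =
          some (j i) ∧ cell ((P i).F (j i)) (y i x) = ω i) := by
      intro a ha
      rw [Finset.mem_filter, Finset.mem_filter] at ha
      rw [Fintype.mem_piFinset]
      intro i
      rw [Finset.mem_filter]
      exact ⟨Finset.mem_univ _, ha.1.2.1 i, congrFun ha.2 i⟩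
    refine (Finset.card_le_card hsub).trans ?_
    rw [Fintype.card_piFinset]
    exact Finset.prod_le_prod' (fun i _ => cls_card (P i) (j i) (ω i))
  have hmain := Finset.card_le_mul_card_image_of_maps_to hmap _ hfib
  rw [← Set.ncard_eq_toFinset_card _ hSfin] at hmain
  have hmain' : ((Finset.univ.filter fun a : ∀ i, L i =>
      (∀ i, (P i).lev ((P i).part (a i)) = some (j i)) ∧ Crossing P h a).card : ℝ) ≤
      (∏ i, ((K * (2 * (P i).s) : ℕ) : ℝ)) * (S.ncard : ℝ) := by
    exact_mod_cast hmain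
  refine hmain'.trans (mul_le_mul_of_nonneg_left ?_ (Finset.prod_nonneg fun i _ =>
    Nat.cast_nonneg _))
  exact hcc

open Classical in
theorem none_bound (hN : 1 ≤ N) (P : ∀ i, Leveled (y i) N (T₀ * N ^ d) K) (i : Fin k) :
    ((Finset.univ.filter fun a : ∀ i, L i => (P i).lev ((P i).part (a i)) = none).card : ℝ) ≤
      K / N * ∏ l, (Fintype.card (L l) : ℝ) := by
  have hNr : (0 : ℝ) < N := by exact_mod_cast hN
  set S : Finset (L i) := Finset.univ.filter fun x => (P i).lev ((P i).part x) = none with hS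
  have hSc : (S.card : ℝ) ≤ K / N * Fintype.card (L i) := by
    have h1 := (P i).none_card
    have h2 : S.card * N ≤ K * Fintype.card (L i) := by
      convert h1
    have h3 : (S.card : ℝ) * N ≤ K * Fintype.card (L i) := by exact_mod_cast h2
    rw [div_mul_eq_mul_div, le_div_iff₀ hNr]
    exact h3
  have hsub : (Finset.univ.filter fun a : ∀ i, L i => (P i).lev ((P i).part (a i)) = none) ⊆
      Fintype.piFinset (Function.update (fun l => (Finset.univ : Finset (L l))) i S) := by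
    intro a ha
    rw [Finset.mem_filter] at ha
    rw [Fintype.mem_piFinset]
    intro l
    by_cases hl : l = i
    · subst hl
      rw [Function.update_self, hS, Finset.mem_filter]
      exact ⟨Finset.mem_univ _, ha.2⟩
    · rw [Function.update_of_ne hl]
      exact Finset.mem_univ _
  have h1 := Finset.card_le_card hsub
  rw [Fintype.card_piFinset, ← Finset.mul_prod_erase Finset.univ _ (Finset.mem_univ i),
    Function.update_self] at h1
  have h2 : ∏ l ∈ Finset.univ.erase i,
      (Function.update (fun l => (Finset.univ : Finset (L l))) i S l).card =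
      ∏ l ∈ Finset.univ.erase i, Fintype.card (L l) := by
    refine Finset.prod_congr rfl (fun l hl => ?_)
    rw [Function.update_of_ne (Finset.ne_of_mem_erase hl), Finset.card_univ]
  rw [h2] at h1
  rw [← Finset.mul_prod_erase Finset.univ (fun l => (Fintype.card (L l) : ℝ)) (Finset.mem_univ i)]
  have h3 : ((Finset.univ.filter fun a : ∀ i, L i =>
      (P i).lev ((P i).part (a i)) = none).card : ℝ) ≤
      S.card * ∏ l ∈ Finset.univ.erase i, (Fintype.card (L l) : ℝ) := by exact_mod_cast h1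
  refine h3.trans ?_
  rw [← mul_assoc]
  exact mul_le_mul_of_nonneg_right hSc (Finset.prod_nonneg fun _ _ => Nat.cast_nonneg _)

theorem size_bound (hN : 1 ≤ N) (hT : 1 ≤ T₀) (P : ∀ i, Leveled (y i) N (T₀ * N ^ d) K) :
    (∏ i, ((K * (2 * (P i).s) : ℕ) : ℝ)) ≤
      (2 * K : ℝ) ^ k * (∏ i, (Fintype.card (L i) : ℝ)) * ∏ _i : Fin k, (1 / (N : ℝ) ^ d) := by
  have hNr : (0 : ℝ) < N := by exact_mod_cast hN
  have h1 : ∀ i, ((K * (2 * (P i).s) : ℕ) : ℝ) ≤
      (2 * K : ℝ) * (Fintype.card (L i) : ℝ) * (1 / (N : ℝ) ^ d) := by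
    intro i
    have h2 := s_mul_le (P i)
    have h3 : (P i).s * N ^ d ≤ Fintype.card (L i) := by
      refine le_trans ?_ h2
      exact Nat.mul_le_mul_left _ (Nat.le_mul_of_pos_left _ hT)
    have h4 : ((P i).s : ℝ) * N ^ d ≤ Fintype.card (L i) := by exact_mod_cast h3
    have h5 : ((P i).s : ℝ) ≤ Fintype.card (L i) * (1 / (N : ℝ) ^ d) := by
      rw [mul_one_div, le_div_iff₀ (by positivity)]
      exact h4
    push_cast
    nlinarith [mul_le_mul_of_nonneg_left h5 (by positivity : (0 : ℝ) ≤ 2 * K)]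
  refine (Finset.prod_le_prod (fun i _ => Nat.cast_nonneg _) (fun i _ => h1 i)).trans
    (le_of_eq ?_)
  rw [Finset.prod_mul_distrib, Finset.prod_mul_distrib, Finset.prod_const, Finset.card_univ,
    Fintype.card_fin]

/-- the constant of `frac_le` -/
noncomputable def CC (d k K : ℕ) : ℝ :=
  k * K + (2 * K : ℝ) ^ k * (2 * (k * d : ℕ) * (3 * k : ℕ) ^ (k * d)) * (K : ℝ) ^ (k * d) *
    (k * (K : ℝ) ^ k)

open Classical in
theorem level_sum (hd : 1 ≤ d) (hk : 1 ≤ k) (hK : 1 ≤ K) (hN : 1 ≤ N) (hT : 1 ≤ T₀)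
    (P : ∀ i, Leveled (y i) N (T₀ * N ^ d) K) (h : MvPolynomial (Fin k × Fin d) ℝ)
    (hD : 1 ≤ h.totalDegree) :
    ∑ j : ∀ i, Fin (P i).J, ((Finset.univ.filter fun a : ∀ i, L i =>
      (∀ i, (P i).lev ((P i).part (a i)) = some (j i)) ∧ Crossing P h a).card : ℝ) ≤
      ((2 * K : ℝ) ^ k * (2 * (k * d : ℕ) * (3 * k : ℕ) ^ (k * d)) * (K : ℝ) ^ (k * d) *
        (k * (K : ℝ) ^ k)) * h.totalDegree / N * ∏ i, (Fintype.card (L i) : ℝ) := by
  have hNr : (0 : ℝ) < N := by exact_mod_cast hN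
  have hKr : (1 : ℝ) ≤ K := by exact_mod_cast hK
  set PL : ℝ := ∏ i, (Fintype.card (L i) : ℝ) with hPL
  have hPL0 : 0 ≤ PL := Finset.prod_nonneg fun _ _ => Nat.cast_nonneg _
  set R : ℝ := 2 * (k * d : ℕ) * (3 * k : ℕ) ^ (k * d) with hR
  have hR0 : 0 ≤ R := by rw [hR]; positivity
  have h1 : ∀ j : ∀ i, Fin (P i).J, ((Finset.univ.filter fun a : ∀ i, L i =>
      (∀ i, (P i).lev ((P i).part (a i)) = some (j i)) ∧ Crossing P h a).card : ℝ) ≤
      ((2 * K : ℝ) ^ k * R * (K : ℝ) ^ (k * d) * h.totalDegree * PL) *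
        ((∏ i, (((P i).M (j i) : ℝ) / N) ^ d) * ∑ l, 1 / ((P l).M (j l) : ℝ)) := by
    intro j
    have hM : ∀ i, (0 : ℝ) < (P i).M (j i) := fun i => by exact_mod_cast (P i).M_pos (j i)
    refine (level_card hd hk hK P h hD j).trans ?_
    have h2 := size_bound hN hT P
    have h3 : ∑ i, 1 / ((K * (P i).M (j i) : ℕ) : ℝ) ≤ ∑ l, 1 / ((P l).M (j l) : ℝ) := by
      refine Finset.sum_le_sum (fun i _ => ?_)
      push_cast
      exact one_div_le_one_div_of_le (hM i) (le_mul_of_one_le_left (hM i).le hKr)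
    have h4 : ∏ i, ((K * (P i).M (j i) : ℕ) : ℝ) ^ d =
        (K : ℝ) ^ (k * d) * ∏ i, ((P i).M (j i) : ℝ) ^ d := by
      push_cast
      simp only [mul_pow]
      rw [Finset.prod_mul_distrib, Finset.prod_const, Finset.card_univ, Fintype.card_fin,
        ← pow_mul, mul_comm d k]
    have h5 : (∏ i, (((P i).M (j i) : ℝ) / N) ^ d) =
        (∏ i, ((P i).M (j i) : ℝ) ^ d) * ∏ _i : Fin k, (1 / (N : ℝ) ^ d) := by
      rw [← Finset.prod_mul_distrib]
      refine Finset.prod_congr rfl (fun i _ => ?_)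
      rw [div_pow, mul_one_div]
    have hA : 0 ≤ ∏ i, ((P i).M (j i) : ℝ) ^ d := Finset.prod_nonneg fun _ _ => by positivity
    have hS0 : 0 ≤ ∑ i, 1 / ((K * (P i).M (j i) : ℕ) : ℝ) :=
      Finset.sum_nonneg fun _ _ => by positivity
    have hX : 0 ≤ R * h.totalDegree * ((K : ℝ) ^ (k * d) * ∏ i, ((P i).M (j i) : ℝ) ^ d) := by
      positivity
    rw [h4]
    calc (∏ i, ((K * (2 * (P i).s) : ℕ) : ℝ)) * (R * h.totalDegree *
          ((K : ℝ) ^ (k * d) * ∏ i, ((P i).M (j i) : ℝ) ^ d) *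
          ∑ i, 1 / ((K * (P i).M (j i) : ℕ) : ℝ))
        ≤ ((2 * K : ℝ) ^ k * PL * ∏ _i : Fin k, (1 / (N : ℝ) ^ d)) * (R * h.totalDegree *
          ((K : ℝ) ^ (k * d) * ∏ i, ((P i).M (j i) : ℝ) ^ d) *
          ∑ l, 1 / ((P l).M (j l) : ℝ)) := by
          refine mul_le_mul h2 (mul_le_mul_of_nonneg_left h3 hX) (mul_nonneg hX hS0) ?_
          exact mul_nonneg (by positivity) (Finset.prod_nonneg fun _ _ => by positivity)
      _ = _ := by rw [h5]; ring
  refine (Finset.sum_le_sum (fun j _ => h1 j)).trans ?_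
  rw [← Finset.mul_sum]
  have h6 := sum_levels (K := K) hd hN (fun i => (P i).J) (fun i => (P i).M)
    (fun i => (P i).M_pos) (fun i => (P i).M_le) (fun i => (P i).sum)
  refine (mul_le_mul_of_nonneg_left h6 (by positivity)).trans (le_of_eq ?_)
  ring

end one

end Frac

open Classical in
theorem frac_le (d k K T₀ : ℕ) (hd : 1 ≤ d) (hk : 1 ≤ k) (hK : 1 ≤ K) (hT : 1 ≤ T₀) :
    ∃ C₁ : ℝ, 0 < C₁ ∧ ∀ (N : ℕ) (_ : 1 ≤ N) (L : Fin k → Type) [∀ i, Fintype (L i)]
      (y : ∀ i, L i → Fin d → ℝ) (P : ∀ i, Leveled (y i) N (T₀ * N ^ d) K)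
      (h : MvPolynomial (Fin k × Fin d) ℝ),
      ((Finset.univ.filter fun a : ∀ i, L i => ∃ b c : ∀ i, L i,
          (∀ i, (P i).part (b i) = (P i).part (a i)) ∧
          (∀ i, (P i).part (c i) = (P i).part (a i)) ∧
          eval (unc fun i => y i (b i)) h < 0 ∧ 0 < eval (unc fun i => y i (c i)) h).card : ℝ) ≤
        C₁ * h.totalDegree / N * ∏ i, (Fintype.card (L i) : ℝ) := by
  refine ⟨Frac.CC d k K, ?_, ?_⟩
  · unfold Frac.CC
    have hkr : (1 : ℝ) ≤ k := by exact_mod_cast hk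
    have hKr : (1 : ℝ) ≤ K := by exact_mod_cast hK
    positivity
  · intro N hN L _ y P h
    by_cases hD0 : h.totalDegree = 0
    · have hc := (totalDegree_eq_zero_iff_eq_C).1 hD0
      have hempty : (Finset.univ.filter fun a : ∀ i, L i => ∃ b c : ∀ i, L i,
          (∀ i, (P i).part (b i) = (P i).part (a i)) ∧
          (∀ i, (P i).part (c i) = (P i).part (a i)) ∧
          eval (unc fun i => y i (b i)) h < 0 ∧ 0 < eval (unc fun i => y i (c i)) h) = ∅ := by
        rw [Finset.filter_eq_empty_iff]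
        rintro a _ ⟨b, c, _, _, h1, h2⟩
        rw [hc, eval_C] at h1 h2
        linarith
      rw [hempty, hD0]
      simp
    · have hD : 1 ≤ h.totalDegree := Nat.one_le_iff_ne_zero.2 hD0
      have hsub : (Finset.univ.filter fun a : ∀ i, L i => ∃ b c : ∀ i, L i,
          (∀ i, (P i).part (b i) = (P i).part (a i)) ∧
          (∀ i, (P i).part (c i) = (P i).part (a i)) ∧
          eval (unc fun i => y i (b i)) h < 0 ∧ 0 < eval (unc fun i => y i (c i)) h) ⊆
          (Finset.univ.biUnion fun i => Finset.univ.filter fun a : ∀ i, L i =>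
            (P i).lev ((P i).part (a i)) = none) ∪
          (Finset.univ.biUnion fun j : ∀ i, Fin (P i).J => Finset.univ.filter fun a : ∀ i, L i =>
            (∀ i, (P i).lev ((P i).part (a i)) = some (j i)) ∧ Frac.Crossing P h a) := by
        intro a ha
        rw [Finset.mem_filter] at ha
        rw [Finset.mem_union, Finset.mem_biUnion, Finset.mem_biUnion]
        by_cases hnone : ∃ i, (P i).lev ((P i).part (a i)) = none
        · obtain ⟨i, hi⟩ := hnone
          left
          exact ⟨i, Finset.mem_univ _, Finset.mem_filter.2 ⟨Finset.mem_univ _, hi⟩⟩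
        · right
          push Not at hnone
          have h1 : ∀ i, ∃ j, (P i).lev ((P i).part (a i)) = some j := fun i =>
            Option.ne_none_iff_exists'.1 (hnone i)
          choose j hj using h1
          exact ⟨j, Finset.mem_univ _, Finset.mem_filter.2 ⟨Finset.mem_univ _, hj, ha.2⟩⟩
      have h1 := (Finset.card_le_card hsub).trans (Finset.card_union_le _ _)
      have h2 := h1.trans (Nat.add_le_add Finset.card_biUnion_le Finset.card_biUnion_le)
      have h3 : (((Finset.univ.filter fun a : ∀ i, L i => ∃ b c : ∀ i, L i,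
          (∀ i, (P i).part (b i) = (P i).part (a i)) ∧
          (∀ i, (P i).part (c i) = (P i).part (a i)) ∧
          eval (unc fun i => y i (b i)) h < 0 ∧
          0 < eval (unc fun i => y i (c i)) h).card : ℕ) : ℝ) ≤ _ := Nat.cast_le.2 h2
      refine h3.trans ?_
      push_cast
      have h4 : ∑ i, ((Finset.univ.filter fun a : ∀ i, L i =>
            (P i).lev ((P i).part (a i)) = none).card : ℝ) ≤
          k * (K / N * ∏ l, (Fintype.card (L l) : ℝ)) := by
        refine (Finset.sum_le_sum (fun i _ => Frac.none_bound hN P i)).trans (le_of_eq ?_)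
        rw [Finset.sum_const, Finset.card_univ, Fintype.card_fin, nsmul_eq_mul]
      have h5 := Frac.level_sum hd hk hK hN hT P h hD
      have hPL0 : 0 ≤ ∏ i, (Fintype.card (L i) : ℝ) :=
        Finset.prod_nonneg fun _ _ => Nat.cast_nonneg _
      have hNr : (0 : ℝ) < N := by exact_mod_cast hN
      have hDr : (1 : ℝ) ≤ h.totalDegree := by exact_mod_cast hD
      have h6 : k * (K / N * ∏ l, (Fintype.card (L l) : ℝ)) ≤
          (k * K) * h.totalDegree / N * ∏ i, (Fintype.card (L i) : ℝ) := by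
        have : k * (K / N * ∏ l, (Fintype.card (L l) : ℝ)) =
          (k * K) / N * (∏ i, (Fintype.card (L i) : ℝ)) * 1 := by ring
        rw [this]
        have h7 := mul_le_mul_of_nonneg_left hDr (by positivity :
          (0 : ℝ) ≤ (k * K) / N * (∏ i, (Fintype.card (L i) : ℝ)))
        refine h7.trans (le_of_eq ?_)
        ring
      unfold Frac.CC
      have h8 := add_le_add (h4.trans h6) h5
      refine h8.trans (le_of_eq ?_)
      ring

end Pool.Agent.SAP
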