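import Pool.Agent.SAP.Defs

set_option autoImplicit false

namespace Pool.Agent.SAP

open MvPolynomial

namespace GEN

/-- the determinant as a polynomial in the coordinates -/
noncomputable def detp {L : Type} {d : ℕ} (N : ℕ) (φ : (Fin d → Fin N) → L) :
    MvPolynomial (L × Fin d) ℝ :=
  (Matrix.of fun β β' : Fin d → Fin N =>
    ∏ c, (X (φ β, c) : MvPolynomial (L × Fin d) ℝ) ^ (β' c : ℕ)).det

theorem eval_detp {L : Type} {d : ℕ} (N : ℕ) (φ : (Fin d → Fin N) → L) (y : L × Fin d → ℝ) :
    eval y (detp N φ) =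
      (Matrix.of fun β β' : Fin d → Fin N => ∏ c, y (φ β, c) ^ (β' c : ℕ)).det := by
  unfold detp
  rw [RingHom.map_det]
  congr 1
  ext β β'
  simp [Matrix.of_apply]

/-- exponent vector -/
noncomputable def ex {d N : ℕ} (β : Fin d → Fin N) : Fin d →₀ ℕ :=
  Finsupp.equivFunOnFinite.symm fun c => (β c : ℕ)

theorem ex_apply {d N : ℕ} (β : Fin d → Fin N) (c : Fin d) : ex β c = (β c : ℕ) := rfl

theorem ex_inj {d N : ℕ} : Function.Injective (ex : (Fin d → Fin N) → (Fin d →₀ ℕ)) := by
  intro β β' h
  funext c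
  have := DFunLike.congr_fun h c
  rw [ex_apply, ex_apply] at this
  exact Fin.ext this

theorem grid_det (d N : ℕ) :
    (Matrix.of fun β β' : Fin d → Fin N => ∏ c, (((β c : ℕ) : ℝ)) ^ (β' c : ℕ)).det ≠ 0 := by
  classical
  intro h
  obtain ⟨v, hv0, hv⟩ := Matrix.exists_mulVec_eq_zero_iff.2 h
  apply hv0
  set P : MvPolynomial (Fin d) ℝ := ∑ β : Fin d → Fin N, monomial (ex β) (v β) with hP
  have hcoeff : ∀ β, coeff (ex β) P = v β := by
    intro β
    rw [hP, coeff_sum]
    rw [Finset.sum_eq_single β]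
    · simp
    · intro b _ hb
      rw [coeff_monomial, if_neg (fun h => hb (ex_inj h))]
    · intro hb
      exact absurd (Finset.mem_univ _) hb
  have hsupp : ∀ m ∈ P.support, ∃ β : Fin d → Fin N, m = ex β := by
    intro m hm
    by_contra hne
    push Not at hne
    rw [mem_support_iff] at hm
    apply hm
    rw [hP, coeff_sum]
    refine Finset.sum_eq_zero fun β _ => ?_
    rw [coeff_monomial, if_neg (fun h => hne β h.symm)]
  have hP0 : P = 0 := by
    refine eq_zero_of_eval_zero_at_prod_finset P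
      (fun _ => Finset.univ.image fun a : Fin N => ((a : ℕ) : ℝ)) ?_ ?_
    · intro i
      have hcard : (Finset.univ.image fun a : Fin N => ((a : ℕ) : ℝ)).card = N := by
        rw [Finset.card_image_of_injective]
        · simp
        · intro a b hab
          have hab' : ((a : ℕ) : ℝ) = ((b : ℕ) : ℝ) := hab
          exact Fin.ext (by exact_mod_cast hab')
      rw [hcard]
      obtain ⟨β₀, _⟩ : ∃ β : Fin d → Fin N, v β ≠ 0 := by
        by_contra hcon
        push Not at hcon
        exact hv0 (funext hcon)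
      have hN : 0 < N := lt_of_le_of_lt (Nat.zero_le _) (β₀ i).2
      rw [degreeOf_lt_iff hN]
      intro m hm
      obtain ⟨β, rfl⟩ := hsupp m hm
      rw [ex_apply]
      exact (β i).2
    · intro x hx
      have hx' : ∀ i, ∃ a : Fin N, ((a : ℕ) : ℝ) = x i := by
        intro i
        simpa using hx i
      choose β hβ using hx'
      have h1 := congrFun hv β
      rw [hP, map_sum]
      simp only [eval_monomial]
      rw [Matrix.mulVec, dotProduct] at h1
      simp only [Matrix.of_apply, Pi.zero_apply] at h1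
      rw [← h1]
      refine Finset.sum_congr rfl fun β' _ => ?_
      rw [Finsupp.prod_fintype _ _ (fun i => pow_zero _), mul_comm]
      congr 1
      refine Finset.prod_congr rfl fun c _ => ?_
      rw [ex_apply, hβ]
  funext β
  rw [← hcoeff β, hP0]
  simp

theorem detp_ne_zero {L : Type} {d : ℕ} (N : ℕ) (φ : (Fin d → Fin N) → L)
    (hφ : Function.Injective φ) : detp N φ ≠ 0 := by
  intro h
  have h1 := eval_detp N φ
    (fun q => Function.extend φ (fun β c => (((β c : ℕ) : ℝ))) (fun _ _ => 0) q.1 q.2)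
  rw [h, map_zero] at h1
  simp only [hφ.extend_apply] at h1
  exact grid_det d N h1.symm

/-- a nonzero polynomial does not vanish on a ball -/
theorem dense_ne {σ : Type} [Fintype σ] (Q : MvPolynomial σ ℝ) (hQ : Q ≠ 0) (x : σ → ℝ) (r : ℝ)
    (hr : 0 < r) : ∃ z : σ → ℝ, dist z x < r ∧ eval z Q ≠ 0 := by
  by_contra hcon
  push Not at hcon
  apply hQ
  refine funext_set (fun i => Set.Ioo (x i - r) (x i + r)) (fun i => Set.Ioo_infinite (by linarith))
    fun z hz => ?_
  rw [map_zero]
  apply hcon
  rw [dist_pi_lt_iff hr]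
  intro i
  have := hz i (Set.mem_univ i)
  rw [Real.dist_eq, abs_lt]
  constructor
  · linarith [this.1]
  · linarith [this.2]

end GEN

theorem dense_gp (L : Type) [Finite L] (d : ℕ) : Dense {y : L → Fin d → ℝ | GP y} := by
  classical
  have := Fintype.ofFinite L
  rcases Nat.eq_zero_or_pos d with hd | hd
  · subst hd
    have : {y : L → Fin 0 → ℝ | GP y} = Set.univ := by
      rw [Set.eq_univ_iff_forall]
      intro y N φ _
      have : (Matrix.of fun β β' : Fin 0 → Fin N => ∏ c, y (φ β) c ^ (β' c : ℕ)) = 1 := by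
        ext β β'
        rw [Subsingleton.elim β' β]
        simp
      rw [this, Matrix.det_one]
      exact one_ne_zero
    rw [this]
    exact dense_univ
  set Q : MvPolynomial (L × Fin d) ℝ := ∏ N ∈ Finset.range (Fintype.card L + 1),
    ∏ φ ∈ (Finset.univ.filter fun φ : (Fin d → Fin N) → L => Function.Injective φ),
      GEN.detp N φ with hQ
  have hQ0 : Q ≠ 0 := by
    rw [hQ, Finset.prod_ne_zero_iff]
    intro N _
    rw [Finset.prod_ne_zero_iff]
    intro φ hφ
    exact GEN.detp_ne_zero N φ (Finset.mem_filter.1 hφ).2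
  rw [Metric.dense_iff]
  intro x r hr
  obtain ⟨z, hz1, hz2⟩ := GEN.dense_ne Q hQ0 (fun q => x q.1 q.2) r hr
  refine ⟨fun a c => z (a, c), ?_, ?_⟩
  · rw [Metric.mem_ball, dist_pi_lt_iff hr]
    intro a
    rw [dist_pi_lt_iff hr]
    intro c
    rw [dist_pi_lt_iff hr] at hz1
    exact hz1 (a, c)
  · intro N φ hφ
    have hN : N ∈ Finset.range (Fintype.card L + 1) := by
      rw [Finset.mem_range, Nat.lt_succ_iff]
      have h1 := Fintype.card_le_of_injective φ hφ
      have h2 : Fintype.card (Fin d → Fin N) = N ^ d := by simp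
      rw [h2] at h1
      exact (Nat.le_self_pow hd.ne' N).trans h1
    rw [hQ, map_prod, Finset.prod_ne_zero_iff] at hz2
    have h3 := hz2 N hN
    rw [map_prod, Finset.prod_ne_zero_iff] at h3
    have h4 := h3 φ (Finset.mem_filter.2 ⟨Finset.mem_univ _, hφ⟩)
    rw [GEN.eval_detp] at h4
    exact h4

end Pool.Agent.SAP
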