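import Pool.Agent.SAP.STEP

/-! # Iteration of the partitioning step -/

set_option autoImplicit false

namespace Pool.Agent.SAP

open MvPolynomial

namespace LEV

open Classical in
/-- partial levelled partition of a set `X` of labels into `T` parts -/
structure Pre {L : Type} [Fintype L] {d : ℕ} (y : L → Fin d → ℝ) (N s K : ℕ) (X : Finset L)
    (T : ℕ) where
  part : L → ℕ
  part_lt : ∀ a ∈ X, part a < T
  fib : ∀ t, t < T → s ≤ (X.filter fun a => part a = t).card ∧
    (X.filter fun a => part a = t).card ≤ s + 1
  J : ℕ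
  M : Fin J → ℕ
  M_pos : ∀ j, 1 ≤ M j
  M_le : ∀ j, M j ≤ N
  F : Fin J → MvPolynomial (Fin d) ℝ
  deg : ∀ j, (F j).totalDegree ≤ K * M j
  lev : ℕ → Option (Fin J)
  none_card : (X.filter fun a => lev (part a) = none).card * N ^ d ≤ Fintype.card L
  ne : ∀ j, ∀ a ∈ X, lev (part a) = some j → eval (y a) (F j) ≠ 0
  bdd : ∀ j, ∀ a ∈ X, lev (part a) = some j → Bornology.IsBounded (cell (F j) (y a))
  same : ∀ j, ∀ a ∈ X, ∀ b ∈ X, part a = part b → lev (part a) = some j →
    y b ∈ cell (F j) (y a)
  few : ∀ j, ∀ a ∈ X, lev (part a) = some j → ((Finset.range T).filter fun t => lev t = some j ∧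
    ∃ b ∈ X, part b = t ∧ y b ∈ cell (F j) (y a)).card ≤ K
  sum : (∑ j, (M j : ℝ) ^ (d - 1)) ≤
    4 * ((N : ℝ) ^ d * X.card / Fintype.card L) ^ (((d : ℝ) - 1) / d)

/-- cutting a set into parts -/
theorem exists_parts {L : Type} [DecidableEq L] (s : ℕ) (T : ℕ) : ∀ (b₁ b₀ : ℕ) (_ : b₁ + b₀ = T)
    (X : Finset L) (_ : X.card = b₁ * (s + 1) + b₀ * s),
    ∃ part : L → ℕ, (∀ a ∈ X, part a < T) ∧
      ∀ t, t < T → s ≤ (X.filter fun a => part a = t).card ∧
        (X.filter fun a => part a = t).card ≤ s + 1 := by
  induction T with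
  | zero =>
    intro b₁ b₀ hb X hX
    have h1 : b₁ = 0 := by omega
    have h2 : b₀ = 0 := by omega
    subst h1 h2
    simp at hX
    subst hX
    exact ⟨fun _ => 0, by simp, by simp⟩
  | succ T ih =>
    intro b₁ b₀ hb X hX
    obtain ⟨b₁', b₀', hb', Z, hZX, hZ, hZ'⟩ : ∃ (b₁' b₀' : ℕ) (_ : b₁' + b₀' = T) (Z : Finset L),
        Z ⊆ X ∧ (s ≤ Z.card ∧ Z.card ≤ s + 1) ∧
          (X \ Z).card = b₁' * (s + 1) + b₀' * s := by
      rcases Nat.eq_zero_or_pos b₁ with h0 | h0
      · subst h0
        obtain ⟨Z, hZX, hZ⟩ := Finset.exists_subset_card_eq (s := X) (n := s) (by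
          rw [hX]
          have : 1 ≤ b₀ := by omega
          nlinarith)
        refine ⟨0, T, by omega, Z, hZX, by omega, ?_⟩
        rw [Finset.card_sdiff_of_subset hZX, hX, hZ]
        have : b₀ = T + 1 := by omega
        subst this
        rw [Nat.sub_eq_iff_eq_add (by nlinarith)]
        ring
      · obtain ⟨b, rfl⟩ : ∃ b, b₁ = b + 1 := ⟨b₁ - 1, by omega⟩
        obtain ⟨Z, hZX, hZ⟩ := Finset.exists_subset_card_eq (s := X) (n := s + 1) (by
          rw [hX]
          nlinarith [Nat.zero_le (b * (s + 1)), Nat.zero_le (b₀ * s)])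
        refine ⟨b, b₀, by omega, Z, hZX, by omega, ?_⟩
        rw [Finset.card_sdiff_of_subset hZX, hX, hZ]
        rw [Nat.sub_eq_iff_eq_add (by nlinarith [Nat.zero_le (b * (s + 1)), Nat.zero_le (b₀ * s)])]
        ring
    obtain ⟨part, h1, h2⟩ := ih b₁' b₀' hb' (X \ Z) hZ'
    refine ⟨fun a => if a ∈ Z then T else part a, ?_, ?_⟩
    · intro a ha
      simp only
      split_ifs with haZ
      · omega
      · have := h1 a (by simp [ha, haZ])
        omega
    · intro t ht
      rcases Nat.lt_or_ge t T with h | h
      · have e : (X.filter fun a => (if a ∈ Z then T else part a) = t) =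
            (X \ Z).filter fun a => part a = t := by
          ext a
          simp only [Finset.mem_filter, Finset.mem_sdiff]
          constructor
          · rintro ⟨h3, h4⟩
            split_ifs at h4 with h5
            · omega
            · exact ⟨⟨h3, h5⟩, h4⟩
          · rintro ⟨⟨h3, h4⟩, h5⟩
            exact ⟨h3, by rw [if_neg h4]; exact h5⟩
        rw [e]
        exact h2 t h
      · have ht' : t = T := by omega
        subst ht'
        have e : (X.filter fun a => (if a ∈ Z then t else part a) = t) = Z := by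
          ext a
          simp only [Finset.mem_filter]
          constructor
          · rintro ⟨h3, h4⟩
            split_ifs at h4 with h5
            · exact h5
            · have := h1 a (by simp [h3, h5])
              omega
          · intro h3
            exact ⟨hZX h3, by rw [if_pos h3]⟩
        rw [e]
        exact hZ

/-- the geometric sum -/
theorem geom_bound {d : ℕ} (hd : 2 ≤ d) {q q' m : ℝ} (hm : 0 ≤ m) (hq' : 0 ≤ q')
    (h1 : m ^ d ≤ q) (h2 : 2 * q' ≤ q) :
    m ^ (d - 1) + 4 * q' ^ (((d : ℝ) - 1) / d) ≤ 4 * q ^ (((d : ℝ) - 1) / d) := by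
  have hd0 : (0 : ℝ) < d := by positivity
  have hd2 : (2 : ℝ) ≤ d := by exact_mod_cast hd
  have hq : 0 ≤ q := by linarith
  set α : ℝ := ((d : ℝ) - 1) / d with hα
  have hα0 : 0 ≤ α := by
    rw [hα]
    apply div_nonneg _ hd0.le
    linarith
  have hαh : 1 / 2 ≤ α := by
    rw [hα, le_div_iff₀ hd0]
    linarith
  have e1 : m ^ (d - 1) ≤ q ^ α := by
    have e2 : m ^ (d - 1) = (m ^ d) ^ α := by
      rw [← Real.rpow_natCast m d, ← Real.rpow_mul hm, hα, mul_div_cancel₀ _ hd0.ne',
        ← Real.rpow_natCast]
      congr 1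
      rw [Nat.cast_sub (by omega)]
      simp
    rw [e2]
    exact Real.rpow_le_rpow (by positivity) h1 hα0
  have e3 : q' ^ α ≤ (3 / 4) * q ^ α := by
    calc q' ^ α ≤ ((1 / 2) * q) ^ α := Real.rpow_le_rpow hq' (by linarith) hα0
      _ = (1 / 2) ^ α * q ^ α := Real.mul_rpow (by norm_num) hq
      _ ≤ (3 / 4) * q ^ α := by
        apply mul_le_mul_of_nonneg_right _ (Real.rpow_nonneg hq _)
        calc (1 / 2 : ℝ) ^ α ≤ (1 / 2 : ℝ) ^ (1 / 2 : ℝ) :=
              Real.rpow_le_rpow_of_exponent_ge (by norm_num) (by norm_num) hαh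
          _ = Real.sqrt (1 / 2) := (Real.sqrt_eq_rpow _).symm
          _ ≤ 3 / 4 := by
            rw [Real.sqrt_le_left (by norm_num)]
            norm_num
  linarith

open Classical in
/-- adding one level -/
theorem merge {L : Type} [Fintype L] {d : ℕ} (hd : 2 ≤ d) {y : L → Fin d → ℝ} {N s K : ℕ}
    {X Y : Finset L} (hYX : Y ⊆ X) {T n T' : ℕ} (hT : T = n + T') (Q : Pre y N s K (X \ Y) T')
    (M : ℕ) (hM1 : 1 ≤ M) (hMN : M ≤ N) (hM : M ^ d * Fintype.card L ≤ N ^ d * X.card)
    (hL : 0 < Fintype.card L) (F : MvPolynomial (Fin d) ℝ) (part : L → ℕ)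
    (hdeg : F.totalDegree ≤ K * M) (hpart : ∀ a ∈ Y, part a < n)
    (hfib : ∀ t, t < n → s ≤ (Y.filter fun a => part a = t).card ∧
      (Y.filter fun a => part a = t).card ≤ s + 1)
    (hne : ∀ a ∈ Y, eval (y a) F ≠ 0) (hbd : ∀ a ∈ Y, Bornology.IsBounded (cell F (y a)))
    (hsame : ∀ a ∈ Y, ∀ b ∈ Y, part a = part b → y b ∈ cell F (y a))
    (hfew : ∀ a ∈ Y, ((Finset.range n).filter fun t =>
      ∃ b ∈ Y, part b = t ∧ y b ∈ cell F (y a)).card ≤ K)
    (hhalf : 2 * (X \ Y).card ≤ X.card) : Nonempty (Pre y N s K X T) := by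
  have hlevpart : ∀ a ∈ Y, (if a ∈ Y then part a else n + Q.part a) = part a := by
    intro a ha
    rw [if_pos ha]
  refine ⟨{ part := fun a => if a ∈ Y then part a else n + Q.part a
            part_lt := ?_
            fib := ?_
            J := Q.J + 1
            M := Fin.cons M Q.M
            M_pos := ?_
            M_le := ?_
            F := Fin.cons F Q.F
            deg := ?_
            lev := fun t => if t < n then some 0 else (Q.lev (t - n)).map Fin.succ
            none_card := ?_
            ne := ?_
            bdd := ?_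
            same := ?_
            few := ?_
            sum := ?_ }⟩
  · intro a ha
    split_ifs with h
    · have := hpart a h
      omega
    · have := Q.part_lt a (by simp [ha, h])
      omega
  · intro t ht
    rcases Nat.lt_or_ge t n with h | h
    · have e : (X.filter fun a => (if a ∈ Y then part a else n + Q.part a) = t) =
          Y.filter fun a => part a = t := by
        ext a
        simp only [Finset.mem_filter]
        constructor
        · rintro ⟨h3, h4⟩
          split_ifs at h4 with h5
          · exact ⟨h5, h4⟩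
          · omega
        · rintro ⟨h3, h4⟩
          exact ⟨hYX h3, by rw [if_pos h3]; exact h4⟩
      rw [e]
      exact hfib t h
    · have e : (X.filter fun a => (if a ∈ Y then part a else n + Q.part a) = t) =
          (X \ Y).filter fun a => Q.part a = t - n := by
        ext a
        simp only [Finset.mem_filter, Finset.mem_sdiff]
        constructor
        · rintro ⟨h3, h4⟩
          split_ifs at h4 with h5
          · have := hpart a h5
            omega
          · exact ⟨⟨h3, h5⟩, by omega⟩
        · rintro ⟨⟨h3, h4⟩, h5⟩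
          exact ⟨h3, by rw [if_neg h4]; omega⟩
      rw [e]
      exact Q.fib (t - n) (by omega)
  · intro j
    refine Fin.cases ?_ (fun j => ?_) j
    · exact hM1
    · exact Q.M_pos j
  · intro j
    refine Fin.cases ?_ (fun j => ?_) j
    · exact hMN
    · exact Q.M_le j
  · intro j
    refine Fin.cases ?_ (fun j => ?_) j
    · exact hdeg
    · exact Q.deg j
  · refine le_trans (Nat.mul_le_mul_right _ (Finset.card_le_card ?_)) Q.none_card
    intro a ha
    simp only [Finset.mem_filter, Finset.mem_sdiff] at ha ⊢
    obtain ⟨h1, h2⟩ := ha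
    by_cases h3 : a ∈ Y
    · rw [if_pos h3, if_pos (hpart a h3)] at h2
      exact absurd h2 (by simp)
    · rw [if_neg h3, if_neg (by omega)] at h2
      refine ⟨⟨h1, h3⟩, ?_⟩
      rw [Nat.add_sub_cancel_left] at h2
      simpa using h2
  · intro j a ha
    by_cases h3 : a ∈ Y
    · rw [if_pos h3, if_pos (hpart a h3)]
      intro h4
      have h5 : j = 0 := by simpa using h4.symm
      subst h5
      exact hne a h3
    · rw [if_neg h3, if_neg (by omega), Nat.add_sub_cancel_left]
      intro h4
      rw [Option.map_eq_some_iff] at h4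
      obtain ⟨j', h5, rfl⟩ := h4
      exact Q.ne j' a (by simp [ha, h3]) h5
  · intro j a ha
    by_cases h3 : a ∈ Y
    · rw [if_pos h3, if_pos (hpart a h3)]
      intro h4
      have h5 : j = 0 := by simpa using h4.symm
      subst h5
      exact hbd a h3
    · rw [if_neg h3, if_neg (by omega), Nat.add_sub_cancel_left]
      intro h4
      rw [Option.map_eq_some_iff] at h4
      obtain ⟨j', h5, rfl⟩ := h4
      exact Q.bdd j' a (by simp [ha, h3]) h5
  · intro j a ha b hb hab
    by_cases h3 : a ∈ Y
    · have hpa := hpart a h3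
      rw [if_pos h3] at hab
      rw [if_pos h3, if_pos hpa]
      intro h4
      have h5 : j = 0 := by simpa using h4.symm
      subst h5
      have h6 : b ∈ Y := by
        by_contra h6
        rw [if_neg h6] at hab
        omega
      rw [if_pos h6] at hab
      exact hsame a h3 b h6 hab
    · rw [if_neg h3] at hab
      rw [if_neg h3, if_neg (by omega), Nat.add_sub_cancel_left]
      intro h4
      rw [Option.map_eq_some_iff] at h4
      obtain ⟨j', h5, rfl⟩ := h4
      have h6 : b ∉ Y := by
        intro h6
        rw [if_pos h6] at hab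
        have := hpart b h6
        omega
      rw [if_neg h6] at hab
      exact Q.same j' a (by simp [ha, h3]) b (by simp [hb, h6]) (by omega) h5
  · intro j a ha
    by_cases h3 : a ∈ Y
    · rw [if_pos h3, if_pos (hpart a h3)]
      intro h4
      have h5 : j = 0 := by simpa using h4.symm
      subst h5
      refine le_trans (Finset.card_le_card ?_) (hfew a h3)
      intro t ht
      simp only [Finset.mem_filter, Finset.mem_range] at ht ⊢
      obtain ⟨ht1, ht2, b, hb, hb2, hb3⟩ := ht
      have ht3 : t < n := by
        by_contra h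
        rw [if_neg h, Option.map_eq_some_iff] at ht2
        obtain ⟨j', -, h7⟩ := ht2
        exact absurd h7 (Fin.succ_ne_zero j')
      refine ⟨ht3, b, ?_⟩
      have h6 : b ∈ Y := by
        by_contra h6
        rw [if_neg h6] at hb2
        omega
      rw [if_pos h6] at hb2
      exact ⟨h6, hb2, hb3⟩
    · rw [if_neg h3, if_neg (by omega), Nat.add_sub_cancel_left]
      intro h4
      rw [Option.map_eq_some_iff] at h4
      obtain ⟨j', h5, rfl⟩ := h4
      refine le_trans ?_ (Q.few j' a (by simp [ha, h3]) h5)
      refine Finset.card_le_card_of_injOn (fun t => t - n) ?_ ?_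
      · intro t ht
        simp only [Finset.coe_filter, Finset.mem_range, Set.mem_ofPred_eq] at ht ⊢
        obtain ⟨ht1, ht2, b, hb, hb2, hb3⟩ := ht
        have ht3 : ¬ t < n := by
          intro h
          rw [if_pos h] at ht2
          have h7 : (0 : Fin (Q.J + 1)) = Fin.succ j' := by simpa using ht2
          exact absurd h7.symm (Fin.succ_ne_zero j')
        rw [if_neg ht3, Option.map_eq_some_iff] at ht2
        obtain ⟨j'', h7, h8⟩ := ht2
        have h9 : j'' = j' := Fin.succ_injective _ h8
        subst h9
        refine ⟨by omega, h7, b, ?_⟩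
        have h6 : b ∉ Y := by
          intro h6
          rw [if_pos h6] at hb2
          have := hpart b h6
          omega
        rw [if_neg h6] at hb2
        exact ⟨by simp [hb, h6], by omega, hb3⟩
      · intro t ht t' ht' h
        simp only [Finset.coe_filter, Finset.mem_range, Set.mem_ofPred_eq] at ht ht' h
        have h7 : ∀ t, (if t < n then some (0 : Fin (Q.J + 1)) else
            (Q.lev (t - n)).map Fin.succ) = some (Fin.succ j') → ¬ t < n := by
          intro t h8 h
          rw [if_pos h] at h8
          have h7 : (0 : Fin (Q.J + 1)) = Fin.succ j' := by simpa using h8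
          exact absurd h7.symm (Fin.succ_ne_zero j')
        have h8 := h7 t ht.2.1
        have h9 := h7 t' ht'.2.1
        omega
  · rw [Fin.sum_univ_succ]
    simp only [Fin.cons_zero, Fin.cons_succ]
    refine le_trans (add_le_add_right Q.sum _) ?_
    have hL' : (0 : ℝ) < Fintype.card L := by exact_mod_cast hL
    apply geom_bound hd (by positivity) (by positivity)
    · rw [le_div_iff₀ hL']
      exact_mod_cast hM
    · rw [← mul_div_assoc]
      apply div_le_div_of_nonneg_right _ hL'.le
      have h1 : (2 : ℝ) * (X \ Y).card ≤ X.card := by exact_mod_cast hhalf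
      nlinarith [pow_nonneg (Nat.cast_nonneg N : (0 : ℝ) ≤ (N : ℝ)) d]

open Classical in
theorem exists_pre {d : ℕ} (hd : 2 ≤ d) {K T₀ : ℕ}
    (hstep : ∀ {L : Type} [Fintype L] (y : L → Fin d → ℝ) (_ : GP y) (N s : ℕ) (_ : 1 ≤ N)
      (_ : 1 ≤ s)
      (_ : s * (T₀ * N ^ d) ≤ Fintype.card L) (_ : Fintype.card L < (s + 1) * (T₀ * N ^ d))
      (X : Finset L) (M : ℕ) (_ : 1 ≤ M) (_ : M ^ d * Fintype.card L ≤ N ^ d * X.card)
      (_ : N ^ d * X.card < (M + 1) ^ d * Fintype.card L)
      (b₁ b₀ : ℕ) (_ : X.card = b₁ * (s + 1) + b₀ * s),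
      ∃ (F : MvPolynomial (Fin d) ℝ) (Y : Finset L) (n₁ n₀ : ℕ) (part : L → ℕ),
        F.totalDegree ≤ K * M ∧ Y ⊆ X ∧ n₁ ≤ b₁ ∧ n₀ ≤ b₀ ∧
        (∀ a ∈ Y, part a < n₁ + n₀) ∧
        (∀ t, t < n₁ + n₀ → (Y.filter fun a => part a = t).card = if t < n₁ then s + 1 else s) ∧
        (∀ a ∈ Y, eval (y a) F ≠ 0) ∧ (∀ a ∈ Y, Bornology.IsBounded (cell F (y a))) ∧
        (∀ a ∈ Y, ∀ b ∈ Y, part a = part b → y b ∈ cell F (y a)) ∧
        (∀ a ∈ Y, ((Finset.range (n₁ + n₀)).filter fun t =>
          ∃ b ∈ Y, part b = t ∧ y b ∈ cell F (y a)).card ≤ K) ∧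
        2 * (X \ Y).card ≤ X.card)
    {L : Type} [Fintype L] (y : L → Fin d → ℝ) (hy : GP y) (N s : ℕ) (hN : 1 ≤ N) (hs : 1 ≤ s)
    (h1 : s * (T₀ * N ^ d) ≤ Fintype.card L) (h2 : Fintype.card L < (s + 1) * (T₀ * N ^ d))
    (hL : 0 < Fintype.card L) (n : ℕ) :
    ∀ (X : Finset L) (_ : X.card < n) (b₁ b₀ : ℕ) (_ : X.card = b₁ * (s + 1) + b₀ * s),
      Nonempty (Pre y N s K X (b₁ + b₀)) := by
  induction n with
  | zero => intro X hX; omega
  | succ n ih =>
    intro X hX b₁ b₀ hb
    rcases Nat.lt_or_ge (N ^ d * X.card) (Fintype.card L) with hlt | hge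
    · -- terminal case
      obtain ⟨part, hp1, hp2⟩ := exists_parts s (b₁ + b₀) b₁ b₀ rfl X hb
      refine ⟨{ part := part
                part_lt := hp1
                fib := hp2
                J := 0
                M := Fin.elim0
                M_pos := fun j => j.elim0
                M_le := fun j => j.elim0
                F := Fin.elim0
                deg := fun j => j.elim0
                lev := fun _ => none
                none_card := ?_
                ne := fun j => j.elim0
                bdd := fun j => j.elim0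
                same := fun j => j.elim0
                few := fun j => j.elim0
                sum := ?_ }⟩
      · refine le_trans (Nat.mul_le_mul_right _ (Finset.card_filter_le _ _)) ?_
        rw [mul_comm]
        exact hlt.le
      · simp only [Finset.univ_eq_empty, Finset.sum_empty]
        positivity
    · -- a step
      set M := Nat.findGreatest (fun m => m ^ d * Fintype.card L ≤ N ^ d * X.card) N with hMdef
      have hM1 : 1 ≤ M := by
        apply Nat.le_findGreatest hN
        simpa using hge
      have hMN : M ≤ N := Nat.findGreatest_le N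
      have hMle : M ^ d * Fintype.card L ≤ N ^ d * X.card := by
        have := Nat.findGreatest_spec (P := fun m => m ^ d * Fintype.card L ≤ N ^ d * X.card)
          (m := 1) (n := N) hN (by simpa using hge)
        exact this
      have hMlt : N ^ d * X.card < (M + 1) ^ d * Fintype.card L := by
        rcases Nat.lt_or_ge M N with h3 | h3
        · have := Nat.findGreatest_is_greatest
            (P := fun m => m ^ d * Fintype.card L ≤ N ^ d * X.card) (n := N) (k := M + 1)
            (by rw [← hMdef]; omega) (by omega)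
          simpa using this
        · have h4 : M = N := le_antisymm hMN h3
          rw [h4]
          calc N ^ d * X.card ≤ N ^ d * Fintype.card L :=
                Nat.mul_le_mul_left _ (Finset.card_le_univ X)
            _ < (N + 1) ^ d * Fintype.card L :=
                Nat.mul_lt_mul_of_pos_right (Nat.pow_lt_pow_left (by omega) (by omega)) hL
      obtain ⟨F, Y, n₁, n₀, part, hdeg, hYX, hn1, hn0, hpart, hfib, hne, hbd, hsame, hfew, hhalf⟩ :=
        hstep y hy N s hN hs h1 h2 X M hM1 hMle hMlt b₁ b₀ hb
      have hYcard : Y.card = n₁ * (s + 1) + n₀ * s := by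
        have h3 : Y.card = ∑ t ∈ Finset.range (n₁ + n₀),
            (Y.filter fun a => part a = t).card := by
          apply Finset.card_eq_sum_card_fiberwise
          intro a ha
          simpa using hpart a ha
        rw [h3, Finset.sum_range_add]
        congr 1
        · rw [Finset.sum_congr rfl (g := fun _ => s + 1), Finset.sum_const, Finset.card_range,
            smul_eq_mul]
          intro t ht
          rw [Finset.mem_range] at ht
          rw [hfib t (by omega), if_pos ht]
        · rw [Finset.sum_congr rfl (g := fun _ => s), Finset.sum_const, Finset.card_range,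
            smul_eq_mul]
          intro t ht
          rw [Finset.mem_range] at ht
          rw [hfib (n₁ + t) (by omega), if_neg (by omega)]
      have hXY : (X \ Y).card = (b₁ - n₁) * (s + 1) + (b₀ - n₀) * s := by
        rw [Finset.card_sdiff_of_subset hYX, hb, hYcard]
        obtain ⟨c₁, rfl⟩ : ∃ c, b₁ = n₁ + c := ⟨b₁ - n₁, by omega⟩
        obtain ⟨c₀, rfl⟩ : ∃ c, b₀ = n₀ + c := ⟨b₀ - n₀, by omega⟩
        rw [Nat.add_sub_cancel_left, Nat.add_sub_cancel_left, Nat.sub_eq_iff_eq_add (by nlinarith)]
        ring
      have hXpos : 0 < X.card := by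
        by_contra h3
        have h4 : X.card = 0 := by omega
        rw [h4] at hge
        omega
      obtain ⟨Q⟩ := ih (X \ Y) (by omega) _ _ hXY
      refine merge hd hYX (n := n₁ + n₀) (T' := (b₁ - n₁) + (b₀ - n₀)) (by omega) Q M hM1 hMN hMle
        hL F part hdeg hpart ?_ hne hbd hsame hfew hhalf
      intro t ht
      rw [hfib t ht]
      split_ifs <;> omega

end LEV

theorem exists_leveled_two (d : ℕ) (hd : 2 ≤ d) : ∃ K T₀ : ℕ, 1 ≤ K ∧ 1 ≤ T₀ ∧
    ∀ {L : Type} [Fintype L] (y : L → Fin d → ℝ) (_ : GP y) (N : ℕ) (_ : 1 ≤ N)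
      (_ : T₀ * N ^ d ≤ Fintype.card L), Nonempty (Leveled y N (T₀ * N ^ d) K) := by
  classical
  obtain ⟨K, T₀, hK, hT₀, hstep⟩ := exists_step d (by omega)
  refine ⟨K + 4, T₀, by omega, hT₀, ?_⟩
  intro L _ y hy N hN hT
  set T := T₀ * N ^ d with hTdef
  have hTpos : 0 < T := by positivity
  have hL : 0 < Fintype.card L := lt_of_lt_of_le hTpos hT
  set s := Fintype.card L / T with hs
  have hs1 : 1 ≤ s := (Nat.one_le_div_iff hTpos).2 hT
  have h1 : s * T ≤ Fintype.card L := Nat.div_mul_le_self _ _
  have h2 : Fintype.card L < (s + 1) * T := by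
    rw [mul_comm]
    exact Nat.lt_mul_div_succ _ hTpos
  obtain ⟨Q⟩ := LEV.exists_pre hd hstep y hy N s hN hs1 h1 h2 hL (Fintype.card L + 1) Finset.univ
    (by rw [Finset.card_univ]; omega) (Fintype.card L % T) (T - Fintype.card L % T) (by
      rw [Finset.card_univ]
      have h3 := Nat.mod_lt (Fintype.card L) hTpos
      have h4 := Nat.div_add_mod (Fintype.card L) T
      rw [← hs] at h4
      obtain ⟨c, hc⟩ : ∃ c, T = Fintype.card L % T + c := ⟨T - Fintype.card L % T, by omega⟩
      have h5 : T - Fintype.card L % T = c := by omega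
      rw [h5]
      conv_lhs => rw [← h4]
      calc T * s + Fintype.card L % T = (Fintype.card L % T + c) * s + Fintype.card L % T := by
            rw [← hc]
        _ = _ := by ring)
  have h3 : Fintype.card L % T + (T - Fintype.card L % T) = T := by
    have := Nat.mod_lt (Fintype.card L) hTpos
    omega
  rw [h3] at Q
  have hd0 : (0 : ℝ) < d := by
    have : 0 < d := by omega
    exact_mod_cast this
  refine ⟨{ part := fun a => ⟨Q.part a, Q.part_lt a (Finset.mem_univ a)⟩
            s := s
            s_pos := hs1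
            fib := ?_
            J := Q.J
            M := Q.M
            M_pos := Q.M_pos
            M_le := Q.M_le
            F := Q.F
            deg := fun j => le_trans (Q.deg j) (Nat.mul_le_mul_right _ (by omega))
            lev := fun t => Q.lev t
            none_card := ?_
            ne := fun j a h => Q.ne j a (Finset.mem_univ a) h
            bdd := fun j a h => Q.bdd j a (Finset.mem_univ a) h
            same := ?_
            few := ?_
            sum := ?_ }⟩
  · intro t
    have e : (Finset.univ.filter fun a : L => (⟨Q.part a, Q.part_lt a (Finset.mem_univ a)⟩ : Fin T)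
        = t) = Finset.univ.filter fun a : L => Q.part a = t := by
      ext a
      simp [Fin.ext_iff]
    rw [e]
    exact Q.fib t t.2
  · calc (Finset.univ.filter fun a : L => Q.lev (Q.part a) = none).card * N
        ≤ (Finset.univ.filter fun a : L => Q.lev (Q.part a) = none).card * N ^ d :=
          Nat.mul_le_mul_left _ (Nat.le_self_pow (by omega) N)
      _ ≤ Fintype.card L := Q.none_card
      _ ≤ (K + 4) * Fintype.card L := Nat.le_mul_of_pos_left _ (by omega)
  · intro j a b hab h
    have hab' : Q.part a = Q.part b := congrArg Fin.val hab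
    exact Q.same j a (Finset.mem_univ a) b (Finset.mem_univ b) hab' h
  · intro j a h
    refine le_trans ?_ (le_trans (Q.few j a (Finset.mem_univ a) h) (by omega))
    refine Finset.card_le_card_of_injOn (fun t => (t : ℕ)) ?_ ?_
    · intro t ht
      simp only [Finset.coe_filter, Finset.mem_univ, true_and, Set.mem_ofPred_eq] at ht
      simp only [Finset.coe_filter, Finset.mem_range, Set.mem_ofPred_eq, Finset.mem_univ, true_and]
      obtain ⟨ht1, b, hb1, hb2⟩ := ht
      exact ⟨t.2, ht1, b, by rw [← hb1], hb2⟩
    · intro t _ t' _ h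
      exact Fin.ext h
  · have h4 := Q.sum
    rw [Finset.card_univ] at h4
    have hLr : (0 : ℝ) < Fintype.card L := by exact_mod_cast hL
    rw [mul_div_assoc, div_self hLr.ne', mul_one] at h4
    have h5 : ((N : ℝ) ^ d) ^ (((d : ℝ) - 1) / d) = (N : ℝ) ^ (d - 1) := by
      rw [← Real.rpow_natCast (N : ℝ) d, ← Real.rpow_mul (by positivity),
        mul_div_cancel₀ _ hd0.ne', ← Real.rpow_natCast]
      congr 1
      rw [Nat.cast_sub (by omega)]
      simp
    rw [h5] at h4
    have h6 : (∑ j, Q.M j ^ (d - 1)) ≤ 4 * N ^ (d - 1) := by exact_mod_cast h4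
    calc (∑ j, Q.M j ^ (d - 1)) ≤ 4 * N ^ (d - 1) := h6
      _ ≤ (K + 4) * N ^ (d - 1) := Nat.mul_le_mul_right _ (by omega)

end Pool.Agent.SAP
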