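import Pool.Agent.SAP.Defs
import Pool.Agent.SAP.CELL

/-! Leveled partitions in dimension one. -/

set_option autoImplicit false

namespace Pool.Agent.SAP

open MvPolynomial Filter Topology

namespace One

/-- points in general position on the line are distinct -/
theorem inj_of_gp {L : Type} (y : L → Fin 1 → ℝ) (hy : GP y) :
    Function.Injective fun a => y a 0 := by
  classical
  intro a b hab
  by_contra hne
  have hab' : y a = y b := by
    funext i
    have hi : i = 0 := Subsingleton.elim _ _
    rw [hi]; exact hab
  set φ : (Fin 1 → Fin 2) → L := fun β => if β 0 = 0 then a else b with hφ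
  have hφi : Function.Injective φ := by
    intro β γ h
    funext i
    have hi : i = 0 := Subsingleton.elim _ _
    rw [hi]
    by_cases h1 : β 0 = 0
    · by_cases h2 : γ 0 = 0
      · rw [h1, h2]
      · exfalso
        simp only [hφ, h1, h2, if_true, if_false] at h
        exact hne h
    · by_cases h2 : γ 0 = 0
      · exfalso
        simp only [hφ, h1, h2, if_true, if_false] at h
        exact hne h.symm
      · have e1 : β 0 = 1 := by omega
        have e2 : γ 0 = 1 := by omega
        rw [e1, e2]
  have hd := hy 2 φ hφi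
  apply hd
  have hne01 : (fun _ => 0 : Fin 1 → Fin 2) ≠ fun _ => 1 := by
    intro h
    have := congrFun h 0
    simp at this
  apply Matrix.det_zero_of_row_eq hne01
  funext β'
  have e1 : φ (fun _ => 0) = a := by simp [hφ]
  have e2 : φ (fun _ => 1) = b := by simp [hφ]
  simp only [Matrix.of_apply, e1, e2, hab']

/-- `n` indices in `N` consecutive blocks of sizes `n / N` or `n / N + 1` -/
theorem card_block (n N t : ℕ) (hN : 1 ≤ N) (hn : 1 ≤ n) (ht : t < N) :
    n / N ≤ ((Finset.range n).filter fun i => i * N / n = t).card ∧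
      ((Finset.range n).filter fun i => i * N / n = t).card ≤ n / N + 1 := by
  have key : ((Finset.range n).filter fun i => i * N / n = t) =
      Finset.Ico ((t * n + (N - 1)) / N) (((t + 1) * n + (N - 1)) / N) := by
    ext i
    simp only [Finset.mem_filter, Finset.mem_range, Finset.mem_Ico]
    constructor
    · rintro ⟨h1, h2⟩
      have h3 := Nat.div_add_mod (i * N) n
      have h4 := Nat.mod_lt (i * N) (show 0 < n by omega)
      rw [h2] at h3
      have h5 : t * n ≤ i * N := by rw [mul_comm t n]; omega
      have h6 : i * N < (t + 1) * n := by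
        have : (t + 1) * n = n * t + n := by ring
        omega
      constructor
      · rw [Nat.div_le_iff_le_mul_add_pred (by omega)]
        rw [mul_comm N i]
        omega
      · rw [Nat.lt_div_iff_mul_lt (by omega)] 
        omega
    · rintro ⟨h1, h2⟩
      rw [Nat.div_le_iff_le_mul_add_pred (by omega)] at h1
      rw [Nat.lt_div_iff_mul_lt (by omega)] at h2
      rw [mul_comm N i] at h1
      have h5 : t * n ≤ i * N := by omega
      have h6 : i * N < (t + 1) * n := by omega
      have h7 : i < n := by
        have : (t + 1) * n ≤ N * n := Nat.mul_le_mul_right n ht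
        have h8 : i * N < n * N := by rw [mul_comm n N]; omega
        exact Nat.lt_of_mul_lt_mul_right h8
      refine ⟨h7, ?_⟩
      rw [Nat.div_eq_iff (by omega)]
      constructor
      · omega
      · have : (t + 1) * n = t * n + n := by ring
        omega
  rw [key, Nat.card_Ico]
  have h1 : (t + 1) * n + (N - 1) = (t * n + (N - 1) + n % N) + N * (n / N) := by
    have := Nat.div_add_mod n N
    have h2 : (t + 1) * n = t * n + n := by ring
    omega
  rw [h1, Nat.add_mul_div_left _ _ (show 0 < N by omega)]
  have h3 : (t * n + (N - 1)) / N ≤ (t * n + (N - 1) + n % N) / N := Nat.div_le_div_right (by omega)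
  have h4 : (t * n + (N - 1) + n % N) / N ≤ (t * n + (N - 1)) / N + 1 := by
    have : (t * n + (N - 1)) / N + 1 = (t * n + (N - 1) + N) / N := by
      rw [Nat.add_div_right _ (show 0 < N by omega)]
    rw [this]
    apply Nat.div_le_div_right
    have := Nat.mod_lt n (show 0 < N by omega)
    omega
  generalize (t * n + (N - 1) + n % N) / N = u at *
  generalize (t * n + (N - 1)) / N = v at *
  generalize n / N = q at *
  omega

/-- the labels sorted by position -/
theorem exists_rank {L : Type} [Fintype L] (p : L → ℝ) (hp : Function.Injective p) :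
    ∃ e : L ≃ Fin (Fintype.card L), ∀ a b, p a < p b ↔ e a < e b := by
  classical
  set r : L → Fin (Fintype.card L) := fun a =>
    ⟨(Finset.univ.filter fun b => p b < p a).card, by
      rw [← Finset.card_univ]
      apply Finset.card_lt_card
      rw [Finset.filter_ssubset]
      exact ⟨a, Finset.mem_univ _, lt_irrefl _⟩⟩ with hr
  have hlt : ∀ a b, p a < p b → r a < r b := by
    intro a b hab
    rw [Fin.lt_def]
    show (Finset.univ.filter fun c => p c < p a).card < (Finset.univ.filter fun c => p c < p b).card
    apply Finset.card_lt_card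
    rw [Finset.ssubset_iff_of_subset]
    · refine ⟨a, ?_, ?_⟩
      · simp [hab]
      · simp
    · intro c hc
      simp only [Finset.mem_filter, Finset.mem_univ, true_and] at hc ⊢
      exact lt_trans hc hab
  have hinj : Function.Injective r := by
    intro a b hab
    rcases lt_trichotomy (p a) (p b) with h | h | h
    · have := hlt a b h; rw [hab] at this; exact absurd this (lt_irrefl _)
    · exact hp h
    · have := hlt b a h; rw [hab] at this; exact absurd this (lt_irrefl _)
  have hbij : Function.Bijective r := by
    rw [Fintype.bijective_iff_injective_and_card]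
    exact ⟨hinj, by simp⟩
  refine ⟨Equiv.ofBijective r hbij, ?_⟩
  intro a b
  simp only [Equiv.ofBijective_apply]
  constructor
  · exact hlt a b
  · intro h
    by_contra h2
    push Not at h2
    rcases h2.lt_or_eq with h3 | h3
    · exact absurd (hlt b a h3) (not_lt.2 h.le)
    · have := hp h3
      rw [this] at h
      exact absurd h (lt_irrefl _)

/-- the product of the linear factors and the ball factor -/
noncomputable def poly (N : ℕ) (c : ℕ → ℝ) (R : ℝ) : MvPolynomial (Fin 1) ℝ :=
  (∏ t ∈ Finset.range N, (X 0 - C (c t))) * (C (R ^ 2) - ∑ i, X i ^ 2)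

theorem eval_poly (N : ℕ) (c : ℕ → ℝ) (R : ℝ) (z : Fin 1 → ℝ) :
    eval z (poly N c R) = (∏ t ∈ Finset.range N, (z 0 - c t)) * (R ^ 2 - z 0 ^ 2) := by
  simp [poly, map_prod]

theorem totalDegree_poly (N : ℕ) (c : ℕ → ℝ) (R : ℝ) (hN : 1 ≤ N) :
    (poly N c R).totalDegree ≤ 3 * N := by
  have h1 : (∏ t ∈ Finset.range N, (X 0 - C (c t)) : MvPolynomial (Fin 1) ℝ).totalDegree ≤ N := by
    refine (MvPolynomial.totalDegree_finsetProd _ _).trans ?_
    calc ∑ t ∈ Finset.range N, (X 0 - C (c t) : MvPolynomial (Fin 1) ℝ).totalDegree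
        ≤ ∑ _t ∈ Finset.range N, 1 := by
          apply Finset.sum_le_sum
          intro t _
          refine (MvPolynomial.totalDegree_sub _ _).trans (max_le ?_ ?_)
          · simp
          · rw [totalDegree_C]; omega
      _ = N := by simp
  have h2 : (C (R ^ 2) - ∑ i, X i ^ 2 : MvPolynomial (Fin 1) ℝ).totalDegree ≤ 2 := by
    refine (MvPolynomial.totalDegree_sub _ _).trans (max_le ?_ ?_)
    · rw [totalDegree_C]; omega
    · simp
  refine (MvPolynomial.totalDegree_mul _ _).trans ?_
  omega

/-- two points which are not separated by the factors lie in one cell -/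
theorem same_cell (N : ℕ) (c : ℕ → ℝ) (R : ℝ) (x y : Fin 1 → ℝ)
    (hR : |x 0| < R) (hR' : |y 0| < R)
    (h : ∀ t ∈ Finset.range N, (x 0 < c t ∧ y 0 < c t) ∨ (c t < x 0 ∧ c t < y 0)) :
    y ∈ cell (poly N c R) x := by
  have hsub : segment ℝ x y ⊆ {z | eval z (poly N c R) ≠ 0} := by
    intro z hz
    obtain ⟨α, β, hα, hβ, hαβ, rfl⟩ := hz
    have hz0 : (α • x + β • y) 0 = α * x 0 + β * y 0 := by simp
    show eval _ (poly N c R) ≠ 0
    rw [eval_poly, hz0]
    apply mul_ne_zero
    · rw [Finset.prod_ne_zero_iff]
      intro t ht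
      have e1 : c t = α * c t + β * c t := by rw [← add_mul, hαβ, one_mul]
      rcases h t ht with ⟨h1, h2⟩ | ⟨h1, h2⟩
      · apply ne_of_lt
        rcases hα.lt_or_eq with h3 | h3
        · nlinarith [mul_lt_mul_of_pos_left h1 h3, mul_le_mul_of_nonneg_left h2.le hβ]
        · rw [← h3] at hαβ ⊢
          have : β = 1 := by linarith
          rw [this]; linarith
      · apply ne_of_gt
        rcases hα.lt_or_eq with h3 | h3
        · nlinarith [mul_lt_mul_of_pos_left h1 h3, mul_le_mul_of_nonneg_left h2.le hβ]
        · rw [← h3] at hαβ ⊢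
          have : β = 1 := by linarith
          rw [this]; linarith
    · have hlt : |α * x 0 + β * y 0| < R := by
        calc |α * x 0 + β * y 0| ≤ |α * x 0| + |β * y 0| := abs_add_le _ _
          _ = α * |x 0| + β * |y 0| := by rw [abs_mul, abs_mul, abs_of_nonneg hα, abs_of_nonneg hβ]
          _ < R := by
            have e1 : R = α * R + β * R := by rw [← add_mul, hαβ, one_mul]
            rcases hα.lt_or_eq with h3 | h3
            · nlinarith [mul_lt_mul_of_pos_left hR h3, mul_le_mul_of_nonneg_left hR'.le hβ]
            · rw [← h3] at hαβ ⊢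
              have : β = 1 := by linarith
              rw [this]; linarith
      have := sq_lt_sq' (by linarith [abs_lt.1 hlt |>.1]) (abs_lt.1 hlt).2
      linarith
  have hpre : IsPreconnected (segment ℝ x y) := (convex_segment x y).isPreconnected
  exact hpre.subset_connectedComponentIn (left_mem_segment ℝ x y) hsub (right_mem_segment ℝ x y)

end One

theorem exists_leveled_one : ∃ K T₀ : ℕ, 1 ≤ K ∧ 1 ≤ T₀ ∧
    ∀ {L : Type} [Fintype L] (y : L → Fin 1 → ℝ) (_ : GP y) (N : ℕ) (_ : 1 ≤ N)
      (_ : T₀ * N ^ 1 ≤ Fintype.card L), Nonempty (Leveled y N (T₀ * N ^ 1) K) := by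
  classical
  refine ⟨3, 1, by norm_num, le_refl 1, ?_⟩
  intro L _ y hy N hN hcard
  have hcard' : N ≤ Fintype.card L := by simpa using hcard
  have hT : 1 * N ^ 1 = N := by simp
  rw [hT]
  set n := Fintype.card L with hn
  have hn1 : 1 ≤ n := le_trans hN hcard'
  obtain ⟨e, he⟩ := One.exists_rank (fun a => y a 0) (One.inj_of_gp y hy)
  have hpart : ∀ a, (e a : ℕ) * N / n < N := by
    intro a
    rw [Nat.div_lt_iff_lt_mul (by omega)]
    calc (e a : ℕ) * N < n * N := Nat.mul_lt_mul_of_pos_right (e a).2 (by omega)
      _ = N * n := mul_comm _ _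
  set part : L → Fin N := fun a => ⟨(e a : ℕ) * N / n, hpart a⟩ with hpartdef
  have hmono : ∀ a b, y a 0 < y b 0 → (part a : ℕ) ≤ part b := by
    intro a b hab
    have h1 : e a < e b := (he a b).1 hab
    show (e a : ℕ) * N / n ≤ (e b : ℕ) * N / n
    apply Nat.div_le_div_right
    apply Nat.mul_le_mul_right
    exact h1.le
  -- thresholds
  have hc : ∀ t : ℕ, ∃ c : ℝ, (∀ a, (part a : ℕ) < t → y a 0 < c) ∧ (∀ a, t ≤ (part a : ℕ) → c < y a 0) := by
    intro t
    obtain ⟨c, h1, h2⟩ := Order.exists_between_finsets
      ((Finset.univ.filter fun a => (part a : ℕ) < t).image fun a => y a 0)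
      ((Finset.univ.filter fun a => t ≤ (part a : ℕ)).image fun a => y a 0) (by
        intro x hx x' hx'
        simp only [Finset.mem_image, Finset.mem_filter, Finset.mem_univ, true_and] at hx hx'
        obtain ⟨a, ha, rfl⟩ := hx
        obtain ⟨b, hb, rfl⟩ := hx'
        by_contra h
        push Not at h
        rcases h.lt_or_eq with h3 | h3
        · have := hmono b a h3
          omega
        · have := One.inj_of_gp y hy h3
          rw [this] at hb
          omega)
    refine ⟨c, ?_, ?_⟩
    · intro a ha
      exact h1 _ (Finset.mem_image_of_mem _ (by simp [ha]))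
    · intro a ha
      exact h2 _ (Finset.mem_image_of_mem _ (by simp [ha]))
  choose c hc1 hc2 using hc
  -- radius
  obtain ⟨R, hR⟩ : ∃ R : ℝ, ∀ a, |y a 0| < R := by
    refine ⟨(∑ a, |y a 0|) + 1, fun a => ?_⟩
    have := Finset.single_le_sum (f := fun a => |y a 0|) (fun b _ => abs_nonneg _) (Finset.mem_univ a)
    linarith
  have hR2 : ∀ a, y a 0 ^ 2 < R ^ 2 := fun a =>
    sq_lt_sq' (by linarith [abs_lt.1 (hR a) |>.1]) (abs_lt.1 (hR a)).2
  refine ⟨{
    part := part
    s := n / N
    s_pos := ?_
    fib := ?_
    J := 1
    M := fun _ => N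
    M_pos := fun _ => hN
    M_le := fun _ => le_refl N
    F := fun _ => One.poly N c R
    deg := fun _ => One.totalDegree_poly N c R hN
    lev := fun _ => some 0
    none_card := ?_
    ne := ?_
    bdd := ?_
    same := ?_
    few := ?_
    sum := ?_ }⟩
  · rw [Nat.one_le_div_iff (by omega)]; exact hcard'
  · intro t
    have hcardeq : (Finset.univ.filter fun a => part a = t).card =
        ((Finset.range n).filter fun i => i * N / n = (t : ℕ)).card := by
      apply Finset.card_bij (fun a _ => (e a : ℕ))
      · intro a ha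
        simp only [Finset.mem_filter, Finset.mem_univ, true_and, Finset.mem_range] at ha ⊢
        refine ⟨(e a).2, ?_⟩
        rw [← ha]
      · intro a _ b _ hab
        exact e.injective (Fin.ext hab)
      · intro i hi
        simp only [Finset.mem_filter, Finset.mem_range] at hi
        refine ⟨e.symm ⟨i, hi.1⟩, ?_, by simp⟩
        simp only [Finset.mem_filter, Finset.mem_univ, true_and]
        apply Fin.ext
        show ((e (e.symm ⟨i, hi.1⟩) : Fin n) : ℕ) * N / n = t
        rw [Equiv.apply_symm_apply]
        exact hi.2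
    rw [hcardeq]
    exact One.card_block n N t hN hn1 t.2
  · simp
  · intro j a _
    rw [One.eval_poly]
    apply mul_ne_zero
    · rw [Finset.prod_ne_zero_iff]
      intro t _
      rcases lt_or_ge (part a : ℕ) t with h | h
      · exact sub_ne_zero.2 (hc1 t a h).ne
      · exact sub_ne_zero.2 (hc2 t a h).ne'
    · have := hR2 a
      exact sub_ne_zero.2 this.ne'
  · intro j a _
    apply bounded_cell_ball
    simpa using hR2 a
  · intro j a b hab _
    apply One.same_cell _ _ _ _ _ (hR a) (hR b)
    intro t _
    rcases lt_or_ge (part a : ℕ) t with h | h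
    · exact Or.inl ⟨hc1 t a h, hc1 t b (by rw [← hab]; exact h)⟩
    · exact Or.inr ⟨hc2 t a h, hc2 t b (by rw [← hab]; exact h)⟩
  · intro j a _
    have hsub : (Finset.univ.filter fun t : Fin N => (some 0 : Option (Fin 1)) = some j ∧
        ∃ b, part b = t ∧ y b ∈ cell (One.poly N c R) (y a)) ⊆ {part a} := by
      intro t ht
      simp only [Finset.mem_filter, Finset.mem_univ, true_and] at ht
      obtain ⟨_, b, hbt, hb⟩ := ht
      rw [Finset.mem_singleton, ← hbt]
      have hb' : y b ∈ cell (∏ t ∈ Finset.range N, (X 0 - C (c t))) (y a) := cell_mul_subset hb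
      apply Fin.ext
      by_contra hne
      rcases Nat.lt_or_gt_of_ne hne with h | h
      · have h1 := sign_cell (i := (part a : ℕ)) (Finset.mem_range.2 (part a).2) hb'
        have h2 := hc1 (part a) b h
        have h3 := hc2 (part a) a le_rfl
        simp only [map_sub, eval_X, eval_C] at h1
        nlinarith [mul_pos (sub_pos.2 h2) (sub_pos.2 h3)]
      · have h1 := sign_cell (i := (part b : ℕ)) (Finset.mem_range.2 (part b).2) hb'
        have h2 := hc1 (part b) a h
        have h3 := hc2 (part b) b le_rfl
        simp only [map_sub, eval_X, eval_C] at h1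
        nlinarith [mul_pos (sub_pos.2 h2) (sub_pos.2 h3)]
    calc _ ≤ ({part a} : Finset (Fin N)).card := Finset.card_le_card hsub
      _ ≤ 3 := by simp
  · simp

end Pool.Agent.SAP
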