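import Pool.Agent.SAP.GEN

/-!
# Module PERT: perturbation of the points
-/

set_option autoImplicit false

namespace Pool.Agent.SAP

open MvPolynomial Filter Topology

namespace PERT

theorem exists_delta {ι : Type} [Finite ι] (f : ι → ℝ) :
    ∃ δ : ℝ, 0 < δ ∧ ∀ e, f e ≠ 0 → δ < |f e| := by
  have h : ∀ᶠ δ in 𝓝[>] (0 : ℝ), ∀ e, f e ≠ 0 → δ < |f e| := by
    rw [eventually_all]
    intro e
    by_cases he : f e = 0
    · exact Eventually.of_forall (fun _ h => absurd he h)
    · have : ∀ᶠ δ in 𝓝[>] (0 : ℝ), δ < |f e| :=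
        (gt_mem_nhds (abs_pos.2 he)).filter_mono nhdsWithin_le_nhds
      filter_upwards [this] with δ hδ _ using hδ
  obtain ⟨δ, h1, h2⟩ := (h.and self_mem_nhdsWithin).exists
  exact ⟨δ, h2, h1⟩

theorem sign_cases {u v δ : ℝ} (hδ : 0 < δ) (hu : u ≠ 0 → δ < |u|) (hv : v ≠ 0 → δ < |v|)
    (hne : SignType.sign u ≠ SignType.sign v) :
    (u - δ) * (v - δ) < 0 ∨ (u + δ) * (v + δ) < 0 := by
  rcases lt_trichotomy u 0 with h1 | h1 | h1
  · have hu' := hu h1.ne
    rw [abs_of_neg h1] at hu'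
    rcases lt_trichotomy v 0 with h2 | h2 | h2
    · rw [sign_neg h1, sign_neg h2] at hne
      exact absurd rfl hne
    · subst h2
      right
      exact mul_neg_of_neg_of_pos (by linarith) (by linarith)
    · have hv' := hv h2.ne'
      rw [abs_of_pos h2] at hv'
      right
      exact mul_neg_of_neg_of_pos (by linarith) (by linarith)
  · subst h1
    rcases lt_trichotomy v 0 with h2 | h2 | h2
    · have hv' := hv h2.ne
      rw [abs_of_neg h2] at hv'
      right
      exact mul_neg_of_pos_of_neg (by linarith) (by linarith)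
    · subst h2
      exact absurd rfl hne
    · have hv' := hv h2.ne'
      rw [abs_of_pos h2] at hv'
      left
      exact mul_neg_of_neg_of_pos (by linarith) (by linarith)
  · have hu' := hu h1.ne'
    rw [abs_of_pos h1] at hu'
    rcases lt_trichotomy v 0 with h2 | h2 | h2
    · have hv' := hv h2.ne
      rw [abs_of_neg h2] at hv'
      left
      exact mul_neg_of_pos_of_neg (by linarith) (by linarith)
    · subst h2
      left
      exact mul_neg_of_pos_of_neg (by linarith) (by linarith)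
    · rw [sign_pos h1, sign_pos h2] at hne
      exact absurd rfl hne

/-- doubling the polynomials -/
noncomputable def dbl {τ : Type} {t : ℕ} (g : Fin t → MvPolynomial τ ℝ) (δ : ℝ) :
    Fin (t + t) → MvPolynomial τ ℝ :=
  Fin.append (fun j => g j - C δ) (fun j => g j + C δ)

theorem dbl_degree {τ : Type} {t : ℕ} (g : Fin t → MvPolynomial τ ℝ) (δ : ℝ) :
    ∑ l, (dbl g δ l).totalDegree ≤ 2 * ∑ j, (g j).totalDegree := by
  rw [Fin.sum_univ_add]
  simp only [dbl, Fin.append_left, Fin.append_right]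
  have h1 : ∀ j, (g j - C δ).totalDegree ≤ (g j).totalDegree := fun j =>
    (totalDegree_sub _ _).trans (by simp)
  have h2 : ∀ j, (g j + C δ).totalDegree ≤ (g j).totalDegree := fun j =>
    (totalDegree_add _ _).trans (by simp)
  have := Finset.sum_le_sum (fun j (_ : j ∈ (Finset.univ : Finset (Fin t))) => h1 j)
  have := Finset.sum_le_sum (fun j (_ : j ∈ (Finset.univ : Finset (Fin t))) => h2 j)
  omega

theorem local_step {d k : ℕ} (P : Fin k → Finset (Fin d → ℝ)) (D : ℕ) (q : Fin k → ℕ)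
    (E : Set (Fin k → Fin d → ℝ)) (hE : IsSemialgebraic P E D) :
    ∃ (m : ℕ) (h : Fin m → MvPolynomial (Fin k × Fin d) ℝ),
      ∑ l, (h l).totalDegree ≤ 2 * D ∧
      ∀ᶠ y : (∀ i, (P i) × Fin (q i) → Fin d → ℝ) in
        𝓝 (fun i (a : (P i) × Fin (q i)) => (a.1 : Fin d → ℝ)),
        ∀ a b : ∀ i, (P i) × Fin (q i),
          ((fun i => ((a i).1 : Fin d → ℝ)) ∈ E ∧ (fun i => ((b i).1 : Fin d → ℝ)) ∉ E) →
          ∃ l, eval (unc fun i => y i (a i)) (h l) * eval (unc fun i => y i (b i)) (h l) < 0 := by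
  obtain ⟨t, g, Φ, hdeg, hg⟩ := hE
  obtain ⟨δ, hδ, hδ2⟩ := exists_delta
    (fun e : Fin t × (∀ i, P i) => eval (unc fun i => (e.2 i : Fin d → ℝ)) (g e.1))
  refine ⟨t + t, dbl g δ, (dbl_degree g δ).trans (by omega), ?_⟩
  rw [eventually_all]
  intro a
  rw [eventually_all]
  intro b
  by_cases hab : (fun i => ((a i).1 : Fin d → ℝ)) ∈ E ∧ (fun i => ((b i).1 : Fin d → ℝ)) ∉ E
  swap
  · exact Eventually.of_forall (fun _ h => absurd h hab)
  obtain ⟨ha, hb⟩ := hab
  have ha' := (hg _ (fun i => (a i).1.2)).1 ha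
  have hb' : ¬ Φ _ := fun h => hb ((hg _ (fun i => (b i).1.2)).2 h)
  have hne : ∃ j, SignType.sign (eval (unc fun i => ((a i).1 : Fin d → ℝ)) (g j)) ≠
      SignType.sign (eval (unc fun i => ((b i).1 : Fin d → ℝ)) (g j)) := by
    by_contra hcon
    push Not at hcon
    apply hb'
    have : (fun j => SignType.sign (eval (fun q : Fin k × Fin d => ((b q.1).1 : Fin d → ℝ) q.2)
        (g j))) = fun j => SignType.sign (eval (fun q : Fin k × Fin d =>
        ((a q.1).1 : Fin d → ℝ) q.2) (g j)) := funext (fun j => (hcon j).symm)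
    rw [this]
    exact ha'
  obtain ⟨j, hj⟩ := hne
  have hcont : ∀ (p : MvPolynomial (Fin k × Fin d) ℝ) (c : ∀ i, (P i) × Fin (q i)),
      Continuous (fun y : (∀ i, (P i) × Fin (q i) → Fin d → ℝ) =>
        eval (unc fun i => y i (c i)) p) := by
    intro p c
    refine (continuous_eval p).comp ?_
    refine continuous_pi (fun r => ?_)
    show Continuous (fun y : (∀ i, (P i) × Fin (q i) → Fin d → ℝ) => y r.1 (c r.1) r.2)
    exact (continuous_apply r.2).comp ((continuous_apply (c r.1)).comp (continuous_apply r.1))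
  have key : ∃ l, eval (unc fun i => ((a i).1 : Fin d → ℝ)) (dbl g δ l) *
      eval (unc fun i => ((b i).1 : Fin d → ℝ)) (dbl g δ l) < 0 := by
    rcases sign_cases hδ (hδ2 (j, fun i => (a i).1)) (hδ2 (j, fun i => (b i).1)) hj with h | h
    · refine ⟨Fin.castAdd t j, ?_⟩
      simp only [dbl, Fin.append_left, map_sub, eval_C]
      exact h
    · refine ⟨Fin.natAdd t j, ?_⟩
      simp only [dbl, Fin.append_right, map_add, eval_C]
      exact h
  obtain ⟨l, hl⟩ := key
  have hc := ((hcont (dbl g δ l) a).mul (hcont (dbl g δ l) b))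
  have := hc.continuousAt.eventually_lt (x₀ := fun i (a : (P i) × Fin (q i)) => (a.1 : Fin d → ℝ))
    continuousAt_const hl
  filter_upwards [this] with y hy _
  exact ⟨l, hy⟩

end PERT

/-- All semialgebraic hypergraphs on the vertex sets `P i` of total degree at most `D` are, after a
perturbation of the points (with `q i` copies of each point of `P i`), described by polynomials
without zeros. -/
theorem exists_perturbed {d k : ℕ} (P : Fin k → Finset (Fin d → ℝ)) (D : ℕ) (q : Fin k → ℕ) :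
    ∃ y : ∀ i, (P i) × Fin (q i) → Fin d → ℝ, (∀ i, GP (y i)) ∧
      ∀ E : Set (Fin k → Fin d → ℝ), IsSemialgebraic P E D →
        ∃ (m : ℕ) (h : Fin m → MvPolynomial (Fin k × Fin d) ℝ),
          ∑ l, (h l).totalDegree ≤ 2 * D ∧
          ∀ a b : ∀ i, (P i) × Fin (q i),
            ((fun i => ((a i).1 : Fin d → ℝ)) ∈ E ∧ (fun i => ((b i).1 : Fin d → ℝ)) ∉ E) →
            ∃ l, eval (unc fun i => y i (a i)) (h l) * eval (unc fun i => y i (b i)) (h l) < 0 := by
  classical
  -- finitely many restrictions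
  have hall : ∀ᶠ y : (∀ i, (P i) × Fin (q i) → Fin d → ℝ) in
      𝓝 (fun i (a : (P i) × Fin (q i)) => (a.1 : Fin d → ℝ)),
      ∀ R : Set (∀ i, P i), (∃ E : Set (Fin k → Fin d → ℝ), IsSemialgebraic P E D ∧
          ∀ c : ∀ i, P i, c ∈ R ↔ (fun i => (c i : Fin d → ℝ)) ∈ E) →
        ∃ (m : ℕ) (h : Fin m → MvPolynomial (Fin k × Fin d) ℝ),
          ∑ l, (h l).totalDegree ≤ 2 * D ∧
          ∀ a b : ∀ i, (P i) × Fin (q i),
            ((fun i => (a i).1) ∈ R ∧ (fun i => (b i).1) ∉ R) →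
            ∃ l, eval (unc fun i => y i (a i)) (h l) *
              eval (unc fun i => y i (b i)) (h l) < 0 := by
    rw [eventually_all]
    intro R
    by_cases hR : ∃ E : Set (Fin k → Fin d → ℝ), IsSemialgebraic P E D ∧
          ∀ c : ∀ i, P i, c ∈ R ↔ (fun i => (c i : Fin d → ℝ)) ∈ E
    swap
    · exact Eventually.of_forall (fun _ h => absurd h hR)
    obtain ⟨E, hE, hER⟩ := hR
    obtain ⟨m, h, hdeg, hev⟩ := PERT.local_step P D q E hE
    filter_upwards [hev] with y hy _
    refine ⟨m, h, hdeg, fun a b hab => hy a b ?_⟩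
    exact ⟨(hER _).1 hab.1, fun hb => hab.2 ((hER _).2 hb)⟩
  have hdense : Dense (Set.pi Set.univ (fun i : Fin k =>
      {y : (P i) × Fin (q i) → Fin d → ℝ | GP y})) :=
    dense_pi _ (fun i _ => dense_gp _ d)
  obtain ⟨y, hy1, hy2⟩ := hdense.inter_nhds_nonempty hall
  refine ⟨y, fun i => hy1 i (Set.mem_univ i), fun E hE => ?_⟩
  obtain ⟨m, h, hdeg, hh⟩ := hy2 {c | (fun i => (c i : Fin d → ℝ)) ∈ E} ⟨E, hE, fun c => Iff.rfl⟩
  exact ⟨m, h, hdeg, fun a b hab => hh a b hab⟩

end Pool.Agent.SAP
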