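import Pool.Agent.SAP.LEV
import Pool.Agent.SAP.ONE
import Pool.Agent.SAP.FRAC
import Pool.Agent.SAP.PERT

set_option autoImplicit false

namespace Pool.Agent.SAP

open MvPolynomial

namespace MAIN

/-- the partition into the fibres of a function -/
theorem fibre_partition {α : Type} [DecidableEq α] (s : Finset α) (T m : ℕ) (g : α → Fin T)
    (hm : 1 ≤ m) (h1 : ∀ t, m ≤ (s.filter fun a => g a = t).card)
    (h2 : ∀ t, (s.filter fun a => g a = t).card ≤ m + 1) :
    ∃ Q : Finpartition s, Q.IsEquipartition ∧ Q.parts.card ≤ T ∧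
      ∀ π ∈ Q.parts, ∀ p ∈ π, ∀ p' ∈ π, g p = g p' := by
  classical
  refine ⟨Finpartition.ofExistsUnique (Finset.univ.image fun t => s.filter fun a => g a = t)
    ?_ ?_ ?_, ?_, ?_, ?_⟩
  · intro p hp
    obtain ⟨t, -, rfl⟩ := Finset.mem_image.mp hp
    exact Finset.filter_subset _ _
  · intro a ha
    refine ⟨s.filter fun b => g b = g a, ⟨Finset.mem_image.mpr ⟨g a, Finset.mem_univ _, rfl⟩,
      Finset.mem_filter.mpr ⟨ha, rfl⟩⟩, ?_⟩
    rintro u ⟨hu, hau⟩
    obtain ⟨t, -, rfl⟩ := Finset.mem_image.mp hu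
    have h3 := (Finset.mem_filter.mp hau).2
    rw [h3]
  · intro h
    obtain ⟨t, -, ht⟩ := Finset.mem_image.mp h
    have h3 := h1 t
    rw [ht, Finset.card_empty] at h3
    omega
  · intro a b ha hb
    obtain ⟨t, -, rfl⟩ := Finset.mem_image.mp (Finset.mem_coe.mp ha)
    obtain ⟨t', -, rfl⟩ := Finset.mem_image.mp (Finset.mem_coe.mp hb)
    have h3 := h1 t'
    have h4 := h2 t
    omega
  · refine le_trans (Finset.card_image_le) ?_
    rw [Finset.card_univ, Fintype.card_fin]
  · intro π hπ p hp p' hp'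
    obtain ⟨t, -, rfl⟩ := Finset.mem_image.mp hπ
    rw [(Finset.mem_filter.mp hp).2, (Finset.mem_filter.mp hp').2]

/-- the partition of one vertex set -/
theorem one_set {d : ℕ} (P : Finset (Fin d → ℝ)) (T q : ℕ) (hT : 1 ≤ T)
    (hq : q = if T ≤ P.card then 1 else T) (N K : ℕ) (y : P × Fin q → Fin d → ℝ)
    (R : Leveled y N T K) :
    ∃ Q : Finpartition P, Q.IsEquipartition ∧ Q.parts.card ≤ T ∧
      ∀ π ∈ Q.parts, ∀ (p p' : Fin d → ℝ) (hp : p ∈ P) (hp' : p' ∈ P), p ∈ π → p' ∈ π →
        ∀ r : Fin q, ∃ r' : Fin q, R.part (⟨p', hp'⟩, r') = R.part (⟨p, hp⟩, r) := by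
  classical
  by_cases h : T ≤ P.card
  · rw [if_pos h] at hq
    subst hq
    set g : (Fin d → ℝ) → Fin T := fun p => if hp : p ∈ P then R.part (⟨p, hp⟩, 0) else ⟨0, hT⟩
      with hg
    have hcard : ∀ t, (P.filter fun a => g a = t).card
        = (Finset.univ.filter fun a => R.part a = t).card := by
      intro t
      refine Finset.card_bij' (fun p hp => ((⟨p, (Finset.mem_filter.mp hp).1⟩ : P), (0 : Fin 1)))
        (fun a _ => (a.1 : Fin d → ℝ)) ?_ ?_ ?_ ?_
      · intro p hp
        have h1 := Finset.mem_filter.mp hp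
        rw [Finset.mem_filter]
        refine ⟨Finset.mem_univ _, ?_⟩
        have h2 := h1.2
        rw [hg] at h2
        simp only [dif_pos h1.1] at h2
        exact h2
      · intro a ha
        rw [Finset.mem_filter]
        refine ⟨a.1.2, ?_⟩
        have h1 := (Finset.mem_filter.mp ha).2
        rw [hg]
        simp only [dif_pos a.1.2]
        rw [← h1]
        congr 1
        exact Prod.ext rfl (Subsingleton.elim _ _)
      · intro p hp
        rfl
      · intro a ha
        exact Prod.ext rfl (Subsingleton.elim _ _)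
    obtain ⟨Q, hQ1, hQ2, hQ3⟩ := fibre_partition P T R.s g R.s_pos
      (fun t => by rw [hcard]; exact (R.fib t).1) (fun t => by rw [hcard]; exact (R.fib t).2)
    refine ⟨Q, hQ1, hQ2, ?_⟩
    intro π hπ p p' hp hp' hpπ hpπ' r
    refine ⟨0, ?_⟩
    have h1 := hQ3 π hπ p hpπ p' hpπ'
    rw [hg] at h1
    simp only [dif_pos hp, dif_pos hp'] at h1
    rw [← h1, Subsingleton.elim r 0]
  · refine ⟨⊥, Finpartition.bot_isEquipartition P, ?_, ?_⟩
    · rw [Finpartition.card_bot]
      omega
    · intro π hπ p p' hp hp' hpπ hpπ' r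
      obtain ⟨a, _, rfl⟩ := Finpartition.mem_bot_iff.mp hπ
      rw [Finset.mem_singleton] at hpπ hpπ'
      subst hpπ
      subst hpπ'
      exact ⟨r, rfl⟩

/-- counting: the tuples of parts -/
theorem count {d k : ℕ} (P : Fin k → Finset (Fin d → ℝ)) (q : Fin k → ℕ)
    (Q : ∀ i, Finpartition (P i)) (S : Finset (∀ i, (P i) × Fin (q i)))
    (NH : Finset (Fin k → Finset (Fin d → ℝ))) (hNH : ∀ π ∈ NH, ∀ i, π i ∈ (Q i).parts)
    (hS : ∀ π ∈ NH, ∀ a : ∀ i, (P i) × Fin (q i), (∀ i, ((a i).1 : Fin d → ℝ) ∈ π i) → a ∈ S) :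
    ∑ π ∈ NH, ∏ i, ((π i).card * q i) ≤ S.card := by
  classical
  have h1 : ∀ π ∈ NH, ∏ i, ((π i).card * q i)
      = (Fintype.piFinset fun i =>
          (Finset.univ.filter fun u : (P i) × Fin (q i) => (u.1 : Fin d → ℝ) ∈ π i)).card := by
    intro π hπ
    rw [Fintype.card_piFinset]
    refine Finset.prod_congr rfl (fun i _ => ?_)
    have h2 : π i ⊆ P i := (Q i).le (hNH π hπ i)
    have h3 : (Finset.univ.filter fun u : (P i) × Fin (q i) => (u.1 : Fin d → ℝ) ∈ π i)
        = (Finset.univ.filter fun u : (P i) => (u : Fin d → ℝ) ∈ π i) ×ˢ Finset.univ := by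
      ext u
      simp
    rw [h3, Finset.card_product, Finset.card_univ, Fintype.card_fin]
    congr 1
    refine Finset.card_bij' (fun p hp => (⟨p, h2 hp⟩ : P i)) (fun a _ => (a : Fin d → ℝ)) ?_ ?_ ?_ ?_
    · intro p hp
      exact Finset.mem_filter.mpr ⟨Finset.mem_univ _, hp⟩
    · intro a ha
      exact (Finset.mem_filter.mp ha).2
    · intro p hp; rfl
    · intro a ha; rfl
  rw [Finset.sum_congr rfl h1, ← Finset.card_biUnion]
  · refine Finset.card_le_card ?_
    intro a ha
    obtain ⟨π, hπ, ha⟩ := Finset.mem_biUnion.mp ha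
    refine hS π hπ a (fun i => ?_)
    have := Fintype.mem_piFinset.mp ha i
    exact (Finset.mem_filter.mp this).2
  · intro π hπ π' hπ' hne
    change Disjoint _ _
    rw [Finset.disjoint_left]
    intro a ha ha'
    apply hne
    funext i
    have h2 := (Finset.mem_filter.mp (Fintype.mem_piFinset.mp ha i)).2
    have h3 := (Finset.mem_filter.mp (Fintype.mem_piFinset.mp ha' i)).2
    exact (Q i).eq_of_mem_parts (hNH π hπ i) (hNH π' hπ' i) h2 h3

theorem exists_leveled (d : ℕ) (hd : 1 ≤ d) : ∃ K T₀ : ℕ, 1 ≤ K ∧ 1 ≤ T₀ ∧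
    ∀ {L : Type} [Fintype L] (y : L → Fin d → ℝ) (_ : GP y) (N : ℕ) (_ : 1 ≤ N)
      (_ : T₀ * N ^ d ≤ Fintype.card L), Nonempty (Leveled y N (T₀ * N ^ d) K) := by
  rcases Nat.lt_or_ge 1 d with h | h
  · exact exists_leveled_two d h
  · obtain rfl : d = 1 := by omega
    exact exists_leveled_one

end MAIN

theorem main (d k : ℕ) (hd : 1 ≤ d) (hk : 1 ≤ k) : ∃ C₀ : ℝ, 0 < C₀ ∧
    ∀ (D : ℕ) (ε : ℝ), 1 ≤ D → 0 < ε → ε ≤ D → ∀ P : Fin k → Finset (Fin d → ℝ),
      ∃ Q : ∀ i, Finpartition (P i), (∀ i, (Q i).IsEquipartition) ∧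
        (∀ i, ((Q i).parts.card : ℝ) ≤ C₀ * (D / ε) ^ d) ∧
        ∀ E : Set (Fin k → Fin d → ℝ), IsSemialgebraic P E D → HomogeneousPartition Q E ε := by
  classical
  obtain ⟨K, T₀, hK, hT₀, hlev⟩ := MAIN.exists_leveled d hd
  obtain ⟨C₁, hC₁, hfrac⟩ := frac_le d k K T₀ hd hk hK hT₀
  refine ⟨T₀ * (2 * C₁ + 1) ^ d, by positivity, ?_⟩
  intro D ε hD hε hεD P
  have hDε : 1 ≤ (D : ℝ) / ε := (one_le_div hε).mpr hεD
  have hC0 : (1 : ℝ) ≤ T₀ * (2 * C₁ + 1) ^ d * (D / ε) ^ d := by
    have h1 : (1 : ℝ) ≤ T₀ := by exact_mod_cast hT₀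
    have h2 : (1 : ℝ) ≤ (2 * C₁ + 1) ^ d := one_le_pow₀ (by linarith)
    have h3 : (1 : ℝ) ≤ (D / ε) ^ d := one_le_pow₀ hDε
    exact one_le_mul_of_one_le_of_one_le (one_le_mul_of_one_le_of_one_le h1 h2) h3
  by_cases hne : ∀ i, (P i).Nonempty
  · -- the main case
    set N : ℕ := ⌈2 * C₁ * (D / ε)⌉₊ with hN
    have hN1 : 1 ≤ N := Nat.one_le_iff_ne_zero.mpr (by
      intro h
      rw [hN, Nat.ceil_eq_zero] at h
      have : 0 < 2 * C₁ * (D / ε) := by positivity
      linarith)
    have hNle : 2 * C₁ * (D / ε) ≤ N := Nat.le_ceil _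
    have hNup : (N : ℝ) ≤ (2 * C₁ + 1) * (D / ε) := by
      have h1 := (Nat.ceil_lt_add_one (a := 2 * C₁ * (D / ε)) (by positivity)).le
      rw [← hN] at h1
      nlinarith
    set T : ℕ := T₀ * N ^ d with hT
    have hT1 : 1 ≤ T := Nat.mul_pos hT₀ (pow_pos hN1 d)
    set q : Fin k → ℕ := fun i => if T ≤ (P i).card then 1 else T with hq
    have hq1 : ∀ i, 1 ≤ q i := by
      intro i
      rw [hq]
      dsimp only
      split_ifs
      · exact le_refl _
      · exact hT1
    obtain ⟨y, hgp, hy⟩ := exists_perturbed P D q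
    have hcard : ∀ i, T ≤ Fintype.card ((P i) × Fin (q i)) := by
      intro i
      rw [Fintype.card_prod, Fintype.card_coe, Fintype.card_fin]
      by_cases h : T ≤ (P i).card
      · have : q i = 1 := by rw [hq]; exact if_pos h
        rw [this, mul_one]
        exact h
      · have h1 : q i = T := by rw [hq]; exact if_neg h
        rw [h1]
        exact Nat.le_mul_of_pos_left T (Finset.card_pos.mpr (hne i))
    have R : ∀ i, Leveled (y i) N T K :=
      fun i => Classical.choice (hlev (y i) (hgp i) N hN1 (hcard i))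
    have hone := fun i => MAIN.one_set (P i) T (q i) hT1 rfl N K (y i) (R i)
    choose Q hQ1 hQ2 hQ3 using hone
    refine ⟨Q, hQ1, ?_, ?_⟩
    · intro i
      have h1 : ((Q i).parts.card : ℝ) ≤ T := by exact_mod_cast hQ2 i
      refine h1.trans ?_
      rw [hT]
      push_cast
      rw [mul_assoc, ← mul_pow]
      exact mul_le_mul_of_nonneg_left (pow_le_pow_left₀ (by positivity) hNup d) (by positivity)
    · intro E hE
      obtain ⟨m, h, hdeg, hsep⟩ := hy E hE
      -- the bad tuples of labels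
      set S : Fin m → Finset (∀ i, (P i) × Fin (q i)) := fun l =>
        Finset.univ.filter fun a : ∀ i, (P i) × Fin (q i) => ∃ b c : ∀ i, (P i) × Fin (q i),
          (∀ i, (R i).part (b i) = (R i).part (a i)) ∧
          (∀ i, (R i).part (c i) = (R i).part (a i)) ∧
          eval (unc fun i => y i (b i)) (h l) < 0 ∧ 0 < eval (unc fun i => y i (c i)) (h l) with hS
      set W : ℝ := ∏ i, (Fintype.card ((P i) × Fin (q i)) : ℝ) with hW
      have hScard : ∀ l, ((S l).card : ℝ) ≤ C₁ * (h l).totalDegree / N * W := by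
        intro l
        exact hfrac N hN1 (fun i => (P i) × Fin (q i)) y R (h l)
      set NH := (Fintype.piFinset fun i => (Q i).parts).filter (fun π => ¬ IsHomogeneous E π)
        with hNH
      have hNHm : ∀ π ∈ NH, ∀ i, π i ∈ (Q i).parts := by
        intro π hπ i
        exact Fintype.mem_piFinset.mp (Finset.mem_filter.mp hπ).1 i
      have hcov : ∀ π ∈ NH, ∀ a : ∀ i, (P i) × Fin (q i),
          (∀ i, ((a i).1 : Fin d → ℝ) ∈ π i) → a ∈ Finset.univ.biUnion S := by
        intro π hπ a ha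
        have h1 := (Finset.mem_filter.mp hπ).2
        unfold IsHomogeneous at h1
        push Not at h1
        obtain ⟨⟨x, hx, hxE⟩, ⟨x', hx', hxE'⟩⟩ := h1
        have hxP : ∀ i, x i ∈ P i := fun i => (Q i).le (hNHm π hπ i) (hx i)
        have hxP' : ∀ i, x' i ∈ P i := fun i => (Q i).le (hNHm π hπ i) (hx' i)
        have hb := fun i => hQ3 i (π i) (hNHm π hπ i) (a i).1 (x i) (a i).1.2 (hxP i) (ha i) (hx i)
          (a i).2
        have hc := fun i => hQ3 i (π i) (hNHm π hπ i) (a i).1 (x' i) (a i).1.2 (hxP' i) (ha i)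
          (hx' i) (a i).2
        choose rb hrb using hb
        choose rc hrc using hc
        obtain ⟨l, hl⟩ := hsep (fun i => (⟨x' i, hxP' i⟩, rc i)) (fun i => (⟨x i, hxP i⟩, rb i))
          ⟨hxE', hxE⟩
        rw [Finset.mem_biUnion]
        refine ⟨l, Finset.mem_univ _, ?_⟩
        rw [hS, Finset.mem_filter]
        refine ⟨Finset.mem_univ _, ?_⟩
        rcases mul_neg_iff.mp hl with ⟨h2, h3⟩ | ⟨h2, h3⟩
        · exact ⟨fun i => (⟨x i, hxP i⟩, rb i), fun i => (⟨x' i, hxP' i⟩, rc i), hrb, hrc, h3, h2⟩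
        · exact ⟨fun i => (⟨x' i, hxP' i⟩, rc i), fun i => (⟨x i, hxP i⟩, rb i), hrc, hrb, h2, h3⟩
      have hcount := MAIN.count P q Q (Finset.univ.biUnion S) NH hNHm hcov
      have hW0 : 0 < W := by
        rw [hW]
        refine Finset.prod_pos (fun i _ => ?_)
        have := hcard i
        have h2 : 0 < Fintype.card ((P i) × Fin (q i)) := by omega
        exact_mod_cast h2
      have hN0 : (0 : ℝ) < N := by exact_mod_cast hN1
      have hbad : ((Finset.univ.biUnion S).card : ℝ) ≤ ε * W := by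
        have h1 : ((Finset.univ.biUnion S).card : ℝ) ≤ ∑ l, ((S l).card : ℝ) := by
          exact_mod_cast Finset.card_biUnion_le
        refine h1.trans ((Finset.sum_le_sum (fun l _ => hScard l)).trans ?_)
        rw [← Finset.sum_mul]
        refine mul_le_mul_of_nonneg_right ?_ hW0.le
        rw [← Finset.sum_div, ← Finset.mul_sum, div_le_iff₀ hN0]
        have h2 : (∑ l, ((h l).totalDegree : ℝ)) ≤ 2 * D := by exact_mod_cast hdeg
        have h3 : C₁ * ∑ l, ((h l).totalDegree : ℝ) ≤ C₁ * (2 * D) :=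
          mul_le_mul_of_nonneg_left h2 hC₁.le
        refine h3.trans ?_
        have h4 : ε * (2 * C₁ * (D / ε)) ≤ ε * N := mul_le_mul_of_nonneg_left hNle hε.le
        have h5 : ε * (2 * C₁ * (D / ε)) = C₁ * (2 * D) := by
          field_simp
        linarith
      unfold HomogeneousPartition
      have hfin : ∑ π ∈ NH, ∏ i, (((π i).card : ℝ) / (P i).card)
          = (∑ π ∈ NH, ∏ i, (((π i).card : ℝ) * q i)) / W := by
        rw [Finset.sum_div]
        refine Finset.sum_congr rfl (fun π _ => ?_)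
        rw [hW, ← Finset.prod_div_distrib]
        refine Finset.prod_congr rfl (fun i _ => ?_)
        rw [Fintype.card_prod, Fintype.card_coe, Fintype.card_fin]
        push_cast
        have h6 : (q i : ℝ) ≠ 0 := by
          have := hq1 i
          positivity
        rw [mul_div_mul_right _ _ h6]
      rw [hfin, div_le_iff₀ hW0]
      refine le_trans ?_ hbad
      exact_mod_cast hcount
  · push Not at hne
    obtain ⟨i₀, hi₀⟩ := hne
    refine ⟨fun i => ⊤, fun i => Finpartition.top_isEquipartition _, ?_, ?_⟩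
    · intro i
      have h1 : (⊤ : Finpartition (P i)).parts.card ≤ 1 := by
        refine (Finset.card_le_card (Finpartition.parts_top_subset _)).trans ?_
        simp
      have h2 : (((⊤ : Finpartition (P i)).parts.card : ℕ) : ℝ) ≤ 1 := by exact_mod_cast h1
      exact h2.trans hC0
    · intro E _
      unfold HomogeneousPartition
      have h1 : (Fintype.piFinset fun i => (⊤ : Finpartition (P i)).parts) = ∅ := by
        rw [Fintype.piFinset_eq_empty]
        refine ⟨i₀, ?_⟩
        rw [Finpartition.parts_eq_empty_iff]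
        exact hi₀
      rw [h1, Finset.filter_empty, Finset.sum_empty]
      exact hε.le

end Pool.Agent.SAP
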