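import Pool.Agent.SAP.Defs

/-! A linear form separating many pairs of nearly orthogonal vectors (reflection argument). -/

set_option autoImplicit false

namespace Pool.Agent.SAP

open MeasureTheory Metric Set RealInnerProductSpace

namespace MOM

section key

variable {E : Type} [NormedAddCommGroup E] [InnerProductSpace ℝ E] [FiniteDimensional ℝ E]
  [MeasurableSpace E] [BorelSpace E]

/-- the volume of the part of a set in the unit ball -/
noncomputable def m (S : Set E) : ENNReal := volume (S ∩ ball (0 : E) 1)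

theorem m_mono {S T : Set E} (h : S ⊆ T) : m S ≤ m T := measure_mono (inter_subset_inter_left _ h)

theorem m_union (S T : Set E) : m (S ∪ T) ≤ m S + m T := by
  unfold m
  rw [union_inter_distrib_right]
  exact measure_union_le _ _

theorem m_preimage (f : E ≃ₗᵢ[ℝ] E) (S : Set E) : m (f ⁻¹' S) = m S := by
  unfold m
  have h1 : f ⁻¹' S ∩ ball (0 : E) 1 = f ⁻¹' (S ∩ ball (0 : E) 1) := by
    rw [preimage_inter, f.preimage_ball, map_zero]
  rw [h1]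
  exact MeasurePreserving.measure_preimage_equiv (f := f.toMeasurableEquiv) f.measurePreserving _

theorem m_hyper {v : E} (hv : v ≠ 0) : m {θ : E | ⟪θ, v⟫ = 0} = 0 := by
  unfold m
  refine le_antisymm ((measure_mono inter_subset_left).trans ?_) bot_le
  have h1 : {θ : E | ⟪θ, v⟫ = 0} = ((ℝ ∙ v)ᗮ : Submodule ℝ E) := by
    ext θ
    simp only [mem_ofPred_eq, SetLike.mem_coe, Submodule.mem_orthogonal_singleton_iff_inner_left]
  rw [h1, Measure.addHaar_submodule]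
  intro h
  have h2 : v ∈ (ℝ ∙ v)ᗮ := by rw [h]; trivial
  rw [Submodule.mem_orthogonal_singleton_iff_inner_left] at h2
  exact hv (inner_self_eq_zero.mp h2)

theorem key_unit {x y : E} (hx : ‖x‖ = 1) (hy : ‖y‖ = 1) (h : |⟪x, y⟫| ≤ 1 / 4) :
    m (univ : Set E) ≤ 4 * m {θ : E | ⟪θ, x⟫ * ⟪θ, y⟫ < 0} := by
  set N : Set E := {θ : E | ⟪θ, x⟫ * ⟪θ, y⟫ < 0} with hN
  set S : Set E := {θ : E | |⟪θ, y⟫| ≤ |⟪θ, x⟫|} with hS
  have hadj : ∀ (v θ w : E), ⟪Submodule.reflection (ℝ ∙ v)ᗮ θ, w⟫ =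
      ⟪θ, Submodule.reflection (ℝ ∙ v)ᗮ w⟫ := by
    intro v θ w
    conv_lhs => rw [← Submodule.reflection_reflection (K := (ℝ ∙ v)ᗮ) w]
    exact LinearIsometryEquiv.inner_map_map _ _ _
  -- swap
  have h1 : m (univ : Set E) ≤ 2 * m S := by
    set σ := Submodule.reflection (ℝ ∙ (x - y))ᗮ with hσ
    have e1 : σ x = y := Submodule.reflection_sub (by rw [hx, hy])
    have e2 : σ y = x := by rw [← e1]; exact Submodule.reflection_reflection _ _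
    have e3 : σ ⁻¹' S = {θ : E | |⟪θ, x⟫| ≤ |⟪θ, y⟫|} := by
      ext θ
      simp only [hS, mem_preimage, mem_ofPred_eq]
      rw [hσ, hadj, hadj, ← hσ, e1, e2]
    have e4 : (univ : Set E) ⊆ S ∪ σ ⁻¹' S := by
      intro θ _
      rw [e3]
      rcases le_total |⟪θ, y⟫| |⟪θ, x⟫| with h | h
      · exact Or.inl h
      · exact Or.inr h
    calc m (univ : Set E) ≤ m (S ∪ σ ⁻¹' S) := m_mono e4
      _ ≤ m S + m (σ ⁻¹' S) := m_union _ _
      _ = 2 * m S := by rw [m_preimage, two_mul]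
  have h2 : m S ≤ 2 * m N := by
    set τ := Submodule.reflection (ℝ ∙ y)ᗮ with hτ
    have e1 : τ y = -y := Submodule.reflection_orthogonalComplement_singleton_eq_neg y
    have e2 : τ x = x - (2 * ⟪x, y⟫) • y := by
      have hz : x - ⟪x, y⟫ • y ∈ (ℝ ∙ y)ᗮ := by
        rw [Submodule.mem_orthogonal_singleton_iff_inner_left, inner_sub_left, inner_smul_left,
          real_inner_self_eq_norm_sq, hy]
        simp
      have e3 : τ (x - ⟪x, y⟫ • y) = x - ⟪x, y⟫ • y := Submodule.reflection_mem_subspace_eq_self hz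
      rw [map_sub, map_smul, e1] at e3
      have e4 : τ x = x - ⟪x, y⟫ • y + ⟪x, y⟫ • (-y) := by rw [← e3]; abel
      rw [e4, smul_neg, mul_smul, two_smul]
      abel
    have e4 : S ⊆ {θ : E | ⟪θ, y⟫ = 0} ∪ (N ∪ τ ⁻¹' N) := by
      intro θ hθ
      by_cases hy0 : ⟪θ, y⟫ = 0
      · exact Or.inl hy0
      right
      by_cases hneg : ⟪θ, x⟫ * ⟪θ, y⟫ < 0
      · exact Or.inl hneg
      right
      simp only [hN, mem_preimage, mem_ofPred_eq]
      rw [hτ, hadj, hadj, ← hτ, e1, e2, inner_sub_right, inner_smul_right, inner_neg_right]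
      have hθ' : |⟪θ, y⟫| ≤ |⟪θ, x⟫| := hθ
      set X := ⟪θ, x⟫
      set Y := ⟪θ, y⟫
      set r := ⟪x, y⟫
      have hY : 0 < |Y| := abs_pos.mpr hy0
      have hX : 0 < |X| := lt_of_lt_of_le hY hθ'
      have hpos : X * Y = |X| * |Y| := by
        rw [← abs_mul, abs_of_nonneg (not_lt.mp hneg)]
      have e5 : (X - 2 * r * Y) * -Y = -(|X| * |Y|) + 2 * r * Y ^ 2 := by rw [← hpos]; ring
      rw [e5]
      have e6 : 2 * r * Y ^ 2 ≤ 2 * (1 / 4) * (|Y| * |Y|) := by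
        rw [← sq_abs Y]
        have : r ≤ 1 / 4 := le_trans (le_abs_self _) h
        nlinarith [sq_nonneg |Y|]
      nlinarith
    calc m S ≤ m ({θ : E | ⟪θ, y⟫ = 0} ∪ (N ∪ τ ⁻¹' N)) := m_mono e4
      _ ≤ m {θ : E | ⟪θ, y⟫ = 0} + m (N ∪ τ ⁻¹' N) := m_union _ _
      _ ≤ 0 + (m N + m (τ ⁻¹' N)) := by
          gcongr
          · rw [m_hyper]
            intro h0
            rw [h0, norm_zero] at hy
            exact zero_ne_one hy
          · exact m_union _ _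
      _ = 2 * m N := by rw [m_preimage, two_mul, zero_add]
  calc m (univ : Set E) ≤ 2 * m S := h1
    _ ≤ 2 * (2 * m N) := by gcongr
    _ = 4 * m N := by rw [← mul_assoc]; norm_num

theorem key {x y : E} (hx : x ≠ 0) (hy : y ≠ 0) (h : ⟪x, y⟫ ^ 2 ≤ 1 / 16 * (‖x‖ ^ 2 * ‖y‖ ^ 2)) :
    m (univ : Set E) ≤ 4 * m {θ : E | ⟪θ, x⟫ * ⟪θ, y⟫ < 0} := by
  have hx' : 0 < ‖x‖ := norm_pos_iff.mpr hx
  have hy' : 0 < ‖y‖ := norm_pos_iff.mpr hy
  have h1 : ‖(‖x‖⁻¹ : ℝ) • x‖ = 1 := by rw [norm_smul]; simp [hx'.ne']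
  have h2 : ‖(‖y‖⁻¹ : ℝ) • y‖ = 1 := by rw [norm_smul]; simp [hy'.ne']
  have h3 : |⟪(‖x‖⁻¹ : ℝ) • x, (‖y‖⁻¹ : ℝ) • y⟫| ≤ 1 / 4 := by
    rw [inner_smul_left, inner_smul_right]
    simp only [conj_trivial]
    apply abs_le_of_sq_le_sq _ (by norm_num)
    have : (‖x‖⁻¹ * (‖y‖⁻¹ * ⟪x, y⟫)) ^ 2 = ⟪x, y⟫ ^ 2 / (‖x‖ ^ 2 * ‖y‖ ^ 2) := by
      field_simp
    rw [this, div_le_iff₀ (by positivity)]
    linarith
  refine (key_unit h1 h2 h3).trans (le_of_eq ?_)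
  congr 2
  ext θ
  simp only [mem_ofPred_eq, inner_smul_right]
  have h4 : ‖x‖⁻¹ * ⟪θ, x⟫ * (‖y‖⁻¹ * ⟪θ, y⟫) = (‖x‖⁻¹ * ‖y‖⁻¹) * (⟪θ, x⟫ * ⟪θ, y⟫) := by ring
  rw [h4]
  have h5 : 0 < ‖x‖⁻¹ * ‖y‖⁻¹ := by positivity
  constructor
  · intro h6
    by_contra h7
    push Not at h7
    have := mul_nonneg h5.le h7
    linarith
  · intro h6
    exact mul_neg_of_pos_of_neg h5 h6

theorem exists_theta {L : Type} [Finite L] (u : L → E) (hu : ∀ a, u a ≠ 0) (W : Finset (L × L))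
    (hW : ∀ p ∈ W, ⟪u p.1, u p.2⟫ ^ 2 ≤ 1 / 16 * (‖u p.1‖ ^ 2 * ‖u p.2‖ ^ 2)) :
    ∃ θ : E, (∀ a, ⟪θ, u a⟫ ≠ 0) ∧
      (1 / 5 : ℝ) * W.card ≤ (W.filter fun p => ⟪θ, u p.1⟫ * ⟪θ, u p.2⟫ < 0).card := by
  classical
  set μ : Measure E := volume.restrict (ball (0 : E) 1) with hμ
  have hμS : ∀ S : Set E, MeasurableSet S → μ S = m S := fun S hS => by
    rw [hμ, Measure.restrict_apply hS]; rfl
  have hfin : μ univ < ⊤ := by
    rw [hμS _ MeasurableSet.univ]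
    unfold m
    rw [univ_inter]
    exact measure_ball_lt_top
  have hpos : 0 < μ univ := by
    rw [hμS _ MeasurableSet.univ]
    unfold m
    rw [univ_inter]
    exact measure_ball_pos _ _ one_pos
  have hNm : ∀ p : L × L, MeasurableSet {θ : E | ⟪θ, u p.1⟫ * ⟪θ, u p.2⟫ < 0} := fun p =>
    (isOpen_lt (by fun_prop) continuous_const).measurableSet
  -- null set
  have hnull : ∀ᵐ θ ∂μ, ∀ a, ⟪θ, u a⟫ ≠ 0 := by
    rw [ae_all_iff]
    intro a
    rw [ae_iff]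
    have h1 : {θ : E | ¬ ⟪θ, u a⟫ ≠ 0} = {θ : E | ⟪θ, u a⟫ = 0} := by
      ext θ; simp
    rw [h1, hμS _ (isClosed_eq (by fun_prop) continuous_const).measurableSet]
    exact m_hyper (hu a)
  by_contra hcon
  push Not at hcon
  have hae : ∀ᵐ θ ∂μ, ((W.filter fun p => ⟪θ, u p.1⟫ * ⟪θ, u p.2⟫ < 0).card : ENNReal) ≤
      ENNReal.ofReal ((1 / 5 : ℝ) * W.card) := by
    filter_upwards [hnull] with θ hθ
    have h1 := hcon θ hθ
    rw [← ENNReal.ofReal_natCast]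
    exact ENNReal.ofReal_le_ofReal h1.le
  have hint : ∫⁻ θ, ((W.filter fun p => ⟪θ, u p.1⟫ * ⟪θ, u p.2⟫ < 0).card : ENNReal) ∂μ =
      ∑ p ∈ W, μ {θ : E | ⟪θ, u p.1⟫ * ⟪θ, u p.2⟫ < 0} := by
    have e1 : ∀ θ : E, ((W.filter fun p => ⟪θ, u p.1⟫ * ⟪θ, u p.2⟫ < 0).card : ENNReal) =
        ∑ p ∈ W, indicator {θ : E | ⟪θ, u p.1⟫ * ⟪θ, u p.2⟫ < 0} (1 : E → ENNReal) θ := by
      intro θ
      rw [Finset.card_filter]
      push_cast
      apply Finset.sum_congr rfl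
      intro p _
      simp only [indicator_apply, mem_ofPred_eq, Pi.one_apply]
    simp_rw [e1]
    rw [lintegral_finsetSum _ (fun p _ => measurable_one.indicator (hNm p))]
    apply Finset.sum_congr rfl
    intro p _
    rw [lintegral_indicator_one (hNm p)]
  have h1 : (W.card : ENNReal) * μ univ ≤
      4 * ∫⁻ θ, ((W.filter fun p => ⟪θ, u p.1⟫ * ⟪θ, u p.2⟫ < 0).card : ENNReal) ∂μ := by
    rw [hint, Finset.mul_sum, ← nsmul_eq_mul, ← Finset.sum_const]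
    apply Finset.sum_le_sum
    intro p hp
    rw [hμS _ (hNm p), hμS _ MeasurableSet.univ]
    exact key (hu _) (hu _) (hW p hp)
  have h2 : ∫⁻ θ, ((W.filter fun p => ⟪θ, u p.1⟫ * ⟪θ, u p.2⟫ < 0).card : ENNReal) ∂μ ≤
      ENNReal.ofReal ((1 / 5 : ℝ) * W.card) * μ univ := by
    calc _ ≤ ∫⁻ _, ENNReal.ofReal ((1 / 5 : ℝ) * W.card) ∂μ := lintegral_mono_ae hae
      _ = _ := lintegral_const _
  by_cases hW0 : W.card = 0
  · -- a point outside the null set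
    have : (ae μ).NeBot := by
      rw [ae_neBot]
      intro h0
      rw [h0] at hpos
      simp at hpos
    obtain ⟨θ, hθ⟩ := hnull.exists
    have h3 := hcon θ hθ
    rw [hW0] at h3
    simp at h3
    have : (0 : ℝ) ≤ ((W.filter fun p => ⟪θ, u p.1⟫ * ⟪θ, u p.2⟫ < 0).card : ℝ) := Nat.cast_nonneg _
    linarith
  · have h3 : (W.card : ENNReal) * μ univ ≤ 4 * (ENNReal.ofReal ((1 / 5 : ℝ) * W.card) * μ univ) :=
      h1.trans (by gcongr)
    have h4 : (W.card : ENNReal) ≤ 4 * ENNReal.ofReal ((1 / 5 : ℝ) * W.card) := by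
      rw [← mul_assoc] at h3
      exact (ENNReal.mul_le_mul_iff_left hpos.ne' hfin.ne).mp h3
    rw [← ENNReal.ofReal_natCast, show (4 : ENNReal) = ENNReal.ofReal 4 by norm_num,
      ← ENNReal.ofReal_mul (by norm_num), ENNReal.ofReal_le_ofReal_iff (by positivity)] at h4
    have h5 : (0 : ℝ) < W.card := by exact_mod_cast Nat.pos_of_ne_zero hW0
    linarith

end key

end MOM

theorem exists_separating : ∃ ρ₀ c₀ : ℝ, 0 < ρ₀ ∧ 0 < c₀ ∧ c₀ < 1 ∧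
    ∀ (ι L : Type) [Fintype ι] [Fintype L] (u : L → ι → ℝ) (_ : ∀ a, u a ≠ 0)
      (W : Finset (L × L)) (_ : ∀ p ∈ W, (u p.1 ⬝ᵥ u p.2) ^ 2 ≤
        ρ₀ * ((u p.1 ⬝ᵥ u p.1) * (u p.2 ⬝ᵥ u p.2))),
      ∃ θ : ι → ℝ, (∀ a, θ ⬝ᵥ u a ≠ 0) ∧
        c₀ * W.card ≤ (W.filter fun p => (θ ⬝ᵥ u p.1) * (θ ⬝ᵥ u p.2) < 0).card := by
  refine ⟨1 / 16, 1 / 5, by norm_num, by norm_num, by norm_num, ?_⟩
  intro ι L _ _ u hu W hW
  have hin : ∀ a b : ι → ℝ, ⟪(WithLp.toLp 2 a : EuclideanSpace ℝ ι), WithLp.toLp 2 b⟫ = a ⬝ᵥ b := by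
    intro a b
    simp [PiLp.inner_apply, dotProduct, mul_comm]
  have hnorm : ∀ a : ι → ℝ, ‖(WithLp.toLp 2 a : EuclideanSpace ℝ ι)‖ ^ 2 = a ⬝ᵥ a := by
    intro a
    rw [← hin a a, real_inner_self_eq_norm_sq]
  obtain ⟨θ, h1, h2⟩ := MOM.exists_theta (E := EuclideanSpace ℝ ι)
    (fun a => WithLp.toLp 2 (u a)) (fun a h => hu a (by simpa using h)) W (by
      intro p hp
      rw [hin, hnorm, hnorm]
      exact hW p hp)
  have hθ : ∀ b : ι → ℝ, ⟪θ, (WithLp.toLp 2 b : EuclideanSpace ℝ ι)⟫ = (WithLp.ofLp θ) ⬝ᵥ b := by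
    intro b
    have := hin (WithLp.ofLp θ) b
    simpa using this
  refine ⟨WithLp.ofLp θ, ?_, ?_⟩
  · intro a
    rw [← hθ]
    exact h1 a
  · convert h2 using 4
    rw [← hθ, ← hθ]

end Pool.Agent.SAP
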