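import Pool.Agent.SAP.FOR
import Pool.Agent.SAP.MOM

set_option autoImplicit false

namespace Pool.Agent.SAP

open MvPolynomial

namespace SCALE

/-- the polynomial with the coefficients `c` -/
noncomputable def pol {d N : ℕ} (c : (Fin d → Fin N) → ℝ) : MvPolynomial (Fin d) ℝ :=
  ∑ β, C (c β) * ∏ i, X i ^ (β i : ℕ)

/-- the Veronese vector -/
def ver {d N : ℕ} (x : Fin d → ℝ) : (Fin d → Fin N) → ℝ := fun β => ∏ i, x i ^ (β i : ℕ)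

theorem eval_pol {d N : ℕ} (c : (Fin d → Fin N) → ℝ) (x : Fin d → ℝ) :
    eval x (pol c) = c ⬝ᵥ ver x := by
  simp [pol, dotProduct, ver]

theorem totalDegree_pol {d N : ℕ} (c : (Fin d → Fin N) → ℝ) :
    (pol c).totalDegree ≤ d * N := by
  unfold pol
  refine (totalDegree_finsetSum _ _).trans ?_
  refine Finset.sup_le fun β _ => ?_
  refine (totalDegree_mul _ _).trans ?_
  rw [totalDegree_C, zero_add]
  refine (totalDegree_finsetProd _ _).trans ?_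
  calc ∑ i, (X i ^ (β i : ℕ) : MvPolynomial (Fin d) ℝ).totalDegree
      ≤ ∑ _i : Fin d, N := by
        refine Finset.sum_le_sum fun i _ => ?_
        refine (totalDegree_pow _ _).trans ?_
        rw [totalDegree_X, mul_one]
        exact (β i).2.le
    _ = d * N := by simp

/-- repeated separation -/
theorem iter {ρ₀ c₀ : ℝ} (hc0 : c₀ < 1)
    (H : ∀ (ι L : Type) [Fintype ι] [Fintype L] (u : L → ι → ℝ) (_ : ∀ a, u a ≠ 0)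
      (W : Finset (L × L)) (_ : ∀ p ∈ W, (u p.1 ⬝ᵥ u p.2) ^ 2 ≤
        ρ₀ * ((u p.1 ⬝ᵥ u p.1) * (u p.2 ⬝ᵥ u p.2))),
      ∃ θ : ι → ℝ, (∀ a, θ ⬝ᵥ u a ≠ 0) ∧
        c₀ * W.card ≤ (W.filter fun p => (θ ⬝ᵥ u p.1) * (θ ⬝ᵥ u p.2) < 0).card)
    {ι L : Type} [Fintype ι] [Fintype L] (u : L → ι → ℝ) (hu : ∀ a, u a ≠ 0)
    (W : Finset (L × L)) (hW : ∀ p ∈ W, (u p.1 ⬝ᵥ u p.2) ^ 2 ≤
        ρ₀ * ((u p.1 ⬝ᵥ u p.1) * (u p.2 ⬝ᵥ u p.2))) (m : ℕ) :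
    ∃ θ : Fin m → ι → ℝ, (∀ l a, θ l ⬝ᵥ u a ≠ 0) ∧
      ((W.filter fun p => ∀ l, 0 < (θ l ⬝ᵥ u p.1) * (θ l ⬝ᵥ u p.2)).card : ℝ) ≤
        (1 - c₀) ^ m * W.card := by
  classical
  induction m with
  | zero => exact ⟨fun l => l.elim0, fun l => l.elim0, by simp⟩
  | succ m ih =>
    obtain ⟨θ, h1, h2⟩ := ih
    obtain ⟨θ', h1', h2'⟩ := H ι L u hu
      (W.filter fun p => ∀ l, 0 < (θ l ⬝ᵥ u p.1) * (θ l ⬝ᵥ u p.2))
      (fun p hp => hW p (Finset.mem_filter.1 hp).1)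
    refine ⟨Fin.cons θ' θ, ?_, ?_⟩
    · intro l a
      refine Fin.cases ?_ (fun l => ?_) l
      · simpa using h1' a
      · simpa using h1 l a
    · set W' := W.filter fun p => ∀ l, 0 < (θ l ⬝ᵥ u p.1) * (θ l ⬝ᵥ u p.2) with hW'
      have e1 : (W.filter fun p => ∀ l : Fin (m + 1), 0 <
          ((Fin.cons θ' θ : Fin (m + 1) → ι → ℝ) l ⬝ᵥ u p.1) *
          ((Fin.cons θ' θ : Fin (m + 1) → ι → ℝ) l ⬝ᵥ u p.2)) ⊆
          W' \ (W'.filter fun p => (θ' ⬝ᵥ u p.1) * (θ' ⬝ᵥ u p.2) < 0) := by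
        intro p hp
        rw [Finset.mem_filter] at hp
        rw [Finset.mem_sdiff]
        refine ⟨Finset.mem_filter.2 ⟨hp.1, fun l => by simpa using hp.2 l.succ⟩, ?_⟩
        intro hq
        have h3 := (Finset.mem_filter.1 hq).2
        have h4 : 0 < (θ' ⬝ᵥ u p.1) * (θ' ⬝ᵥ u p.2) := by simpa using hp.2 0
        linarith
      have e2 := Finset.card_le_card e1
      rw [Finset.card_sdiff_of_subset (Finset.filter_subset _ _)] at e2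
      have e3 : (W'.filter fun p => (θ' ⬝ᵥ u p.1) * (θ' ⬝ᵥ u p.2) < 0).card ≤ W'.card :=
        Finset.card_filter_le _ _
      have e4 : ((W'.card - (W'.filter fun p => (θ' ⬝ᵥ u p.1) * (θ' ⬝ᵥ u p.2) < 0).card : ℕ) : ℝ)
          ≤ (1 - c₀) * W'.card := by
        rw [Nat.cast_sub e3]
        linarith
      calc (((W.filter fun p => ∀ l : Fin (m + 1), 0 <
          ((Fin.cons θ' θ : Fin (m + 1) → ι → ℝ) l ⬝ᵥ u p.1) *
          ((Fin.cons θ' θ : Fin (m + 1) → ι → ℝ) l ⬝ᵥ u p.2)).card : ℕ) : ℝ)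
          ≤ (1 - c₀) * W'.card := le_trans (by exact_mod_cast e2) e4
        _ ≤ (1 - c₀) * ((1 - c₀) ^ m * W.card) :=
          mul_le_mul_of_nonneg_left h2 (by linarith)
        _ = (1 - c₀) ^ (m + 1) * W.card := by ring

/-- few pairs of vectors in isotropic position are far from orthogonal -/
theorem bad_le {ι L : Type} [Fintype ι] [Fintype L] (u : L → ι → ℝ) (hu : ∀ a, u a ≠ 0)
    {ρ₀ R : ℝ} (hρ : 0 < ρ₀)
    (hs : ∀ a, ∑ b, (u a ⬝ᵥ u b) ^ 2 / ((u a ⬝ᵥ u a) * (u b ⬝ᵥ u b)) = R) (W : Finset (L × L)) :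
    ((W.filter fun p => ¬ (u p.1 ⬝ᵥ u p.2) ^ 2 ≤
        ρ₀ * ((u p.1 ⬝ᵥ u p.1) * (u p.2 ⬝ᵥ u p.2))).card : ℝ) ≤ Fintype.card L * R / ρ₀ := by
  have hpos : ∀ a, 0 < u a ⬝ᵥ u a := by
    intro a
    have h1 : 0 ≤ u a ⬝ᵥ u a := by
      unfold dotProduct
      exact Finset.sum_nonneg fun i _ => mul_self_nonneg _
    refine lt_of_le_of_ne h1 ?_
    intro h2
    exact hu a (dotProduct_self_eq_zero.1 h2.symm)
  set W' := W.filter fun p => ¬ (u p.1 ⬝ᵥ u p.2) ^ 2 ≤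
        ρ₀ * ((u p.1 ⬝ᵥ u p.1) * (u p.2 ⬝ᵥ u p.2)) with hW'
  have h1 : (W'.card : ℝ) * ρ₀ ≤ ∑ p ∈ W',
      (u p.1 ⬝ᵥ u p.2) ^ 2 / ((u p.1 ⬝ᵥ u p.1) * (u p.2 ⬝ᵥ u p.2)) := by
    rw [← nsmul_eq_mul]
    refine Finset.card_nsmul_le_sum _ _ _ ?_
    intro p hp
    have h2 := (Finset.mem_filter.1 hp).2
    rw [not_le] at h2
    rw [le_div_iff₀ (mul_pos (hpos _) (hpos _))]
    exact h2.le
  have h2 : ∑ p ∈ W', (u p.1 ⬝ᵥ u p.2) ^ 2 / ((u p.1 ⬝ᵥ u p.1) * (u p.2 ⬝ᵥ u p.2)) ≤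
      ∑ p : L × L, (u p.1 ⬝ᵥ u p.2) ^ 2 / ((u p.1 ⬝ᵥ u p.1) * (u p.2 ⬝ᵥ u p.2)) := by
    refine Finset.sum_le_sum_of_subset_of_nonneg (Finset.subset_univ _) ?_
    intro p _ _
    exact div_nonneg (sq_nonneg _) (mul_pos (hpos _) (hpos _)).le
  have h3 : ∑ p : L × L, (u p.1 ⬝ᵥ u p.2) ^ 2 / ((u p.1 ⬝ᵥ u p.1) * (u p.2 ⬝ᵥ u p.2)) =
      Fintype.card L * R := by
    rw [Fintype.sum_prod_type]
    simp only [hs]
    simp
  rw [le_div_iff₀ hρ]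
  linarith

end SCALE

theorem exists_scale (d : ℕ) : ∃ (c K : ℕ), ∀ {L : Type} [Fintype L]
    (y : L → Fin d → ℝ) (_ : GP y) (N : ℕ) (_ : 1 ≤ N) (_ : N ^ d ≤ Fintype.card L)
    (W : Finset (L × L)), ∃ f : Fin c → MvPolynomial (Fin d) ℝ,
      (∀ l, (f l).totalDegree ≤ d * N) ∧ (∀ l a, eval (y a) (f l) ≠ 0) ∧
      ((W.filter fun p => ∀ l, 0 < eval (y p.1) (f l) * eval (y p.2) (f l)).card : ℝ) ≤
        (1 / 2) ^ (d + 1) * W.card + K * (Fintype.card L : ℝ) ^ 2 / (N : ℝ) ^ d := by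
  classical
  obtain ⟨ρ₀, c₀, hρ, hc, hc1, H⟩ := exists_separating
  obtain ⟨c, hcc⟩ := exists_pow_lt_of_lt_one (show (0 : ℝ) < (1 / 2) ^ (d + 1) by positivity)
    (show 1 - c₀ < 1 by linarith)
  obtain ⟨K, hK⟩ := exists_nat_ge (1 / ρ₀)
  refine ⟨c, K, ?_⟩
  intro L _ y hy N hN hNL W
  have : Nonempty (Fin d → Fin N) := ⟨fun _ => ⟨0, hN⟩⟩
  have hcard : Fintype.card (Fin d → Fin N) = N ^ d := by simp
  obtain ⟨B, hB0, hB⟩ := exists_isotropic (ι := Fin d → Fin N) (L := L)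
    (fun a => SCALE.ver (y a)) (fun φ hφ => hy N φ hφ) (by rw [hcard]; exact hNL)
  set u : L → (Fin d → Fin N) → ℝ := fun a => B.mulVec (SCALE.ver (y a)) with hu
  have hs : ∀ a, ∑ b, (u a ⬝ᵥ u b) ^ 2 / ((u a ⬝ᵥ u a) * (u b ⬝ᵥ u b)) =
      Fintype.card L / (N : ℝ) ^ d := by
    intro a
    rw [hB a, hcard]
    push_cast
    rfl
  set W₁ := W.filter fun p => (u p.1 ⬝ᵥ u p.2) ^ 2 ≤
        ρ₀ * ((u p.1 ⬝ᵥ u p.1) * (u p.2 ⬝ᵥ u p.2)) with hW1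
  obtain ⟨θ, hθ, hθ2⟩ := SCALE.iter hc1 H u hB0 W₁ (fun p hp => (Finset.mem_filter.1 hp).2) c
  have hev : ∀ l a, eval (y a) (SCALE.pol (B.transpose.mulVec (θ l))) = θ l ⬝ᵥ u a := by
    intro l a
    rw [SCALE.eval_pol, hu, Matrix.mulVec_transpose, Matrix.dotProduct_mulVec]
  refine ⟨fun l => SCALE.pol (B.transpose.mulVec (θ l)), fun l => SCALE.totalDegree_pol _, ?_, ?_⟩
  · intro l a
    rw [hev]
    exact hθ l a
  · simp only [hev]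
    have hsub : (W.filter fun p => ∀ l, 0 < (θ l ⬝ᵥ u p.1) * (θ l ⬝ᵥ u p.2)) ⊆
        (W₁.filter fun p => ∀ l, 0 < (θ l ⬝ᵥ u p.1) * (θ l ⬝ᵥ u p.2)) ∪
        (W.filter fun p => ¬ (u p.1 ⬝ᵥ u p.2) ^ 2 ≤
          ρ₀ * ((u p.1 ⬝ᵥ u p.1) * (u p.2 ⬝ᵥ u p.2))) := by
      intro p hp
      rw [Finset.mem_filter] at hp
      rw [Finset.mem_union]
      by_cases h : (u p.1 ⬝ᵥ u p.2) ^ 2 ≤ ρ₀ * ((u p.1 ⬝ᵥ u p.1) * (u p.2 ⬝ᵥ u p.2))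
      · left
        exact Finset.mem_filter.2 ⟨Finset.mem_filter.2 ⟨hp.1, h⟩, hp.2⟩
      · right
        exact Finset.mem_filter.2 ⟨hp.1, h⟩
    have h1 := (Finset.card_le_card hsub).trans (Finset.card_union_le _ _)
    have h2 := SCALE.bad_le u hB0 hρ hs W
    have h3 : ((W.filter fun p => ∀ l, 0 < (θ l ⬝ᵥ u p.1) * (θ l ⬝ᵥ u p.2)).card : ℝ) ≤
        ((W₁.filter fun p => ∀ l, 0 < (θ l ⬝ᵥ u p.1) * (θ l ⬝ᵥ u p.2)).card : ℝ) +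
        ((W.filter fun p => ¬ (u p.1 ⬝ᵥ u p.2) ^ 2 ≤
          ρ₀ * ((u p.1 ⬝ᵥ u p.1) * (u p.2 ⬝ᵥ u p.2))).card : ℝ) := by exact_mod_cast h1
    have h4 : (1 - c₀) ^ c * (W₁.card : ℝ) ≤ (1 / 2) ^ (d + 1) * W.card := by
      have : (W₁.card : ℝ) ≤ W.card := by exact_mod_cast Finset.card_filter_le _ _
      exact mul_le_mul hcc.le this (by positivity) (by positivity)
    have h5 : (Fintype.card L : ℝ) * (Fintype.card L / (N : ℝ) ^ d) / ρ₀ ≤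
        K * (Fintype.card L : ℝ) ^ 2 / (N : ℝ) ^ d := by
      have e : (Fintype.card L : ℝ) * (Fintype.card L / (N : ℝ) ^ d) / ρ₀ =
          (1 / ρ₀) * ((Fintype.card L : ℝ) ^ 2 / (N : ℝ) ^ d) := by
        field_simp
      rw [e, mul_div_assoc]
      exact mul_le_mul_of_nonneg_right hK (by positivity)
    linarith

end Pool.Agent.SAP
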