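import Pool.Agent.SAP.SCALE
import Pool.Agent.SAP.CELL

/-!
# Polynomial partitioning in the mean

The polynomials of the scales `1, 2, 4, ...` up to `N`, together with a ball factor: the number of
pairs of points in the same cell is at most a constant times the number of all pairs divided by
`N ^ d`.
-/

set_option autoImplicit false

namespace Pool.Agent.SAP

open MvPolynomial

/-- The scales up to `2 ^ i`. -/
theorem Split.scales {d c K : ℕ} {L : Type} [Fintype L] (y : L → Fin d → ℝ)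
    (hsc : ∀ (N : ℕ) (_ : 1 ≤ N) (_ : N ^ d ≤ Fintype.card L)
    (W : Finset (L × L)), ∃ f : Fin c → MvPolynomial (Fin d) ℝ,
      (∀ l, (f l).totalDegree ≤ d * N) ∧ (∀ l a, eval (y a) (f l) ≠ 0) ∧
      ((W.filter fun p => ∀ l, 0 < eval (y p.1) (f l) * eval (y p.2) (f l)).card : ℝ) ≤
        (1 / 2) ^ (d + 1) * W.card + K * (Fintype.card L : ℝ) ^ 2 / (N : ℝ) ^ d) (i : ℕ)
    (hi : ∀ j, j < i → (2 ^ j) ^ d ≤ Fintype.card L) :
    ∃ (g : MvPolynomial (Fin d) ℝ) (W : Finset (L × L)),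
      g.totalDegree + c * d ≤ c * d * 2 ^ i ∧ (∀ a, eval (y a) g ≠ 0) ∧
      (W.card : ℝ) * (2 : ℝ) ^ (i * d) ≤ (2 ^ (d + 1) * K + 1) * (Fintype.card L : ℝ) ^ 2 ∧
      ∀ p : L × L, y p.2 ∈ cell g (y p.1) → p ∈ W := by
  classical
  induction i with
  | zero =>
    refine ⟨1, Finset.univ, ?_, ?_, ?_, ?_⟩
    · simp
    · intro a; simp
    · rw [Finset.card_univ, Fintype.card_prod]
      push_cast
      have h1 : (0 : ℝ) ≤ 2 ^ (d + 1) * K := by positivity
      have h2 : (0 : ℝ) ≤ (Fintype.card L : ℝ) ^ 2 := by positivity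
      rw [zero_mul, pow_zero]
      nlinarith [mul_nonneg h1 h2]
    · intro p _; exact Finset.mem_univ _
  | succ i ih =>
    obtain ⟨g, W, hg1, hg2, hW, hp⟩ := ih fun j hj => hi j (Nat.lt_succ_of_lt hj)
    obtain ⟨f, hf1, hf2, hf3⟩ := hsc (2 ^ i) Nat.one_le_two_pow (hi i (Nat.lt_succ_self i)) W
    refine ⟨g * ∏ l, f l, W.filter fun p => ∀ l, 0 < eval (y p.1) (f l) * eval (y p.2) (f l),
      ?_, ?_, ?_, ?_⟩
    · have h1 : (∏ l, f l).totalDegree ≤ c * (d * 2 ^ i) := by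
        refine (totalDegree_finsetProd _ _).trans ?_
        refine (Finset.sum_le_sum (fun l _ => hf1 l)).trans ?_
        rw [Finset.sum_const, Finset.card_univ, Fintype.card_fin, smul_eq_mul]
      have h2 := totalDegree_mul g (∏ l, f l)
      have h3 : c * d * 2 ^ (i + 1) = c * d * 2 ^ i + c * (d * 2 ^ i) := by ring
      rw [h3]
      omega
    · intro a
      rw [map_mul, map_prod]
      exact mul_ne_zero (hg2 a) (Finset.prod_ne_zero_iff.2 fun l _ => hf2 l a)
    · have h1 : (0 : ℝ) < (2 : ℝ) ^ ((i + 1) * d) := by positivity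
      have h2 := mul_le_mul_of_nonneg_right hf3 h1.le
      refine h2.trans ?_
      have h3 : ((1 / 2 : ℝ)) ^ (d + 1) * (2 : ℝ) ^ ((i + 1) * d) = 1 / 2 * 2 ^ (i * d) := by
        rw [one_div, inv_pow, add_mul, one_mul, pow_add, pow_add, pow_one]
        field_simp
      have h4 : (1 : ℝ) / ((2 ^ i : ℕ) : ℝ) ^ d * (2 : ℝ) ^ ((i + 1) * d) = 2 ^ d := by
        push_cast
        rw [add_mul, one_mul, pow_add, pow_mul]
        field_simp
      calc ((1 / 2 : ℝ) ^ (d + 1) * W.card + K * (Fintype.card L : ℝ) ^ 2 /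
            ((2 ^ i : ℕ) : ℝ) ^ d) * (2 : ℝ) ^ ((i + 1) * d)
          = ((1 / 2 : ℝ) ^ (d + 1) * (2 : ℝ) ^ ((i + 1) * d)) * W.card +
            K * (Fintype.card L : ℝ) ^ 2 *
              (1 / ((2 ^ i : ℕ) : ℝ) ^ d * (2 : ℝ) ^ ((i + 1) * d)) := by ring
        _ = 1 / 2 * (W.card * 2 ^ (i * d)) + K * (Fintype.card L : ℝ) ^ 2 * 2 ^ d := by
            rw [h3, h4]; ring
        _ ≤ 1 / 2 * ((2 ^ (d + 1) * K + 1) * (Fintype.card L : ℝ) ^ 2) +
            K * (Fintype.card L : ℝ) ^ 2 * 2 ^ d := by linarith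
        _ = (2 ^ (d + 1) * K + 1 / 2) * (Fintype.card L : ℝ) ^ 2 := by ring
        _ ≤ (2 ^ (d + 1) * K + 1) * (Fintype.card L : ℝ) ^ 2 := by
            apply mul_le_mul_of_nonneg_right _ (by positivity)
            linarith
    · intro p hpc
      rw [Finset.mem_filter]
      refine ⟨hp p (cell_mul_subset hpc), fun l => ?_⟩
      rw [mul_comm] at hpc
      exact sign_cell (Finset.mem_univ l) (cell_mul_subset hpc)

open Classical in
theorem exists_split (d : ℕ) : ∃ K : ℕ, ∀ {L : Type} [Fintype L]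
    (y : L → Fin d → ℝ) (_ : GP y) (N : ℕ) (_ : 1 ≤ N) (_ : N ^ d ≤ Fintype.card L),
    ∃ F : MvPolynomial (Fin d) ℝ, F.totalDegree ≤ K * N ∧ (∀ a, eval (y a) F ≠ 0) ∧
      (∀ a, Bornology.IsBounded (cell F (y a))) ∧
      (Finset.univ.filter fun p : L × L => y p.2 ∈ cell F (y p.1)).card * N ^ d ≤
        K * Fintype.card L ^ 2 := by
  obtain ⟨c, K, hcK⟩ := exists_scale d
  refine ⟨2 * (c * d) + 2 + (2 ^ (d + 1) * K + 1), ?_⟩
  intro L _ y hy N hN hNL
  have hlog : N < 2 ^ (Nat.log 2 N + 1) := Nat.lt_pow_succ_log_self (by norm_num) N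
  have hlog2 : 2 ^ Nat.log 2 N ≤ N := Nat.pow_log_le_self 2 (by omega)
  obtain ⟨g, W, hg1, hg2, hW, hp⟩ := Split.scales y (hcK y hy) (Nat.log 2 N + 1) (by
    intro j hj
    refine (Nat.pow_le_pow_left ?_ d).trans hNL
    exact (Nat.pow_le_pow_right (by norm_num) (by omega)).trans hlog2)
  set R : ℝ := (∑ a, ∑ c, y a c ^ 2) + 1 with hR
  have hball : ∀ a, ∑ c, y a c ^ 2 < R ^ 2 := by
    intro a
    have h1 : ∑ c, y a c ^ 2 ≤ ∑ a, ∑ c, y a c ^ 2 :=
      Finset.single_le_sum (f := fun a => ∑ c, y a c ^ 2)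
        (fun a _ => Finset.sum_nonneg fun c _ => sq_nonneg _) (Finset.mem_univ a)
    have h2 : 0 ≤ ∑ a, ∑ c, y a c ^ 2 :=
      Finset.sum_nonneg fun a _ => Finset.sum_nonneg fun c _ => sq_nonneg _
    rw [hR]
    nlinarith
  refine ⟨g * (C (R ^ 2) - ∑ c, X c ^ 2), ?_, ?_, ?_, ?_⟩
  · refine (totalDegree_mul _ _).trans ?_
    have h1 : (C (R ^ 2) - ∑ c : Fin d, X c ^ 2 : MvPolynomial (Fin d) ℝ).totalDegree ≤ 2 := by
      refine (totalDegree_sub _ _).trans (max_le ?_ ?_)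
      · rw [totalDegree_C]; norm_num
      · refine totalDegree_finsetSum_le (fun i _ => ?_)
        refine (totalDegree_pow _ _).trans ?_
        rw [totalDegree_X]
    have h2 : g.totalDegree ≤ 2 * (c * d) * N := by
      have h3 : c * d * 2 ^ (Nat.log 2 N + 1) ≤ 2 * (c * d) * N := by
        rw [pow_succ]
        calc c * d * (2 ^ Nat.log 2 N * 2) = 2 * (c * d) * 2 ^ Nat.log 2 N := by ring
          _ ≤ 2 * (c * d) * N := Nat.mul_le_mul_left _ hlog2
      omega
    have h4 : 2 ≤ 2 * N := by omega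
    calc g.totalDegree + (C (R ^ 2) - ∑ c : Fin d, X c ^ 2 : MvPolynomial (Fin d) ℝ).totalDegree
        ≤ 2 * (c * d) * N + 2 * N := by omega
      _ ≤ (2 * (c * d) + 2 + (2 ^ (d + 1) * K + 1)) * N := by
          rw [← add_mul]
          exact Nat.mul_le_mul_right _ (Nat.le_add_right _ _)
  · intro a
    rw [map_mul]
    refine mul_ne_zero (hg2 a) ?_
    rw [map_sub, eval_C, map_sum]
    have h1 := hball a
    simp only [map_pow, eval_X]
    linarith
  · intro a
    exact bounded_cell_ball (hball a)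
  · have h1 : (Finset.univ.filter fun p : L × L =>
        y p.2 ∈ cell (g * (C (R ^ 2) - ∑ c, X c ^ 2)) (y p.1)).card ≤ W.card := by
      apply Finset.card_le_card
      intro p hpc
      rw [Finset.mem_filter] at hpc
      exact hp p (cell_mul_subset hpc.2)
    have h2 : (W.card : ℝ) * (N : ℝ) ^ d ≤
        (2 ^ (d + 1) * K + 1) * (Fintype.card L : ℝ) ^ 2 := by
      refine le_trans ?_ hW
      apply mul_le_mul_of_nonneg_left _ (by positivity)
      rw [pow_mul]
      apply pow_le_pow_left₀ (by positivity)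
      exact_mod_cast hlog.le
    have h3 : W.card * N ^ d ≤ (2 ^ (d + 1) * K + 1) * Fintype.card L ^ 2 := by
      exact_mod_cast h2
    calc _ ≤ W.card * N ^ d := Nat.mul_le_mul_right _ h1
      _ ≤ (2 ^ (d + 1) * K + 1) * Fintype.card L ^ 2 := h3
      _ ≤ _ := Nat.mul_le_mul_right _ (Nat.le_add_left _ _)

end Pool.Agent.SAP
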