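import Pool.Agent.SAP.SPLIT
import Pool.Agent.SAP.CUT
import Pool.Agent.SAP.COUNT0
import Pool.Agent.SAP.CELL

/-! # One level of the partition -/

set_option autoImplicit false

namespace Pool.Agent.SAP

open MvPolynomial

open Classical in
theorem exists_step (d : ℕ) (hd : 1 ≤ d) : ∃ K T₀ : ℕ, 1 ≤ K ∧ 1 ≤ T₀ ∧
    ∀ {L : Type} [Fintype L] (y : L → Fin d → ℝ) (_ : GP y) (N s : ℕ) (_ : 1 ≤ N) (_ : 1 ≤ s)
      (_ : s * (T₀ * N ^ d) ≤ Fintype.card L) (_ : Fintype.card L < (s + 1) * (T₀ * N ^ d))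
      (X : Finset L) (M : ℕ) (_ : 1 ≤ M) (_ : M ^ d * Fintype.card L ≤ N ^ d * X.card)
      (_ : N ^ d * X.card < (M + 1) ^ d * Fintype.card L)
      (b₁ b₀ : ℕ) (_ : X.card = b₁ * (s + 1) + b₀ * s),
      ∃ (F : MvPolynomial (Fin d) ℝ) (Y : Finset L) (n₁ n₀ : ℕ) (part : L → ℕ),
        F.totalDegree ≤ K * M ∧ Y ⊆ X ∧ n₁ ≤ b₁ ∧ n₀ ≤ b₀ ∧
        (∀ a ∈ Y, part a < n₁ + n₀) ∧
        (∀ t, t < n₁ + n₀ → (Y.filter fun a => part a = t).card = if t < n₁ then s + 1 else s) ∧
        (∀ a ∈ Y, eval (y a) F ≠ 0) ∧ (∀ a ∈ Y, Bornology.IsBounded (cell F (y a))) ∧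
        (∀ a ∈ Y, ∀ b ∈ Y, part a = part b → y b ∈ cell F (y a)) ∧
        (∀ a ∈ Y, ((Finset.range (n₁ + n₀)).filter fun t =>
          ∃ b ∈ Y, part b = t ∧ y b ∈ cell F (y a)).card ≤ K) ∧
        2 * (X \ Y).card ≤ X.card := by
  obtain ⟨K₀, hsplit⟩ := exists_split d
  set K₁ := K₀ + 1 with hK₁
  set T₀ := 4 * (2 * K₁) ^ d with hT₀
  have hT₀pos : 1 ≤ T₀ := Nat.one_le_iff_ne_zero.2 (by positivity)
  refine ⟨8 * K₁ * 2 ^ d * T₀, T₀, Nat.one_le_iff_ne_zero.2 (by positivity), hT₀pos, ?_⟩
  intro L _ y hy N s hN hs h1 h2 X M hM hMle hMlt b₁ b₀ hb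
  have hNd : 0 < N ^ d := by positivity
  have hMd : 0 < M ^ d := by positivity
  have hLpos : 0 < Fintype.card L := by
    refine lt_of_lt_of_le ?_ h1
    positivity
  have hNL : N ^ d ≤ Fintype.card L := by
    refine le_trans ?_ h1
    calc N ^ d = 1 * (1 * N ^ d) := by ring
      _ ≤ s * (T₀ * N ^ d) := by gcongr
  -- `X` is large
  have hXbig : M ^ d * (s * T₀) ≤ X.card := by
    have h3 : N ^ d * (M ^ d * (s * T₀)) ≤ N ^ d * X.card := by
      calc N ^ d * (M ^ d * (s * T₀)) = M ^ d * (s * (T₀ * N ^ d)) := by ring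
        _ ≤ M ^ d * Fintype.card L := Nat.mul_le_mul_left _ h1
        _ ≤ N ^ d * X.card := hMle
    exact Nat.le_of_mul_le_mul_left h3 hNd
  have hXM : M ^ d ≤ X.card := by
    refine le_trans ?_ hXbig
    exact Nat.le_mul_of_pos_right _ (by positivity)
  have hXsmall : X.card ≤ 2 ^ d * M ^ d * (2 * s * T₀) := by
    have h3 : N ^ d * X.card ≤ N ^ d * (2 ^ d * M ^ d * (2 * s * T₀)) := by
      calc N ^ d * X.card ≤ (M + 1) ^ d * Fintype.card L := hMlt.le
        _ ≤ (2 * M) ^ d * ((s + 1) * (T₀ * N ^ d)) := by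
          apply Nat.mul_le_mul _ h2.le
          exact Nat.pow_le_pow_left (by omega) d
        _ ≤ (2 * M) ^ d * ((2 * s) * (T₀ * N ^ d)) := by
          apply Nat.mul_le_mul_left
          apply Nat.mul_le_mul_right
          omega
        _ = N ^ d * (2 ^ d * M ^ d * (2 * s * T₀)) := by
          rw [Nat.mul_pow]
          ring
    exact Nat.le_of_mul_le_mul_left h3 hNd
  -- the splitting polynomial
  have hgp : GP (fun a : X => y a) := by
    intro N' φ hφ
    exact hy N' (fun β => (φ β : L)) (fun β β' h => hφ (Subtype.ext h))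
  obtain ⟨F, hFdeg, hFne, hFbd, hFpairs⟩ := hsplit (L := X) (fun a : X => y a) hgp M hM
    (by rw [Fintype.card_coe]; exact hXM)
  rw [Fintype.card_coe] at hFpairs
  have hFdeg' : F.totalDegree ≤ K₁ * M := le_trans hFdeg (Nat.mul_le_mul_right _ (by omega))
  have hne : ∀ a ∈ X, eval (y a) F ≠ 0 := fun a ha => hFne ⟨a, ha⟩
  have hbd : ∀ a ∈ X, Bornology.IsBounded (cell F (y a)) := fun a ha => hFbd ⟨a, ha⟩
  -- number of cells
  have hcells : (X.image fun a => cell F (y a)).card ≤ (2 * (K₁ * M)) ^ d := by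
    have h3 := cells_card F hFdeg' (Nat.one_le_iff_ne_zero.2 (by positivity)) (fun a : X => y a)
      hFne hFbd
    rw [← Set.ncard_coe_finset]
    refine le_trans (le_of_eq ?_) h3
    congr 1
    ext ω
    simp only [Finset.coe_image, Set.mem_image, Set.mem_range, Finset.mem_coe]
    constructor
    · rintro ⟨a, ha, rfl⟩
      exact ⟨⟨a, ha⟩, rfl⟩
    · rintro ⟨a, rfl⟩
      exact ⟨a, a.2, rfl⟩
  -- same cell pairs
  set w : L → ℕ := fun a => (X.filter fun b => y b ∈ cell F (y a)).card with hw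
  have hpairs : (∑ a ∈ X, w a) * M ^ d ≤ K₁ * X.card ^ 2 := by
    refine le_trans (le_of_eq ?_) (le_trans hFpairs (Nat.mul_le_mul_right _ (by omega)))
    congr 1
    rw [Finset.card_filter, Fintype.sum_prod_type, ← Finset.sum_coe_sort]
    apply Finset.sum_congr rfl
    intro a _
    rw [hw]
    simp only
    rw [Finset.card_filter, ← Finset.sum_coe_sort]
  set A : Finset L := X.filter fun a => w a * M ^ d ≤ 4 * K₁ * X.card with hA
  have hAX : A ⊆ X := Finset.filter_subset _ _
  have hH : 4 * (X \ A).card ≤ X.card := by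
    by_contra hcon
    push Not at hcon
    have hXpos : 0 < X.card := by
      rcases Nat.eq_zero_or_pos X.card with h3 | h3
      · rw [Finset.card_eq_zero] at h3
        rw [h3] at hcon
        simp at hcon
      · exact h3
    have h3 : (X \ A).card * (4 * K₁ * X.card) ≤ (∑ a ∈ X, w a) * M ^ d := by
      rw [Finset.sum_mul]
      calc (X \ A).card * (4 * K₁ * X.card) = ∑ a ∈ X \ A, 4 * K₁ * X.card := by
            rw [Finset.sum_const, smul_eq_mul]
        _ ≤ ∑ a ∈ X \ A, w a * M ^ d := by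
            apply Finset.sum_le_sum
            intro a ha
            rw [hA, Finset.mem_sdiff, Finset.mem_filter] at ha
            by_contra h4
            push Not at h4
            exact ha.2 ⟨ha.1, h4.le⟩
        _ ≤ ∑ a ∈ X, w a * M ^ d :=
            Finset.sum_le_sum_of_subset Finset.sdiff_subset
    have h4 : K₁ * X.card * (4 * (X \ A).card) ≤ K₁ * X.card * X.card := by
      calc K₁ * X.card * (4 * (X \ A).card) = (X \ A).card * (4 * K₁ * X.card) := by ring
        _ ≤ K₁ * X.card ^ 2 := le_trans h3 hpairs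
        _ = K₁ * X.card * X.card := by ring
    have h5 := Nat.le_of_mul_le_mul_left h4 (by positivity)
    omega
  -- cutting
  obtain ⟨Y, n₁, n₀, part, hYA, hn1, hn0, hpart, hfib, hcls, hrem⟩ :=
    exists_cut (fun a => cell F (y a)) s hs X A hAX b₁ b₀ hb
  have hYX : Y ⊆ X := hYA.trans hAX
  refine ⟨F, Y, n₁, n₀, part, ?_, hYX, hn1, hn0, hpart, hfib, fun a ha => hne a (hYX ha),
    fun a ha => hbd a (hYX ha), ?_, ?_, ?_⟩
  · refine le_trans hFdeg' (Nat.mul_le_mul_right _ ?_)
    calc K₁ = 1 * K₁ * 1 * 1 := by ring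
      _ ≤ 8 * K₁ * 2 ^ d * T₀ := by
        gcongr
        · norm_num
        · exact Nat.one_le_two_pow
  · intro a ha b hb' hab
    have h3 := hcls a ha b hb' hab
    rw [h3]
    exact mem_cell (hne b (hYX hb'))
  · intro a ha
    -- the parts meeting the cell of `a` are disjoint subsets of the points of the cell
    set S := (Finset.range (n₁ + n₀)).filter fun t =>
      ∃ b ∈ Y, part b = t ∧ y b ∈ cell F (y a) with hS
    have h3 : S.card * s ≤ w a := by
      have h4 : (∑ t ∈ S, (Y.filter fun b => part b = t).card) ≤ w a := by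
        rw [← Finset.card_biUnion]
        · apply Finset.card_le_card
          intro b hb'
          rw [Finset.mem_biUnion] at hb'
          obtain ⟨t, ht, hbt⟩ := hb'
          rw [hS, Finset.mem_filter] at ht
          obtain ⟨-, c, hc, hct, hcc⟩ := ht
          rw [Finset.mem_filter] at hbt
          rw [Finset.mem_filter]
          refine ⟨hYX hbt.1, ?_⟩
          have h5 := hcls c hc b hbt.1 (by rw [hct, hbt.2])
          rw [← cell_eq_of_mem hcc, h5]
          exact mem_cell (hne b (hYX hbt.1))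
        · intro t _ t' _ htt'
          rw [Function.onFun, Finset.disjoint_left]
          intro b hb1 hb2
          rw [Finset.mem_filter] at hb1 hb2
          exact htt' (hb1.2.symm.trans hb2.2)
      refine le_trans ?_ h4
      rw [← smul_eq_mul, ← Finset.sum_const]
      apply Finset.sum_le_sum
      intro t ht
      rw [hS, Finset.mem_filter, Finset.mem_range] at ht
      rw [hfib t ht.1]
      split_ifs <;> omega
    have h5 : w a * M ^ d ≤ 4 * K₁ * X.card := by
      have := hYA ha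
      rw [hA, Finset.mem_filter] at this
      exact this.2
    have h6 : (s * M ^ d) * S.card ≤ (s * M ^ d) * (8 * K₁ * 2 ^ d * T₀) := by
      calc (s * M ^ d) * S.card = (S.card * s) * M ^ d := by ring
        _ ≤ w a * M ^ d := Nat.mul_le_mul_right _ h3
        _ ≤ 4 * K₁ * X.card := h5
        _ ≤ 4 * K₁ * (2 ^ d * M ^ d * (2 * s * T₀)) := Nat.mul_le_mul_left _ hXsmall
        _ = (s * M ^ d) * (8 * K₁ * 2 ^ d * T₀) := by ring
    exact Nat.le_of_mul_le_mul_left h6 (by positivity)
  · -- the remaining points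
    have h3 : (A \ Y).card ≤ s * (2 * (K₁ * M)) ^ d := by
      have h4 : (A \ Y).card = ∑ ω ∈ X.image fun a => cell F (y a),
          ((A \ Y).filter fun a => cell F (y a) = ω).card := by
        apply Finset.card_eq_sum_card_fiberwise
        intro a ha
        rw [Finset.mem_coe] at ha ⊢
        exact Finset.mem_image_of_mem _ (hAX (Finset.mem_sdiff.1 ha).1)
      rw [h4]
      calc (∑ ω ∈ X.image fun a => cell F (y a), ((A \ Y).filter fun a => cell F (y a) = ω).card)
          ≤ ∑ ω ∈ X.image fun a => cell F (y a), s := Finset.sum_le_sum fun ω _ => hrem ω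
        _ = (X.image fun a => cell F (y a)).card * s := by rw [Finset.sum_const, smul_eq_mul]
        _ ≤ (2 * (K₁ * M)) ^ d * s := Nat.mul_le_mul_right _ hcells
        _ = s * (2 * (K₁ * M)) ^ d := mul_comm _ _
    have h4 : 4 * (A \ Y).card ≤ X.card := by
      refine le_trans (Nat.mul_le_mul_left 4 h3) (le_trans (le_of_eq ?_) hXbig)
      rw [hT₀, ← mul_assoc 2 K₁ M, Nat.mul_pow (2 * K₁) M d]
      ring
    have h5 : (X \ Y).card ≤ (X \ A).card + (A \ Y).card := by
      refine le_trans (Finset.card_le_card ?_) (Finset.card_union_le _ _)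
      intro a ha
      rw [Finset.mem_sdiff] at ha
      rw [Finset.mem_union, Finset.mem_sdiff, Finset.mem_sdiff]
      by_cases h6 : a ∈ A
      · exact Or.inr ⟨h6, ha.2⟩
      · exact Or.inl ⟨ha.1, h6⟩
    omega

end Pool.Agent.SAP
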